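import Pool.Agent.Lib.MP_859dd5_ag.GC.ResA1

/-!
# Unramified classes on products of Artin-Schreier curves over arbitrary fields

Let `p` and `N ≠ p` be prime numbers, `q = p ^ f`, let `n, n', M ≥ 0` and `w ≥ 1`. There are positive
integers `E` and `s₀`, which depend on these numbers only, with the following two properties.

(I) Let `n' ≥ 2`, let `k` be an arbitrary field of characteristic `p` and let `K = k(s_1, …, s_n', z)`,
where `z ^ p - z = ∑ g_j(s_j)` (`IsASSum`), `g_j = X R_j(X) + l_j X + e_j` with additive polynomials
`R_j` of degree at most `p ^ M` with arbitrary coefficients in `k` (`IsAdditiveForm`). Let `i ≥ 2`. If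
`C` kills the unramified classes of `H^i (k, ℚ_l/ℤ_l(w))` for all prime numbers `l ≠ p`, then `C * E`
kills those of `H^i (K, ℚ_l/ℤ_l(w))` (`Kills`), and the same holds for each functor of fields with
unramified classes (`UFun`, `KillsAll`).

(II) Let `k` be an
arbitrary field of characteristic `p`, let `L` be the function field of the product over `k` of the
`n` curves `y_j ^ p - y_j = a_j x_j ^ N + b_j`, with arbitrary `a_j ≠ 0` and `b_j` in `k`, and of the
`n'` supersingular curves `t_j ^ p - t_j = g_j(s_j)`, where `g_j = X R_j(X) + l_j X + e_j` with an
additive polynomial `R_j` of degree at most `p ^ M` with arbitrary coefficients in `k`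
(`IsAdditiveForm`), and let `K` be an arbitrary subfield of `L`. If `n > 0`, let `k` contain a
primitive `N`-th root of unity. Let `i ≥ 2`. Suppose that each nonzero character `(c, d, d')` of the
Galois group of `L` over `k(x_j ^ N, s_j)` with `c_j = 0` exactly if `d_j = 0` satisfies one of the
following conditions:

* one of its invariants `∏ x_j ^ (c_j)`, `∑ d_j y_j + ∑ d'_j t_j` is moved by an endomorphism of `L`
  over `k` and `K` (`IsShifted`);
* `d' = 0`, and the twist of the character becomes trivial in a rational extension of a field `κ`
  with `q ^ s₀` elements which is finite over `k` (`IsTrivialIn`);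
* two of the curves which occur in the character are supersingular, or two of its exponents `c_i`,
  `c_j` are twisted by the negative of a power of `p` (`HasPair`);
* the number `H` kills, for all prime numbers `l ≠ p`, the unramified classes of
  `H^i (·, ℚ_l/ℤ_l(w))` of the field of the character modulo those of `k` (`Descends`, `mixField`).

Then, for all prime numbers `l ≠ p`, the number `E * H` kills the unramified classes of
`H^i (K, ℚ_l/ℤ_l(w))` modulo those of `k`, and the unramified classes of `K` are killed by an explicit
number if `L` is finite over a purely transcendental extension of `K` and the unramified classes of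
`k` are killed by a number (`IsBounded`).

The same holds for each functor `A` of fields with unramified classes (`UFun`), for example Milnor
K-theory modulo `m`, in place of the Galois cohomology groups, where in the second condition the
functor must have weight `w` and specializations.

Here `H^i (K, ℚ_l/ℤ_l(w))` is the cohomology of the homogeneous continuous cochains of the absolute
Galois group of `K`, which acts on `ℚ_l/ℤ_l` by the `w`-th power of the cyclotomic character. A class
is unramified (`IsUnrCocycle`) if, for each discrete valuation ring of `K`, its restriction to the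
decomposition group comes from the quotient by the inertia group. The definitions in the namespace
`UnrGal` are written in elementary terms in `GC/N0.lean`; `GC/N1.lean` proves that they agree with
those in terms of cohomology groups. `GC/S2.lean` proves that the groups of positive degree of an
algebraically closed field vanish and that the fields `K` and `K(t)` have the same unramified classes
of degree `i ≥ 2`.
-/

namespace Pool.Agent.Results.MP_859dd5_ag.ArtinSchreierFamilies

open UnrA UnrA.Fer UnrG Polynomial UnrGal

universe u

/-- `K = k(s_1, …, s_n, z)` is the function field over `k` of the variety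
`z ^ p - z = g_1(s_1) + ⋯ + g_n(s_n)`, where each `g_j` is an additive form (`IsAdditiveForm`). -/
structure IsASSum (p M : ℕ) {k K : Type u} [Field k] [Field K] [Algebra k K] {n : ℕ}
    (g : Fin n → k[X]) (s : Fin n → K) (z : K) : Prop where
  form : ∀ j, IsAdditiveForm p M (g j)
  equation : z ^ p - z = ∑ j, aeval (s j) (g j)
  independent : AlgebraicIndependent k s
  generate : IntermediateField.adjoin k (Set.range s ∪ {z}) = ⊤

theorem result {p f N : ℕ} (hp : p.Prime) (hf : 0 < f) (hN : N.Prime) (hpN : p ≠ N)
    (n n' M : ℕ) {w : ℕ} (hw : 0 < w) :
    ∃ E s₀ : ℕ, 0 < E ∧ 0 < s₀ ∧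
      (∀ (k K : Type u) [Field k] [Field K] [CharP k p] [Algebra k K] (g : Fin n' → k[X])
        (s : Fin n' → K) (z : K), 2 ≤ n' → IsASSum p M g s z → ∀ C : ℕ,
        (∀ i, 2 ≤ i → Kills p w i C k → Kills p w i (C * E) K) ∧
          ∀ A : UFun.{u, u}, KillsAll A C k → KillsAll A (C * E) K) ∧
      ∀ (κ k K L : Type u) [Field κ] [Field k] [Field K] [Field L] [CharP k p]
        [Algebra k L] [Algebra K L] (_ : Nat.card κ = (p ^ f) ^ s₀) (a b : Fin n → k)
        (g : Fin n' → k[X]) (x y : Fin n → L) (s t : Fin n' → L)
        (_ : IsASProduct p N M a b g x y s t) (ζ : k) (_ : 0 < n → IsPrimitiveRoot ζ N) (H : ℕ),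
        (∀ i, 2 ≤ i → (∀ (c : Fin n → ZMod N) (d : Fin n → ZMod p) (d' : Fin n' → ZMod p),
          (∀ j, c j = 0 ↔ d j = 0) → ¬ (d = 0 ∧ d' = 0) →
          IsShifted K ζ x y s t c d d' ∨
          (d' = 0 ∧ IsTrivialIn κ k p N H
            (∏ j, a j ^ (c j).val) (∑ j, ((d j).val : k) * b j)) ∨
          HasPair p c d' ∨
          Descends p w i H k (mixField k x y s t c d d') (mixField k x y s t c d d')) →
          IsBounded p w i (E * H) k K L) ∧
        ∀ (A : UFun.{u, u})
        (_ : ∀ (c : Fin n → ZMod N) (d : Fin n → ZMod p) (d' : Fin n' → ZMod p),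
          (∀ j, c j = 0 ↔ d j = 0) → ¬ (d = 0 ∧ d' = 0) →
          IsShifted K ζ x y s t c d d' ∨
          (A.Specializes ∧ A.HasWeight κ ((p ^ f) ^ s₀) w ∧ d' = 0 ∧ IsTrivialIn κ k p N H
            (∏ j, a j ^ (c j).val) (∑ j, ((d j).val : k) * b j)) ∨
          HasPair p c d' ∨ KillsRel A H k (mixField k x y s t c d d')),
        IsBoundedBy A (E * H) k K L := by
  obtain ⟨E, s₀, hE, hs₀, h1, h2⟩ := GC.artinSchreier_both.{u} hp hf hN hpN n n' M hw
  exact ⟨E, s₀, hE, hs₀, fun k K _ _ _ _ g s z hn h C =>
    h1 k K g s z hn h.form h.independent h.equation h.generate C, h2⟩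

end Pool.Agent.Results.MP_859dd5_ag.ArtinSchreierFamilies
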