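import Pool.Agent.Lib.MP_859dd5_ag.Mg.G064

/-!
# Comparison of twisted covers
-/

namespace UnrH3

universe u v w

open Polynomial WeierstrassCurve
open scoped Classical

variable {m : ℕ} {Λ : Type u} [Field Λ] {n : ℕ}

section

variable {k C M : Subfield Λ} {X Y x a s : Fin n → Λ} {d δ w : Λ}

lemma Tw.indFam (T : Tw k C X Y x a s d δ w) (hkC : k ≤ C) (hX : IndFam C X) : IndFam k x := by
  intro j h
  apply hX j
  have hC : ∀ z ∈ C, z ∈ cl ((C : Set Λ) ∪ X '' {l | l ≠ j}) := fun z hz =>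
    subset_cl _ (Or.inl hz)
  have h1 : x j ∈ cl ((C : Set Λ) ∪ X '' {l | l ≠ j}) := by
    refine cl_le ?_ h
    rintro z (hz | ⟨i, hi, rfl⟩)
    · exact hC z (hkC hz)
    · rw [T.hx]
      exact mul_mem (pow_mem (hC _ (T.hsC i)) 2) (subset_cl _ (Or.inr ⟨i, hi, rfl⟩))
  have h2 : X j = x j / s j ^ 2 := by
    rw [T.hx, mul_div_cancel_left₀]
    exact pow_ne_zero 2 (T.hs0 j)
  rw [h2]
  exact div_mem h1 (pow_mem (hC _ (T.hsC j)) 2)

lemma IndFam.indSet_range {x : Fin n → Λ} (h : IndFam k x) : IndSet k (Set.range x) := by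
  rintro _ ⟨j, rfl⟩ h'
  apply h j
  refine cl_mono (Set.union_subset_union_right _ ?_) h'
  rintro z ⟨⟨l, rfl⟩, hne⟩
  exact ⟨l, fun he => hne (by rw [he]; rfl), rfl⟩

lemma Tw.tower (T : Tw k C X Y x a s d δ w) {S : Set Λ} (hS : S.Finite)
    (hS4 : ∀ z ∈ S, z ^ 4 ∈ k) (hC : C = adj k S) (hY : ∀ j, Y j ^ 2 = X j ^ 3 - X j)
    (hM : M = adj C (Set.range X ∪ Set.range Y)) : QTower (twF k x w) M := by
  have h1 : QTower (twF k x w) (adj (twF k x w) S) :=
    QTower.of_pow_four hS (fun z hz => k_le_twF (hS4 z hz))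
  have hCle : C ≤ adj (twF k x w) S := by
    rw [hC]
    exact adj_mono k_le_twF le_rfl
  have hX' : ∀ j, X j ∈ adj (twF k x w) S := by
    intro j
    have h2 : X j = x j / s j ^ 2 := by
      rw [T.hx, mul_div_cancel_left₀]
      exact pow_ne_zero 2 (T.hs0 j)
    rw [h2]
    exact div_mem (le_adj _ _ (x_mem_twF j)) (pow_mem (hCle (T.hsC j)) 2)
  have h2 : QTower (adj (twF k x w) S) (adj (adj (twF k x w) S) (Set.range Y)) := by
    apply QTower.of_pow_four (Set.finite_range Y)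
    rintro _ ⟨j, rfl⟩
    have h3 : Y j ^ 4 = (X j ^ 3 - X j) ^ 2 := by rw [← hY]; ring
    rw [h3]
    exact pow_mem (sub_mem (pow_mem (hX' j) 3) (hX' j)) 2
  have h3 : adj (adj (twF k x w) S) (Set.range Y) = M := by
    have hkC : k ≤ C := by rw [hC]; exact le_adj _ _
    have hCM : C ≤ M := by rw [hM]; exact le_adj _ _
    have hSM : S ⊆ M := (subset_adj k S).trans (by rw [← hC]; exact hCM)
    apply le_antisymm
    · apply adj_le (adj_le (T.le hkC hM) hSM)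
      rintro _ ⟨j, rfl⟩
      rw [hM]
      exact subset_adj _ _ (Or.inr ⟨j, rfl⟩)
    · rw [hM]
      apply adj_le (hCle.trans (le_adj _ _))
      rintro z (⟨j, rfl⟩ | ⟨j, rfl⟩)
      · exact le_adj _ _ (hX' j)
      · exact subset_adj _ _ ⟨j, rfl⟩
  rw [← h3]
  exact h1.trans h2

/-- Decomposition of an unramified class of a twisted cover. -/
lemma Tw.split (T : Tw k C X Y x a s d δ w) (hm : Odd m) (h2 : (2 : Λ) ≠ 0) (hkC : k ≤ C)
    (hX : IndFam C X) (hY : ∀ j, Y j ^ 2 = X j ^ 3 - X j) (ξ : KM m (twF k x w)) (hξ : Unr ξ) :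
    From k (twF k x w) ξ ∨ ∃ (η : KM m (twF k x w)) (ζ : KM m (twF k x w))
      (τ : twF k x w →+* twF k x w), From k (twF k x w) η ∧ Unr ζ ∧ ξ = η + ζ ∧
      (∀ z : twF k x w, (z : Λ) ∈ k → τ z = z) ∧
      (∀ j, ∀ z : twF k x w, (z : Λ) = x j → τ z = z) ∧
      (∀ z : twF k x w, (z : Λ) = w → τ z = -z) ∧ KM.map m τ ζ = -ζ ∧
      ∃ c : ZMod m, c + c = 1 ∧ ζ = c • (ξ - KM.map m τ ξ) := by
  have hx := T.indFam hkC hX
  obtain ⟨B, hB⟩ : ∃ B, B = adj k (Set.range x) := ⟨_, rfl⟩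
  have hkB : k ≤ B := by rw [hB]; exact le_adj _ _
  have hxB : ∀ j, x j ∈ B := fun j => by rw [hB]; exact subset_adj _ _ ⟨j, rfl⟩
  have hLB : twF k x w = adj B {w} := by
    rw [hB, adj_adj, twF, Set.union_singleton]
  have hBL : B ≤ twF k x w := by rw [hLB]; exact le_adj _ _
  have hBfrom : ∀ η : KM m B, Unr η → From k B η := by
    subst hB
    intro η hη
    exact from_rat hm (Set.finite_range x) hx.indSet_range hη
  by_cases hwB : w ∈ B
  · left
    have hle : twF k x w ≤ B := by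
      rw [hLB]
      exact adj_le le_rfl (by rintro z rfl; exact hwB)
    have h3 : From B (twF k x w) ξ := ⟨hBL, up m hle ξ, hξ.map _, by rw [up_up, up_refl]⟩
    exact h3.trans hBfrom
  · right
    have hw2 : w ^ 2 ∈ B := by
      rw [T.w_sq hY]
      exact mul_mem (hkB T.hd) (prod_mem fun j _ => sub_mem (pow_mem (hxB j) 3)
        (mul_mem (hkB (T.ha j)) (hxB j)))
    have q := isQuad_of_eq hBL hLB hw2 hwB w_mem_twF
    obtain ⟨τ, hτ, hτw⟩ := q.exists_conj (c := ⟨w ^ 2, hw2⟩) rfl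
    have fix : ∀ z (hz : z ∈ B), τ ⟨z, hBL hz⟩ = ⟨z, hBL hz⟩ := fun z hz =>
      congrArg (fun f : B →+* twF k x w => f ⟨z, hz⟩) hτ
    have ss : τ.comp τ = RingHom.id _ := by
      ext1 z
      refine hom_eq_of_gen (τ.comp τ) (RingHom.id _) (F := B) (T := {w}) hBL
        (by rintro z rfl; exact w_mem_twF) ?_ ?_ z (by rw [← hLB]; exact z.2)
      · intro z hz
        change τ (τ _) = _
        rw [fix z hz, fix z hz]; rfl
      · intro z hz
        rw [Set.mem_singleton_iff] at hz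
        subst hz
        change τ (τ _) = _
        rw [hτw, map_neg, hτw, neg_neg]; rfl
    have hw0 : w ≠ 0 := by
      rintro rfl
      exact hwB (zero_mem _)
    obtain ⟨η, ζ, hη, hζ, hζτ, hξ', hζ'⟩ := exists_inv_part hm q τ hτ (by
      rw [hτw]
      intro he
      have h3 : -w = w := congrArg Subtype.val he
      have h4 : 2 * w = 0 := by linear_combination -h3
      rcases mul_eq_zero.mp h4 with h5 | h5
      · exact h2 h5
      · exact hw0 h5) ss hξ
    have h3 : From B (twF k x w) (up m hBL η) := ⟨hBL, η, hη, rfl⟩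
    refine ⟨up m hBL η, ζ, τ, h3.trans hBfrom, hζ, hξ', ?_, ?_, ?_, hζτ, ?_⟩
    · intro z hz
      exact fix z (hkB hz)
    · intro j z hz
      have h4 : z = ⟨x j, hBL (hxB j)⟩ := Subtype.ext hz
      rw [h4]; exact fix _ (hxB j)
    · intro z hz
      have h4 : z = ⟨w, w_mem_twF⟩ := Subtype.ext hz
      rw [h4]; exact hτw
    · exact ⟨_, (exists_half (m := m) hm).choose_spec, hζ'⟩

end

/-- Unramified classes of twisted covers with the same invariant agree. -/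
theorem Tw.compare [IsAlgClosed Λ] (hm : Odd m) (h2 : (2 : Λ) ≠ 0) {k C M : Subfield Λ}
    {X Y x a s x' a' s' : Fin n → Λ} {d δ w d' δ' w' : Λ} {ι : Λ} (hι : ι ^ 2 = -1) (hιk : ι ∈ k)
    {S : Set Λ} (hS : S.Finite) (hS4 : ∀ z ∈ S, z ^ 4 ∈ k) (hC : C = adj k S)
    (T : Tw k C X Y x a s d δ w) (T' : Tw k C X Y x' a' s' d' δ' w')
    {ρ : Λ} (hρ : ρ ∈ k) (hρ' : δ' * ∏ j, s' j = ρ * (δ * ∏ j, s j)) (hX : IndFam C X)
    (hY : ∀ j, Y j ^ 2 = X j ^ 3 - X j) (hM : M = adj C (Set.range X ∪ Set.range Y))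
    (hL : twF k x w ≤ M) (ξ : KM m (twF k x w)) (hξ : Unr ξ) :
    From (twF k x' w') M (up m hL ξ) := by
  have hkC : k ≤ C := by rw [hC]; exact le_adj _ _
  have hCM : C ≤ M := by rw [hM]; exact le_adj _ _
  have hL' : twF k x' w' ≤ M := T'.le hkC hM
  have hk : ∀ η : KM m (twF k x w), From k (twF k x w) η → From (twF k x' w') M (up m hL η) := by
    rintro η ⟨h, η', hη', rfl⟩
    exact ⟨hL', up m k_le_twF η', hη'.map _, by rw [up_up, up_up]⟩
  rcases T.split hm h2 hkC hX hY ξ hξ with h | ⟨η, ζ, τ, hη, hζ, hξ', t1, t2, t3, t4, -⟩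
  · exact hk ξ h
  obtain ⟨_, η₁, hη₁, e₁⟩ := hk η hη
  suffices h : From (twF k x' w') M (up m hL ζ) by
    obtain ⟨_, η₂, hη₂, e₂⟩ := h
    exact ⟨hL', η₁ + η₂, hη₁.add hη₂, by rw [map_add, e₁, e₂, ← map_add, hξ']⟩
  have hιC : ι ∈ C := hkC hιk
  have htower := T'.tower hS hS4 hC hY hM
  have hs'0 : ∏ j, s' j ≠ 0 := Finset.prod_ne_zero_iff.mpr fun j _ => T'.hs0 j
  have hs0 : ∏ j, s j ≠ 0 := Finset.prod_ne_zero_iff.mpr fun j _ => T.hs0 j
  have hδ0 : δ ≠ 0 := by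
    rintro h
    exact T.hd0 (by rw [← T.hδ, h]; simp)
  have hδ'0 : δ' ≠ 0 := by
    rintro h
    exact T'.hd0 (by rw [← T'.hδ, h]; simp)
  have hρ0 : ρ ≠ 0 := by
    rintro rfl
    rw [zero_mul] at hρ'
    exact mul_ne_zero hδ'0 hs'0 hρ'
  -- `w` is a multiple of `w'`
  have hww : w = d' / (ρ ^ 3 * d) * w' := by
    have h3 : (ρ ^ 3 * d) * w = d' * w' := by
      rw [T.hw, T'.hw, ← T.hδ, ← T'.hδ]
      have h4 : ∀ f : Fin n → Λ, ∏ j, f j ^ 3 = (∏ j, f j) ^ 3 := fun f => Finset.prod_pow _ _ _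
      rw [h4, h4]
      linear_combination (-((δ' * ∏ j, s' j) ^ 2 + (δ' * ∏ j, s' j) * (ρ * (δ * ∏ j, s j)) +
        (ρ * (δ * ∏ j, s j)) ^ 2) * ∏ j, Y j) * hρ'
    have h5 : ρ ^ 3 * d ≠ 0 := mul_ne_zero (pow_ne_zero 3 hρ0) T.hd0
    rw [div_mul_eq_mul_div, eq_div_iff h5]
    linear_combination h3
  have hwL' : w ∈ twF k x' w' := by
    rw [hww]
    exact mul_mem (k_le_twF (div_mem T'.hd (mul_mem (pow_mem hρ 3) T.hd))) w_mem_twF
  -- square relation between `x` and `x'`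
  have hxx : ∀ j, x j ^ 2 = a j / a' j * x' j ^ 2 := by
    intro j
    rw [T.hx, T'.hx, ← T.hs, ← T'.hs]
    have := T'.hs0 j
    field_simp
  have hxx' : ∀ j, x j ^ 2 ∈ twF k x' w' := by
    intro j
    rw [hxx]
    exact mul_mem (k_le_twF (div_mem (T.ha j) (T'.ha j))) (pow_mem (x_mem_twF j) 2)
  refine htower.descend hm h2 ?_ ?_ (QTower.refl M) ⟨le_rfl, up m hL ζ, hζ.map _, up_refl _ _⟩
  · -- normality
    intro g hg z
    have gk : ∀ z : M, (z : Λ) ∈ k → g z = z := fun z hz => hg z (k_le_twF hz)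
    have hιM : ι ∈ M := hCM hιC
    have g4 : ∀ z : M, (z : Λ) ^ 4 ∈ k → g z ∈ M := by
      intro z hz
      apply mem_of_pow_four hι hιM z.2
      rw [← map_pow]
      exact gk (z ^ 4) hz
    have hgC : ∀ z : M, (z : Λ) ∈ C → g z ∈ M := by
      have : C ≤ (M.comap g).map M.subtype := by
        rw [hC]
        apply adj_le
        · intro z hz
          refine ⟨⟨z, hCM (hkC hz)⟩, ?_, rfl⟩
          change g _ ∈ M
          rw [gk _ hz]
          exact hCM (hkC hz)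
        · intro z hz
          have hzM : z ∈ M := hCM (by rw [hC]; exact subset_adj _ _ hz)
          exact ⟨⟨z, hzM⟩, g4 ⟨z, hzM⟩ (hS4 z hz), rfl⟩
      intro z hz
      obtain ⟨z', hz', he⟩ := this hz
      have : z' = z := Subtype.ext he
      rw [← this]; exact hz'
    have hXM : ∀ i, X i ∈ M := fun i => by rw [hM]; exact subset_adj _ _ (Or.inl ⟨i, rfl⟩)
    have hYM : ∀ i, Y i ∈ M := fun i => by rw [hM]; exact subset_adj _ _ (Or.inr ⟨i, rfl⟩)
    have hx'M : ∀ i, x' i ∈ M := fun i => hL' (x_mem_twF i)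
    have hgX : ∀ i, g ⟨X i, hXM i⟩ = X i ∨ g ⟨X i, hXM i⟩ = - X i := by
      intro i
      apply sq_eq_sq_iff_eq_or_eq_neg.mp
      have h3 : X i ^ 2 = x' i ^ 2 / a' i := by
        rw [T'.hx, ← T'.hs]
        have := T'.hs0 i
        field_simp
      have h4 : (⟨X i, hXM i⟩ : M) ^ 2 = ⟨x' i, hx'M i⟩ ^ 2 / ⟨a' i, hCM (hkC (T'.ha i))⟩ :=
        Subtype.ext h3
      rw [← map_pow, h4, map_div₀, map_pow, gk ⟨a' i, _⟩ (T'.ha i), hg ⟨x' i, _⟩ (x_mem_twF i)]
      exact h3.symm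
    have hgY : ∀ i, g ⟨Y i, hYM i⟩ ∈ M := by
      intro i
      have h3 : (⟨Y i, hYM i⟩ : M) ^ 2 = ⟨X i, hXM i⟩ ^ 3 - ⟨X i, hXM i⟩ := Subtype.ext (hY i)
      have h4 := congrArg g h3
      rw [map_pow, map_sub, map_pow] at h4
      apply mem_of_pow_four hι hιM (hYM i)
      have h5 : g ⟨Y i, hYM i⟩ ^ 4 = (g ⟨Y i, hYM i⟩ ^ 2) ^ 2 := by ring
      have h6 : Y i ^ 4 = (Y i ^ 2) ^ 2 := by ring
      rw [h5, h6, h4, hY]
      rcases hgX i with h7 | h7
      · rw [h7]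
      · rw [h7]; ring
    have hfin : M ≤ (M.comap g).map M.subtype := by
      conv_lhs => rw [hM]
      apply adj_le
      · intro z hz
        exact ⟨⟨z, hCM hz⟩, hgC ⟨z, hCM hz⟩ hz, rfl⟩
      · rintro z (⟨i, rfl⟩ | ⟨i, rfl⟩)
        · refine ⟨⟨X i, hXM i⟩, ?_, rfl⟩
          change g _ ∈ M
          rcases hgX i with h7 | h7
          · rw [h7]; exact hXM i
          · rw [h7]; exact neg_mem (hXM i)
        · exact ⟨⟨Y i, hYM i⟩, hgY i, rfl⟩
    obtain ⟨z', hz', he⟩ := hfin z.2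
    have : z' = z := Subtype.ext he
    rw [← this]; exact hz'
  · -- invariance
    intro g hg
    have key := T.lift hm h2 hι hιC hkC hX hY hM hL t1 t2 t3 t4 hζ (RingHom.id _)
      (fun z hz => hz) (fun j z _ => rfl) (fun z _ => rfl) g
      (fun z hz => by
        have : g (Subfield.inclusion hL z) = Subfield.inclusion hL z := hg _ (k_le_twF hz)
        rw [this]; rfl)
      (fun j z hz => by
        apply sq_eq_sq_iff_eq_or_eq_neg.mp
        rw [← map_pow]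
        apply hg
        change (z : Λ) ^ 2 ∈ _
        rw [hz]; exact hxx' j)
      (fun z hz => hg z (by rw [hz]; exact hwL'))
      (fun j z hz => hg z (by rw [hz]; exact k_le_twF (T.ha j)))
      (fun z hz => hg z (by rw [hz]; exact k_le_twF T.hd))
    rw [key, KM.map_id]; rfl

end UnrH3
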