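import Pool.Agent.Lib.MP_859dd5_ag.Mg.G065

/-!
# Descent of classes to the constant cover
-/

namespace UnrH3

universe u v w

open Polynomial WeierstrassCurve
open scoped Classical

variable {m : ℕ} {Λ : Type u} [Field Λ] {n r : ℕ}

section pow

variable {R : Type u} [Field R]

lemma gauss_pow_eq {ι : R} (h2 : (2 : R) ≠ 0) (hι : ι ^ 2 = -1) {A B : ℕ} (h : ι ^ A = ι ^ B) :
    (⟨0, 1⟩ : GaussianInt) ^ A = ⟨0, 1⟩ ^ B := by
  have h4 : ι ^ 4 = 1 := by linear_combination (ι ^ 2 - 1) * hι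
  have hne : ι ^ 2 ≠ 1 := by
    intro h'
    rw [hι] at h'
    exact h2 (by linear_combination -h')
  have ho : orderOf ι = 2 ^ (1 + 1) := by
    have : Fact (Nat.Prime 2) := ⟨Nat.prime_two⟩
    exact orderOf_eq_prime_pow (by simpa using hne) (by simpa using h4)
  have ho' : orderOf (⟨0, 1⟩ : GaussianInt) = 2 ^ (1 + 1) := by
    have : Fact (Nat.Prime 2) := ⟨Nat.prime_two⟩
    apply orderOf_eq_prime_pow
    · decide
    · decide
  have hι0 : ι ≠ 0 := by
    rintro rfl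
    rw [zero_pow (by norm_num)] at h4
    exact zero_ne_one h4
  have h5 : A ≡ B [MOD 2 ^ (1 + 1)] := by
    rw [← ho]
    have hu : (Units.mk0 ι hι0) ^ A = (Units.mk0 ι hι0) ^ B := by
      ext; simpa using h
    rw [pow_eq_pow_iff_modEq] at hu
    rwa [← orderOf_units] at hu
  rw [← ho'] at h5
  have hunit : IsUnit (⟨0, 1⟩ : GaussianInt) := IsUnit.of_mul_eq_one ⟨0, -1⟩ (by decide)
  obtain ⟨v, hv⟩ := hunit
  rw [← hv, ← Units.val_pow_eq_pow_val, ← Units.val_pow_eq_pow_val]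
  congr 1
  rw [pow_eq_pow_iff_modEq, ← orderOf_units, hv]
  exact h5

end pow

section

variable {F₀ k C M M₀ : Subfield Λ} {t : Fin r → Λ} {X Y x a s : Fin n → Λ} {d δ w : Λ}

/-- The elements `t` are independent over the constant field `M₀`. -/
lemma indSet_const (hk : k = adj F₀ (Set.range t)) (ht : IndSet F₀ (Set.range t)) (hkC : k ≤ C)
    (hX : IndFam C X) (hY : ∀ j, Y j ^ 2 = X j ^ 3 - X j)
    (hM₀ : M₀ = adj F₀ (Set.range X ∪ Set.range Y)) : IndSet M₀ (Set.range t) := by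
  intro z hz h
  have h1 : z ∉ cl ((F₀ : Set Λ) ∪ (Set.range t \ {z}) ∪ Set.range X) := by
    apply indep_swap (ht z hz)
    intro j hj
    apply hX j
    refine cl_mono ?_ hj
    have hkC' : (F₀ : Set Λ) ∪ Set.range t ⊆ C := by
      rintro y (hy | hy)
      · apply hkC; rw [hk]; exact le_adj _ _ hy
      · apply hkC; rw [hk]; exact subset_adj _ _ hy
    rintro y (rfl | (hy | ⟨hy, _⟩) | hy)
    · exact Or.inl (hkC' (Or.inr hz))
    · exact Or.inl (hkC' (Or.inl hy))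
    · exact Or.inl (hkC' (Or.inr hy))
    · exact Or.inr hy
  apply h1
  refine cl_le ?_ h
  rintro y (hy | hy)
  · have h3 : M₀ ≤ cl ((F₀ : Set Λ) ∪ (Set.range t \ {z}) ∪ Set.range X) := by
      rw [hM₀]
      apply adj_le
      · intro y hy
        exact subset_cl _ (Or.inl (Or.inl hy))
      · have h4 : ∀ i, X i ∈ cl ((F₀ : Set Λ) ∪ (Set.range t \ {z}) ∪ Set.range X) := fun i =>
          subset_cl _ (Or.inr ⟨i, rfl⟩)
        rintro y (⟨i, rfl⟩ | ⟨i, rfl⟩)
        · exact h4 i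
        · apply mem_cl_of_pow (n := 2) (by norm_num)
          rw [hY]
          exact sub_mem (pow_mem (h4 i) 3) (h4 i)
    exact h3 hy
  · exact subset_cl _ (Or.inl (Or.inr hy))

/-- The class of a constant twisted cover comes from the constant field `M₀`. -/
theorem Tw.from_const [IsAlgClosed Λ] (hm : Odd m) (h2 : (2 : Λ) ≠ 0) {ι : Λ} (hι : ι ^ 2 = -1)
    (hιF : ι ∈ F₀) (hk : k = adj F₀ (Set.range t)) (ht : IndSet F₀ (Set.range t))
    (T : Tw k C X Y x a s d δ w) {S : Set Λ} (hS : S.Finite) (hS4 : ∀ z ∈ S, z ^ 4 ∈ k)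
    (hC : C = adj k S) (hX : IndFam C X) (hY : ∀ j, Y j ^ 2 = X j ^ 3 - X j)
    (hM : M = adj C (Set.range X ∪ Set.range Y)) {c : Λ} (hc : c ∈ k)
    (hc4 : c ^ 4 = d ^ 2 * ∏ j, a j) (hL : twF k x w ≤ M)
    (hM₀ : M₀ = adj F₀ (Set.range X ∪ Set.range Y)) (ξ : KM m (twF k x w)) (hξ : Unr ξ) :
    From M₀ M (up m hL ξ) := by
  have hkC : k ≤ C := by rw [hC]; exact le_adj _ _
  have hιk : ι ∈ k := by rw [hk]; exact le_adj _ _ hιF
  have hP4 : (δ * ∏ j, s j) ^ 4 = c ^ 4 := by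
    rw [hc4, mul_pow, ← Finset.prod_pow, ← T.hδ]
    simp only [T.hs]
    ring
  have hPk : δ * ∏ j, s j ∈ k := mem_of_pow_four hι hιk hc hP4
  have hδ0 : δ ≠ 0 := by
    rintro h
    exact T.hd0 (by rw [← T.hδ, h]; simp)
  have hs0 : ∏ j, s j ≠ 0 := Finset.prod_ne_zero_iff.mpr fun j _ => T.hs0 j
  have T' : Tw k C X Y X (fun _ => 1) (fun _ => 1) 1 1 (∏ j, Y j) :=
    { ha := fun j => one_mem _
      hd := one_mem _
      hd0 := one_ne_zero
      hs := fun j => one_pow _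
      hs0 := fun j => one_ne_zero
      hsC := fun j => one_mem _
      hδ := one_pow _
      hδC := one_mem _
      hx := fun j => by rw [one_pow, one_mul]
      hw := by simp }
  have h1 := T.compare hm h2 hι hιk hS hS4 hC T' (inv_mem hPk)
    (by rw [inv_mul_cancel₀ (mul_ne_zero hδ0 hs0)]; simp) hX hY hM hL ξ hξ
  obtain ⟨Mk, hMk⟩ : ∃ Mk, Mk = adj k (Set.range X ∪ Set.range Y) := ⟨_, rfl⟩
  have hMkM : Mk ≤ M := by
    rw [hMk, hM]
    exact adj_mono hkC le_rfl
  have hL'Mk : twF k X (∏ j, Y j) ≤ Mk := by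
    rw [hMk]
    apply adj_le (le_adj _ _)
    rintro z (rfl | ⟨j, rfl⟩)
    · exact prod_mem fun j _ => subset_adj _ _ (Or.inr ⟨j, rfl⟩)
    · exact subset_adj _ _ (Or.inl ⟨j, rfl⟩)
  have h3 : From Mk M (up m hL ξ) := by
    obtain ⟨h4, η, hη, h5⟩ := h1
    exact ⟨hMkM, up m hL'Mk η, hη.map _, by rw [up_up]; exact h5⟩
  have hMk' : Mk = adj M₀ (Set.range t) := by
    rw [hMk, hM₀, hk, adj_adj, adj_adj, Set.union_comm]
  refine h3.trans ?_
  have h4 := indSet_const hk ht hkC hX hY hM₀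
  intro η hη
  have key : ∀ (B : Subfield Λ), B = adj M₀ (Set.range t) → ∀ ξ : KM m B, Unr ξ →
      From M₀ B ξ := by
    rintro B rfl ξ hξ
    exact from_rat hm (Set.finite_range t) h4 hξ
  exact key _ hMk' η hη

lemma const_injective (hm : Odd m) (hk : k = adj F₀ (Set.range t))
    (ht : IndSet F₀ (Set.range t)) {S : Set Λ} (hS : S.Finite) (hS4 : ∀ z ∈ S, z ^ 4 ∈ k)
    (hC : C = adj k S) (hX : IndFam C X) (hY : ∀ j, Y j ^ 2 = X j ^ 3 - X j)
    (hM : M = adj C (Set.range X ∪ Set.range Y))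
    (hM₀ : M₀ = adj F₀ (Set.range X ∪ Set.range Y)) (h : M₀ ≤ M) :
    Function.Injective (up m h) := by
  have hkC : k ≤ C := by rw [hC]; exact le_adj _ _
  obtain ⟨Mk, hMk⟩ : ∃ Mk, Mk = adj k (Set.range X ∪ Set.range Y) := ⟨_, rfl⟩
  have hMk' : Mk = adj M₀ (Set.range t) := by
    rw [hMk, hM₀, hk, adj_adj, adj_adj, Set.union_comm]
  have hMkM : Mk ≤ M := by
    rw [hMk, hM]
    exact adj_mono hkC le_rfl
  have hM₀Mk : M₀ ≤ Mk := by rw [hMk']; exact le_adj _ _
  have h4 := indSet_const hk ht hkC hX hY hM₀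
  have i1 : Function.Injective (up m hM₀Mk) := by
    have key : ∀ (B : Subfield Λ) (h : M₀ ≤ B), B = adj M₀ (Set.range t) →
        Function.Injective (up m h) := by
      rintro B h rfl
      exact up_injective_rat hm (Set.finite_range t) h4
    exact key _ _ hMk'
  have hM' : M = adj Mk S := by
    rw [hM, hC, hMk, adj_adj, adj_adj, Set.union_comm]
  have htow : QTower Mk M := by
    rw [hM']
    exact QTower.of_pow_four hS (fun z hz => by
      have := hS4 z hz
      rw [hMk]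
      exact le_adj _ _ this)
  have i2 := htow.up_injective (m := m) hm hMkM
  intro y z hyz
  apply i1
  apply i2
  rw [up_up, up_up]
  exact hyz

end

end UnrH3
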