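import Pool.Agent.Lib.MP_859dd5_ag.Const2

/-!
# The characteristic equation of the Frobenius on constant twisted covers
-/

namespace UnrH3

universe u v w

open Polynomial WeierstrassCurve
open scoped Classical

variable {m : ℕ} {Λ : Type u} [Field Λ] {n r : ℕ}

section

variable {F₀ k C M M₀ : Subfield Λ} {t : Fin r → Λ} {X Y x a s : Fin n → Λ} {d δ w : Λ} {p : ℕ}

lemma const_multiOdd [hp : Fact p.Prime] [CharP Λ p] (h2 : (2 : Λ) ≠ 0) {ι : Λ}
    (hι : ι ^ 2 = -1) (hF : F₀ ≤ C) (hιC : ι ∈ C)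
    (hX : IndFam C X) (hY : ∀ j, Y j ^ 2 = X j ^ 3 - X j)
    (hM : M = adj C (Set.range X ∪ Set.range Y))
    (hM₀ : M₀ = adj F₀ (Set.range X ∪ Set.range Y)) (h : M₀ ≤ M)
    (hinj : Function.Injective (up m h)) {γ : KM m M₀} (hodd : MultiOdd C X Y (up m h γ)) :
    MultiOdd F₀ X Y γ := by
  intro j g g1 g2 g3
  have hFM₀ : F₀ ≤ M₀ := by rw [hM₀]; exact le_adj _ _
  have hTM₀ : (Set.range X ∪ Set.range Y) ⊆ M₀ := by rw [hM₀]; exact subset_adj _ _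
  obtain ⟨G, hG⟩ := exists_isH_single (p := p) h2 hX hY hM hι hιC j 2 0
  have hGX : ∀ i, ∀ z : M, (z : Λ) = X i → G z = z := by
    intro i z hz
    apply Subtype.ext
    rw [hG.x i z hz]
    by_cases hij : i = j
    · subst hij
      rw [Pi.single_eq_same, Pi.single_eq_same]; ring
    · rw [Pi.single_eq_of_ne hij, Pi.single_eq_of_ne hij]; ring
  have hGY : ∀ i, i ≠ j → ∀ z : M, (z : Λ) = Y i → G z = z := by
    intro i hij z hz
    apply Subtype.ext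
    rw [hG.y i z hz, Pi.single_eq_of_ne hij, Pi.single_eq_of_ne hij]; ring
  have hGYj : ∀ z : M, (z : Λ) = Y j → G z = -z := by
    intro z hz
    apply Subtype.ext
    rw [hG.y j z hz, Pi.single_eq_same, Pi.single_eq_same, hι]
    push_cast
    ring
  have h1 : KM.map m G (up m h γ) = -up m h γ := by
    apply hodd j G hG.c _ hGYj
    rintro z (⟨i, hi⟩ | ⟨i, hij, hi⟩)
    · exact hGX i z hi.symm
    · exact hGY i hij z hi.symm
  have h3 : G.comp (Subfield.inclusion h) = (Subfield.inclusion h).comp g := by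
    ext1 z
    refine hom_eq_of_gen (G.comp (Subfield.inclusion h)) ((Subfield.inclusion h).comp g)
      (F := F₀) (T := Set.range X ∪ Set.range Y) hFM₀ hTM₀ ?_ ?_ z (by rw [← hM₀]; exact z.2)
    · intro z hz
      change G _ = Subfield.inclusion h (g _)
      rw [g1 _ hz, hG.c _ (hF hz)]
    · rintro z (⟨i, hi⟩ | ⟨i, hi⟩)
      · change G _ = Subfield.inclusion h (g _)
        rw [g2 _ (Or.inl ⟨i, hi⟩), hGX i _ hi.symm]
      · change G _ = Subfield.inclusion h (g _)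
        by_cases hij : i = j
        · subst hij
          rw [g3 _ hi.symm, hGYj _ hi.symm, map_neg]
        · rw [g2 _ (Or.inr ⟨i, hij, hi⟩), hGY i hij _ hi.symm]
  apply hinj
  unfold up at h1 ⊢
  rw [KM.map_map, h3, ← KM.map_map] at h1
  rw [h1, map_neg]

/-- The characteristic equation of the Frobenius on the unramified classes of a constant twisted
cover. -/
theorem Tw.frob_char [IsAlgClosed Λ] [hp : Fact p.Prime] [CharP Λ p] (hm : Odd m)
    (h2 : (2 : Λ) ≠ 0) (hp4 : p % 4 = 1) {ι : Λ} (hι : ι ^ 2 = -1) (hιF : ι ∈ F₀)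
    (hk : k = adj F₀ (Set.range t)) (ht : IndSet F₀ (Set.range t))
    (htors : ∀ z ∈ F₀, z ≠ 0 → ∃ l > 0, z ^ l = 1)
    (T : Tw k C X Y x a s d δ w) {S : Set Λ} (hSdef : S = insert δ (Set.range s))
    (hC : C = adj k S) (hX : IndFam C X) (hY : ∀ j, Y j ^ 2 = X j ^ 3 - X j)
    (hM : M = adj C (Set.range X ∪ Set.range Y)) {c : Λ} (hc : c ∈ k)
    (hc4 : c ^ 4 = d ^ 2 * ∏ j, a j) (hL : twF k x w ≤ M) (j₀ : Fin n) (e b : ℕ)
    (σ : twF k x w →+* twF k x w)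
    (σF : ∀ z : twF k x w, (z : Λ) ∈ F₀ → σ z = z ^ p ^ e)
    (σt : ∀ i, ∀ z : twF k x w, (z : Λ) = t i → σ z = z)
    (σx : ∀ i, ∀ z : twF k x w, (z : Λ) = x i → σ z = z)
    (σw : ∀ z : twF k x w, (z : Λ) = w → σ z = z)
    (σa : ∀ i, ∀ z : twF k x w, (z : Λ) = a i → σ z = z)
    (σd : ∀ z : twF k x w, (z : Λ) = d → σ z = z)
    (σc : ∀ z : twF k x w, (z : Λ) = c → (σ z : Λ) = ι ^ b * z)
    {j : ℕ} (hj : 2 ≤ j) {ξ : KM m (twF k x w)} (hξ : Unr ξ) (hd : ξ ∈ KM.deg m (twF k x w) j)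
    {ϖ : GaussianInt} (hϖ : ϖ.norm = p) (hϖ1 : (⟨2, 2⟩ : GaussianInt) ∣ ϖ - 1)
    (hϖι : (ϖ.re : Λ) + ϖ.im * ι = 0) {z : GaussianInt}
    (hz : z = ⟨0, 1⟩ ^ (3 * b) * ϖ ^ (n * e)) :
    (((p ^ e : ℕ) : ℤ) ^ j * ((p ^ e : ℕ) : ℤ) ^ j) • ξ -
      (2 * z.re * ((p ^ e : ℕ) : ℤ) ^ j) • KM.map m σ ξ +
      z.norm • KM.map m σ (KM.map m σ ξ) = 0 := by
  have hFk : F₀ ≤ k := by rw [hk]; exact le_adj _ _
  have hkC : k ≤ C := by rw [hC]; exact le_adj _ _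
  have hCM : C ≤ M := by rw [hM]; exact le_adj _ _
  have hιk : ι ∈ k := hFk hιF
  have hιC : ι ∈ C := hkC hιk
  have hιM : ι ∈ M := hCM hιC
  have hSfin : S.Finite := by rw [hSdef]; exact Set.toFinite _
  have hS4 : ∀ z ∈ S, z ^ 4 ∈ k := by
    intro z hz
    rw [hSdef] at hz
    rcases hz with rfl | ⟨i, rfl⟩
    · have : z ^ 4 = (z ^ 2) ^ 2 := by ring
      rw [this, T.hδ]; exact pow_mem T.hd 2
    · rw [T.hs]; exact T.ha i
  have htower := T.tower hSfin hS4 hC hY hM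
  have hLinj : Function.Injective (up m hL) := htower.up_injective hm hL
  rcases T.odd_of_deg hm h2 hkC hX hY hk ht htors hj hξ hd with h0 | ⟨τ, t1, t2, t3, t4⟩
  · rw [h0]; simp
  have hXM : ∀ i, X i ∈ M := fun i => by rw [hM]; exact subset_adj _ _ (Or.inl ⟨i, rfl⟩)
  have hYM : ∀ i, Y i ∈ M := fun i => by rw [hM]; exact subset_adj _ _ (Or.inr ⟨i, rfl⟩)
  have hxM : ∀ i, x i ∈ M := fun i => hL (x_mem_twF i)
  have hkM : k ≤ M := hkC.trans hCM
  have haM : ∀ i, a i ∈ M := fun i => hkM (T.ha i)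
  have hdM : d ∈ M := hkM T.hd
  have hsM : ∀ i, s i ∈ M := fun i => hCM (T.hsC i)
  have hδM : δ ∈ M := hCM T.hδC
  have hcM : c ∈ M := hkM hc
  have hwM : w ∈ M := hL w_mem_twF
  -- an extension of `σ`
  obtain ⟨g₀, hg₀⟩ := exists_extension_sub hL htower.subset_cl ((twF k x w).subtype.comp σ)
  have hg₀' : ∀ z : M, ∀ hz : (z : Λ) ∈ twF k x w, g₀ z = σ ⟨z, hz⟩ := fun z hz => hg₀ ⟨z, hz⟩
  have gF : ∀ z : M, (z : Λ) ∈ F₀ → g₀ z = (z : Λ) ^ p ^ e := by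
    intro z hz
    rw [hg₀' z (k_le_twF (hFk hz)), σF _ hz]
    rfl
  have gt : ∀ i, ∀ z : M, (z : Λ) = t i → g₀ z = z := by
    intro i z hz
    have h1 : (z : Λ) ∈ k := by rw [hk, hz]; exact subset_adj _ _ ⟨i, rfl⟩
    rw [hg₀' z (k_le_twF h1), σt i _ hz]
  have gx : ∀ i, g₀ ⟨x i, hxM i⟩ = x i := by
    intro i
    rw [hg₀' ⟨x i, hxM i⟩ (x_mem_twF i), σx i _ rfl]
  have gw : g₀ ⟨w, hwM⟩ = w := by
    rw [hg₀' ⟨w, hwM⟩ w_mem_twF, σw _ rfl]
  have ga : ∀ i, g₀ ⟨a i, haM i⟩ = a i := by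
    intro i
    rw [hg₀' ⟨a i, haM i⟩ (k_le_twF (T.ha i)), σa i _ rfl]
  have gd : g₀ ⟨d, hdM⟩ = d := by
    rw [hg₀' ⟨d, hdM⟩ (k_le_twF T.hd), σd _ rfl]
  have gc : g₀ ⟨c, hcM⟩ = ι ^ b * c := by
    rw [hg₀' ⟨c, hcM⟩ (k_le_twF hc), σc _ rfl]
  have gι : g₀ ⟨ι, hιM⟩ = ι := by
    rw [gF ⟨ι, hιM⟩ hιF]
    exact pow_iota hp4 hι e
  have gk : ∀ z : M, (z : Λ) ∈ k → g₀ z ∈ k := by
    have : k ≤ (k.comap g₀).map M.subtype := by
      conv_lhs => rw [hk]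
      apply adj_le
      · intro z hz
        refine ⟨⟨z, hkM (hFk hz)⟩, ?_, rfl⟩
        change g₀ _ ∈ k
        rw [gF _ hz]
        exact pow_mem (hFk hz) _
      · rintro _ ⟨i, rfl⟩
        have h1 : t i ∈ k := by rw [hk]; exact subset_adj _ _ ⟨i, rfl⟩
        refine ⟨⟨t i, hkM h1⟩, ?_, rfl⟩
        change g₀ _ ∈ k
        rw [gt i _ rfl]
        exact h1
    intro z hz
    obtain ⟨z', hz', he⟩ := this hz
    have : z' = z := Subtype.ext he
    rw [← this]; exact hz'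
  have gs : ∀ i, g₀ ⟨s i, hsM i⟩ ∈ C := by
    intro i
    apply mem_of_pow_four hι hιC (T.hsC i)
    have h1 : (⟨s i, hsM i⟩ : M) ^ 4 = ⟨a i, haM i⟩ := Subtype.ext (T.hs i)
    rw [← map_pow, h1, ga, T.hs]
  have gδ : g₀ ⟨δ, hδM⟩ ∈ C := by
    apply mem_of_pow_four hι hιC T.hδC
    have h1 : (⟨δ, hδM⟩ : M) ^ 4 = ⟨d, hdM⟩ ^ 2 := by
      apply Subtype.ext
      push_cast
      rw [← T.hδ]; ring
    rw [← map_pow, h1, map_pow, gd, ← T.hδ]; ring
  have gC : ∀ z : M, (z : Λ) ∈ C → g₀ z ∈ C := by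
    have : C ≤ (C.comap g₀).map M.subtype := by
      conv_lhs => rw [hC]
      apply adj_le
      · intro z hz
        exact ⟨⟨z, hkM hz⟩, hkC (gk _ hz), rfl⟩
      · intro z hz
        rw [hSdef] at hz
        rcases hz with rfl | ⟨i, rfl⟩
        · exact ⟨⟨_, hδM⟩, gδ, rfl⟩
        · exact ⟨⟨_, hsM i⟩, gs i, rfl⟩
    intro z hz
    obtain ⟨z', hz', he⟩ := this hz
    have : z' = z := Subtype.ext he
    rw [← this]; exact hz'
  have gX : ∀ i, g₀ ⟨X i, hXM i⟩ = X i ∨ g₀ ⟨X i, hXM i⟩ = - X i := by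
    intro i
    apply sq_eq_sq_iff_eq_or_eq_neg.mp
    have h3 : X i ^ 2 = x i ^ 2 / a i := by
      rw [T.hx, ← T.hs]
      have := T.hs0 i
      field_simp
    have h4 : (⟨X i, hXM i⟩ : M) ^ 2 = ⟨x i, hxM i⟩ ^ 2 / ⟨a i, haM i⟩ := Subtype.ext h3
    rw [← map_pow, h4, map_div₀, map_pow, ga, gx]
    exact h3.symm
  have hcube : ∀ i, X i ^ 3 - X i ≠ 0 := by
    intro i
    have h3 : X i ∉ cl (C : Set Λ) := fun h => hX i (cl_mono Set.subset_union_left h)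
    exact cube_sub_ne_zero h3
  have gXY : ∀ i, ∃ e' : ℕ, g₀ ⟨X i, hXM i⟩ = (-1) ^ e' * X i ∧
      g₀ ⟨Y i, hYM i⟩ = ι ^ e' * Y i := by
    intro i
    have h3 : (⟨Y i, hYM i⟩ : M) ^ 2 = ⟨X i, hXM i⟩ ^ 3 - ⟨X i, hXM i⟩ := Subtype.ext (hY i)
    have h4 := congrArg g₀ h3
    rw [map_pow, map_sub, map_pow] at h4
    have h8 : ∀ y : Λ, 2 * (X i ^ 3 - X i) = y → y ≠ 0 := by
      rintro y rfl
      exact mul_ne_zero h2 (hcube i)
    have h5 : g₀ ⟨Y i, hYM i⟩ ^ 4 = Y i ^ 4 := by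
      have h5 : g₀ ⟨Y i, hYM i⟩ ^ 4 = (g₀ ⟨Y i, hYM i⟩ ^ 2) ^ 2 := by ring
      have h6 : Y i ^ 4 = (Y i ^ 2) ^ 2 := by ring
      rw [h5, h6, h4, hY]
      rcases gX i with h7 | h7
      · rw [h7]
      · rw [h7]; ring
    rcases eq_of_pow_four hι h5 with h6 | h6 | h6 | h6
    · refine ⟨0, ?_, by rw [h6]; ring⟩
      rcases gX i with h7 | h7
      · rw [h7]; ring
      · exfalso
        rw [h6, h7, hY] at h4
        exact h8 0 (by linear_combination h4) rfl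
    · refine ⟨2, ?_, by rw [h6]; linear_combination (-Y i) * hι⟩
      rcases gX i with h7 | h7
      · rw [h7]; ring
      · exfalso
        rw [h6, h7, neg_sq, hY] at h4
        exact h8 0 (by linear_combination h4) rfl
    · refine ⟨1, ?_, by rw [h6]; ring⟩
      rcases gX i with h7 | h7
      · exfalso
        rw [h6, h7, mul_pow, hY, hι] at h4
        exact h8 0 (by linear_combination -h4) rfl
      · rw [h7]; ring
    · refine ⟨3, ?_, by rw [h6]; linear_combination (-ι * Y i) * hι⟩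
      rcases gX i with h7 | h7
      · exfalso
        rw [h6, h7, neg_sq, mul_pow, hY, hι] at h4
        exact h8 0 (by linear_combination -h4) rfl
      · rw [h7]; ring
  choose ε hεX hεY using gXY
  have gM : ∀ z : M, g₀ z ∈ M := by
    intro z
    have hfin : M ≤ (M.comap g₀).map M.subtype := by
      conv_lhs => rw [hM]
      apply adj_le
      · intro z hz
        exact ⟨⟨z, hCM hz⟩, hCM (gC ⟨z, hCM hz⟩ hz), rfl⟩
      · rintro z (⟨i, rfl⟩ | ⟨i, rfl⟩)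
        · refine ⟨⟨X i, hXM i⟩, ?_, rfl⟩
          change g₀ _ ∈ M
          rw [hεX]
          exact mul_mem (pow_mem (neg_mem (one_mem _)) _) (hXM i)
        · refine ⟨⟨Y i, hYM i⟩, ?_, rfl⟩
          change g₀ _ ∈ M
          rw [hεY]
          exact mul_mem (pow_mem hιM _) (hYM i)
    obtain ⟨z', hz', he⟩ := hfin z.2
    have : z' = z := Subtype.ext he
    rw [← this]; exact hz'
  obtain ⟨g, hg⟩ : ∃ g : M →+* M, ∀ z, (g z : Λ) = g₀ z :=
    ⟨g₀.codRestrict M gM, fun _ => rfl⟩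
  have hgL : g.comp (Subfield.inclusion hL) = (Subfield.inclusion hL).comp σ := by
    ext z
    change (g (Subfield.inclusion hL z) : Λ) = σ z
    rw [hg]
    exact hg₀ z
  -- the sum of the exponents
  have hδ0 : δ ≠ 0 := by
    rintro h
    exact T.hd0 (by rw [← T.hδ, h]; simp)
  have hP0 : δ * ∏ j, s j ≠ 0 :=
    mul_ne_zero hδ0 (Finset.prod_ne_zero_iff.mpr fun j _ => T.hs0 j)
  have hPY : ∏ j, Y j ≠ 0 := by
    refine Finset.prod_ne_zero_iff.mpr fun j _ h => hcube j ?_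
    rw [← hY, h]; simp
  have hι4 : ι ^ 4 = 1 := by linear_combination (ι ^ 2 - 1) * hι
  have hsum : ι ^ (∑ i, ε i) = ι ^ b := by
    obtain ⟨P, hP⟩ : ∃ P : M, (P : Λ) = δ * ∏ j, s j :=
      ⟨⟨δ * ∏ j, s j, mul_mem hδM (prod_mem fun j _ => hsM j)⟩, rfl⟩
    have hP4 : (P : Λ) ^ 4 = c ^ 4 := by
      rw [hP, hc4, mul_pow, ← Finset.prod_pow, ← T.hδ]
      simp only [T.hs]
      ring
    have hgP : g₀ P = ι ^ b * P := by
      rcases eq_of_pow_four hι hP4 with h | h | h | h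
      · have h1 : P = ⟨c, hcM⟩ := Subtype.ext h
        rw [h, h1, gc]
      · have h1 : P = -⟨c, hcM⟩ := Subtype.ext h
        rw [h, h1, map_neg, gc]; ring
      · have h1 : P = ⟨ι, hιM⟩ * ⟨c, hcM⟩ := Subtype.ext h
        rw [h, h1, map_mul, gι, gc]; ring
      · have h1 : P = -(⟨ι, hιM⟩ * ⟨c, hcM⟩) := Subtype.ext h
        rw [h, h1, map_neg, map_mul, gι, gc]; ring
    have hw1 : d * w = (P : Λ) ^ 3 * ∏ j, Y j := by
      have h1 : ∏ j, s j ^ 3 = (∏ j, s j) ^ 3 := Finset.prod_pow _ _ _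
      rw [hP, T.hw, ← T.hδ, h1]; ring
    have hw2 : (⟨d, hdM⟩ : M) * ⟨w, hwM⟩ = P ^ 3 * ∏ j, ⟨Y j, hYM j⟩ := by
      apply Subtype.ext
      push_cast
      exact hw1
    have h3 := congrArg g₀ hw2
    rw [map_mul, map_mul, map_pow, map_prod, gd, gw, hgP, Finset.prod_congr rfl
      (fun j _ => hεY j), Finset.prod_mul_distrib, Finset.prod_pow_eq_pow_sum, hw1] at h3
    have hP0' : (P : Λ) ≠ 0 := by rw [hP]; exact hP0
    have h4 : ((P : Λ) ^ 3 * ∏ j, Y j) * (ι ^ (3 * b) * ι ^ (∑ i, ε i)) =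
        ((P : Λ) ^ 3 * ∏ j, Y j) * 1 := by
      rw [mul_comm 3 b, pow_mul]
      linear_combination -h3
    have h5 := mul_left_cancel₀ (mul_ne_zero (pow_ne_zero 3 hP0') hPY) h4
    have h6 : ι ^ (3 * b) * ι ^ b = 1 := by
      rw [← pow_add, show 3 * b + b = 4 * b by ring, pow_mul, hι4, one_pow]
    have hι0 : ι ≠ 0 := by
      rintro rfl
      rw [zero_pow (by norm_num)] at hι4
      exact zero_ne_one hι4
    exact mul_left_cancel₀ (pow_ne_zero _ hι0) (h5.trans h6.symm)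
  have hsum' : (⟨0, 1⟩ : GaussianInt) ^ (∑ i, 3 * ε i) = ⟨0, 1⟩ ^ (3 * b) := by
    apply gauss_pow_eq h2 hι
    rw [← Finset.mul_sum, mul_comm 3, mul_comm 3, pow_mul, pow_mul, hsum]
  -- the constant field
  obtain ⟨M₀, hM₀⟩ : ∃ M₀, M₀ = adj F₀ (Set.range X ∪ Set.range Y) := ⟨_, rfl⟩
  have hM₀M : M₀ ≤ M := by
    rw [hM₀, hM]
    exact adj_mono (hFk.trans hkC) le_rfl
  have hFM₀ : F₀ ≤ M₀ := by rw [hM₀]; exact le_adj _ _
  have hXM₀ : ∀ i, X i ∈ M₀ := fun i => by rw [hM₀]; exact subset_adj _ _ (Or.inl ⟨i, rfl⟩)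
  have hYM₀ : ∀ i, Y i ∈ M₀ := fun i => by rw [hM₀]; exact subset_adj _ _ (Or.inr ⟨i, rfl⟩)
  have hinj : Function.Injective (up m hM₀M) :=
    const_injective hm hk ht hSfin hS4 hC hX hY hM hM₀ hM₀M
  obtain ⟨_, γ, hγ, hγξ⟩ := T.from_const hm h2 hι hιF hk ht hSfin hS4 hC hX hY hM hc hc4 hL hM₀
    ξ hξ
  have hodd : MultiOdd F₀ X Y γ := by
    apply const_multiOdd (p := p) h2 hι (hFk.trans hkC) hιC hX hY hM hM₀ hM₀M hinj
    rw [hγξ]
    exact T.multiOdd hkC hM hL t1 t2 t3 t4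
  have gM₀ : ∀ z : M₀, (g (Subfield.inclusion hM₀M z) : Λ) ∈ M₀ := by
    intro z
    have hfin : M₀ ≤ (M₀.comap (g₀.comp (Subfield.inclusion hM₀M))).map M₀.subtype := by
      conv_lhs => rw [hM₀]
      apply adj_le
      · intro z hz
        refine ⟨⟨z, hFM₀ hz⟩, ?_, rfl⟩
        change g₀ _ ∈ M₀
        rw [gF _ hz]
        exact pow_mem (hFM₀ hz) _
      · rintro z (⟨i, rfl⟩ | ⟨i, rfl⟩)
        · refine ⟨⟨X i, hXM₀ i⟩, ?_, rfl⟩
          change g₀ ⟨X i, hXM i⟩ ∈ M₀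
          rw [hεX]
          exact mul_mem (pow_mem (neg_mem (one_mem _)) _) (hXM₀ i)
        · refine ⟨⟨Y i, hYM₀ i⟩, ?_, rfl⟩
          change g₀ ⟨Y i, hYM i⟩ ∈ M₀
          rw [hεY]
          exact mul_mem (pow_mem (hFM₀ hιF) _) (hYM₀ i)
    obtain ⟨z', hz', he⟩ := hfin z.2
    have : z' = z := Subtype.ext he
    rw [← this, hg]; exact hz'
  obtain ⟨σ₀, hσ₀⟩ : ∃ σ₀ : M₀ →+* M₀, ∀ z, (σ₀ z : Λ) = g (Subfield.inclusion hM₀M z) :=
    ⟨(M.subtype.comp (g.comp (Subfield.inclusion hM₀M))).codRestrict M₀ gM₀, fun _ => rfl⟩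
  have hgM₀ : g.comp (Subfield.inclusion hM₀M) = (Subfield.inclusion hM₀M).comp σ₀ := by
    ext z
    exact (hσ₀ z).symm
  have hM₀p : CharP M₀ p := M₀.subtype.charP M₀.subtype.injective p
  have hMp : CharP M p := M.subtype.charP M.subtype.injective p
  have hfr₀ : ∀ z : M₀, iterateFrobenius M₀ p e z = z ^ p ^ e := fun z =>
    iterateFrobenius_def ..
  have hfr : ∀ z : M, iterateFrobenius M p e z = z ^ p ^ e := fun z => iterateFrobenius_def ..
  have hfrcomp : (iterateFrobenius M p e).comp (Subfield.inclusion hM₀M) =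
      (Subfield.inclusion hM₀M).comp (iterateFrobenius M₀ p e) := by
    ext1 z
    rw [RingHom.comp_apply, RingHom.comp_apply, hfr, hfr₀, map_pow]
  have hQ : KM.map m (iterateFrobenius M₀ p e) γ = ((p ^ e : ℕ) : ℤ) ^ j • γ := by
    apply hinj
    unfold up at *
    rw [KM.map_map, ← hfrcomp, ← KM.map_map, map_zsmul, hγξ]
    exact KM.deg_frob hfr (KM.deg_map _ hd)
  have hX₀ : IndFam F₀ X := fun i h => hX i (cl_mono (Set.union_subset_union_left _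
    (fun z hz => hkC (hFk hz))) h)
  have key := theoremC hm h2 hX₀ hY hM₀ hp4 hι hιF j₀ e ε σ₀ (by
      intro z hz
      apply Subtype.ext
      rw [hσ₀, hg, gF _ hz]
      rfl)
    (by
      intro i z hz
      have h1 : Subfield.inclusion hM₀M z = ⟨X i, hXM i⟩ := Subtype.ext hz
      rw [hσ₀, hg, h1, hεX, hz])
    (by
      intro i z hz
      have h1 : Subfield.inclusion hM₀M z = ⟨Y i, hYM i⟩ := Subtype.ext hz
      rw [hσ₀, hg, h1, hεY, hz])
    hγ hodd (iterateFrobenius M₀ p e) hfr₀ hQ hϖ hϖ1 hϖι (z := z) (by rw [hsum', hz])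
  have e0 : ∀ η : KM m M₀, KM.map m g (up m hM₀M η) = up m hM₀M (KM.map m σ₀ η) := by
    intro η
    unfold up
    rw [KM.map_map, KM.map_map, hgM₀]
  have e1 : ∀ η : KM m (twF k x w), KM.map m g (up m hL η) = up m hL (KM.map m σ η) := by
    intro η
    unfold up
    rw [KM.map_map, KM.map_map, hgL]
  apply hLinj
  have h3 := congrArg (up m hM₀M) key
  rw [map_add, map_sub, map_zsmul, map_zsmul, map_zsmul, ← e0, ← e0, ← e0, hγξ, e1, e1] at h3
  rw [map_add, map_sub, map_zsmul, map_zsmul, map_zsmul, map_zero]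
  rw [map_zero] at h3
  exact h3

end

end UnrH3
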