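import Pool.Agent.Lib.MP_859dd5_ag.Mg.G064

/-!
# Interchanging two points on a twisted Kummer variety
-/

namespace UnrH3

universe u v w

open Polynomial WeierstrassCurve
open scoped Classical

variable {m : ℕ} {Λ : Type u} [Field Λ]

/-- The curve `y² = x³ + a x² + b x + c`. -/
def Wc {S : Type v} [Field S] (a b c : S) : WeierstrassCurve S := ⟨0, a, 0, b, c⟩

section Wc

variable {S : Type v} [Field S] {a b c : S} {Ω : Type u} [Field Ω] [Algebra S Ω]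

lemma Wc_a₁ : ((Wc a b c)⁄Ω).a₁ = 0 := map_zero _
lemma Wc_a₂ : ((Wc a b c)⁄Ω).a₂ = algebraMap S Ω a := rfl
lemma Wc_a₃ : ((Wc a b c)⁄Ω).a₃ = 0 := map_zero _
lemma Wc_a₄ : ((Wc a b c)⁄Ω).a₄ = algebraMap S Ω b := rfl
lemma Wc_a₆ : ((Wc a b c)⁄Ω).a₆ = algebraMap S Ω c := rfl

lemma Wc_good (h2 : (2 : S) ≠ 0) : GoodW (Wc a b c) := ⟨Or.inl h2⟩

lemma Wc_nonsingular (h2 : (2 : Ω) ≠ 0) {X Y : Ω}
    (h : Y ^ 2 = X ^ 3 + algebraMap S Ω a * X ^ 2 + algebraMap S Ω b * X + algebraMap S Ω c)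
    (hY : Y ≠ 0) : ((Wc a b c)⁄Ω).toAffine.Nonsingular X Y := by
  rw [Affine.nonsingular_iff, Affine.equation_iff]
  refine ⟨?_, Or.inr ?_⟩
  · rw [Wc_a₁, Wc_a₂, Wc_a₃, Wc_a₄, Wc_a₆]
    linear_combination h
  · change ¬ (Y = -Y - ((Wc a b c)⁄Ω).a₁ * X - ((Wc a b c)⁄Ω).a₃)
    rw [Wc_a₁, Wc_a₃]
    intro h3
    have h4 : 2 * Y = 0 := by linear_combination h3
    rcases mul_eq_zero.mp h4 with h5 | h5
    · exact h2 h5
    · exact hY h5

lemma ptX_neg' {W : WeierstrassCurve S} (P : Pt W Ω) : ptX (-P) = ptX P := by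
  rcases P with _ | ⟨x, y, h⟩
  · rfl
  · rfl

lemma Wc_ptY_neg (P : Pt (Wc a b c) Ω) : ptY (-P) = -ptY P := by
  rcases P with _ | ⟨x, y, h⟩
  · exact neg_zero.symm
  · rw [Affine.Point.neg_some]
    simp only [Affine.negY, ptY_some]
    rw [Wc_a₁, Wc_a₃]; ring

end Wc

/-- A cubic polynomial does not vanish at a transcendental element. -/
lemma cubic_ne_zero {T : Set Λ} {a b c x : Λ} (ha : a ∈ cl T) (hb : b ∈ cl T) (hc : c ∈ cl T)
    (hx : x ∉ cl T) : x ^ 3 + a * x ^ 2 + b * x + c ≠ 0 := by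
  intro h
  apply hx
  apply mem_cl_of_isAlg (F := cl T) le_rfl
  refine ⟨X ^ 3 + C (⟨a, ha⟩ : cl T) * X ^ 2 + C (⟨b, hb⟩ : cl T) * X + C (⟨c, hc⟩ : cl T), ?_, ?_⟩
  · intro h0
    have h1 := congrArg (fun p : (cl T)[X] => p.coeff 3) h0
    simp [coeff_X, coeff_C] at h1
  · simp only [map_add, map_pow, aeval_X, map_mul, aeval_C]
    exact h

/-- Restriction of an endomorphism to a subfield. -/
lemma restrict_hom {M N B : Subfield Λ} {T : Set Λ} (hMN : M ≤ N) (hM : M = adj B T)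
    (G : N →+* N) (hB : ∀ z : N, (z : Λ) ∈ B → (G z : Λ) ∈ M)
    (hT : ∀ z : N, (z : Λ) ∈ T → (G z : Λ) ∈ M) :
    ∃ g : M →+* M, ∀ z : M, (g z : Λ) = G (Subfield.inclusion hMN z) := by
  have hBN : B ≤ N := by
    refine le_trans ?_ hMN
    rw [hM]; exact le_adj _ _
  have hTN : T ⊆ N := by
    refine Set.Subset.trans ?_ hMN
    rw [hM]; exact subset_adj _ _
  have h1 : M ≤ (M.comap (N.subtype.comp G)).map N.subtype := by
    conv_lhs => rw [hM]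
    apply adj_le
    · intro z hz
      exact ⟨⟨z, hBN hz⟩, hB _ hz, rfl⟩
    · intro z hz
      exact ⟨⟨z, hTN hz⟩, hT _ hz, rfl⟩
  have h2 : ∀ z : M, (G (Subfield.inclusion hMN z) : Λ) ∈ M := by
    intro z
    obtain ⟨z', hz', he⟩ := h1 z.2
    have h3 : z' = Subfield.inclusion hMN z := Subtype.ext he
    rw [← h3]
    exact hz'
  exact ⟨(N.subtype.comp (G.comp (Subfield.inclusion hMN))).codRestrict M h2, fun z => rfl⟩

lemma up_map_of_restrict {M N : Subfield Λ} (hMN : M ≤ N) {G : N →+* N} {g : M →+* M}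
    (h : ∀ z : M, (g z : Λ) = G (Subfield.inclusion hMN z)) (ξ : KM m M) :
    up m hMN (KM.map m g ξ) = KM.map m G (up m hMN ξ) := by
  rw [KM.map_map, KM.map_map]
  congr 2
  ext z
  exact h z

section pair

variable {B M : Subfield Λ} {x₁ x₂ w D a b c : Λ}

/-- Interchanging two points and changing the sign of `w` acts trivially on unramified
classes. -/
theorem swap_pair [IsAlgClosed Λ] (hm : Odd m) (h2 : (2 : Λ) ≠ 0) (ha : a ∈ B) (hb : b ∈ B)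
    (hc : c ∈ B) (hD : D ∈ B) (hD0 : D ≠ 0) (hx₁ : x₁ ∉ cl (B : Set Λ))
    (hx₂ : x₂ ∉ cl (insert x₁ (B : Set Λ)))
    (hw : w ^ 2 = D * (x₁ ^ 3 + a * x₁ ^ 2 + b * x₁ + c) * (x₂ ^ 3 + a * x₂ ^ 2 + b * x₂ + c))
    (hM : M = adj B {x₁, x₂, w}) :
    ∃ g : M →+* M, (∀ z : M, (z : Λ) ∈ B → g z = z) ∧
      (∀ z : M, (z : Λ) = x₁ → (g z : Λ) = x₂) ∧ (∀ z : M, (z : Λ) = x₂ → (g z : Λ) = x₁) ∧
      (∀ z : M, (z : Λ) = w → g z = -z) ∧ ∀ ξ : KM m M, Unr ξ → KM.map m g ξ = ξ := by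
  have hBcl : (B : Set Λ) ⊆ cl (B : Set Λ) := subset_cl _
  have hx₂' : x₂ ∉ cl (B : Set Λ) := fun h => hx₂ (cl_mono (Set.subset_insert _ _) h)
  have hx₁₂ : x₁ ∉ cl (insert x₂ (B : Set Λ)) := fun h => hx₂ (cl_exchange h hx₁)
  have hF₁ := cubic_ne_zero (hBcl ha) (hBcl hb) (hBcl hc) hx₁
  have hF₂ := cubic_ne_zero (hBcl ha) (hBcl hb) (hBcl hc) hx₂'
  obtain ⟨e, he⟩ : ∃ e : Λ, e ^ 2 = D := IsAlgClosed.exists_pow_nat_eq _ (by norm_num)
  obtain ⟨y₁, hy₁⟩ : ∃ y : Λ, y ^ 2 = x₁ ^ 3 + a * x₁ ^ 2 + b * x₁ + c :=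
    IsAlgClosed.exists_pow_nat_eq _ (by norm_num)
  have he0 : e ≠ 0 := by
    rintro rfl
    exact hD0 (by rw [← he]; simp)
  have hy₁0 : y₁ ≠ 0 := by
    rintro rfl
    exact hF₁ (by rw [← hy₁]; simp)
  obtain ⟨y₂, hy₂'⟩ : ∃ y₂, y₂ = w / (e * y₁) := ⟨_, rfl⟩
  have hwe : w = e * y₁ * y₂ := by
    rw [hy₂']; field_simp
  have hy₂ : y₂ ^ 2 = x₂ ^ 3 + a * x₂ ^ 2 + b * x₂ + c := by
    rw [hy₂', div_pow, mul_pow, he, hy₁, hw, mul_div_assoc, mul_comm, div_mul_cancel₀]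
    exact mul_ne_zero hD0 hF₁
  have hy₂0 : y₂ ≠ 0 := by
    intro h
    exact hF₂ (by rw [← hy₂, h]; simp)
  have hw0 : w ≠ 0 := by
    rw [hwe]; exact mul_ne_zero (mul_ne_zero he0 hy₁0) hy₂0
  -- the base field
  obtain ⟨K, hK⟩ : ∃ K, K = adj B {e} := ⟨_, rfl⟩
  have hBK : B ≤ K := by rw [hK]; exact le_adj _ _
  have heK : e ∈ K := by rw [hK]; exact subset_adj _ _ rfl
  have hKcl : (K : Set Λ) ⊆ cl (B : Set Λ) := by
    have : K ≤ cl (B : Set Λ) := by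
      rw [hK]
      apply adj_le hBcl
      rintro z rfl
      exact mem_cl_of_pow (n := 2) (by norm_num) (by rw [he]; exact hBcl hD)
    exact this
  have hx₁K : x₁ ∉ cl (K : Set Λ) := fun h => hx₁ (cl_le hKcl h)
  have hx₂K : x₂ ∉ cl (insert x₁ (K : Set Λ)) := fun h => hx₂ (cl_le (by
    rintro z (rfl | hz)
    · exact subset_cl _ (Set.mem_insert _ _)
    · exact cl_mono (Set.subset_insert _ _) (hKcl hz)) h)
  have h2K : (2 : K) ≠ 0 := fun h => h2 (by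
    have := congrArg K.subtype h
    rwa [map_ofNat, map_zero] at this)
  set W : WeierstrassCurve K := Wc (⟨a, hBK ha⟩ : K) ⟨b, hBK hb⟩ ⟨c, hBK hc⟩ with hW
  have hG : GoodW W := Wc_good h2K
  have hns₁ : (W⁄Λ).toAffine.Nonsingular x₁ y₁ := Wc_nonsingular h2 hy₁ hy₁0
  have hns₂ : (W⁄Λ).toAffine.Nonsingular x₂ y₂ := Wc_nonsingular h2 hy₂ hy₂0
  obtain ⟨P, Q, hP1, hP2, hQ1, hQ2, hPQ⟩ : ∃ P Q : Pt W Λ, ptX P = x₁ ∧ ptY P = y₁ ∧
      ptX Q = x₂ ∧ ptY Q = y₂ ∧ Ind (Algebra.ofId K Λ) P Q := by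
    refine ⟨.some x₁ y₁ hns₁, .some x₂ y₂ hns₂, rfl, rfl, rfl, rfl, ?_, ?_⟩
    · change ¬ (x₁ ∈ cl (Set.range (Algebra.ofId K Λ)))
      rw [range_ofId]; exact hx₁K
    · change ¬ (x₂ ∈ cl (insert x₁ (Set.range (Algebra.ofId K Λ))))
      rw [range_ofId]; exact hx₂K
  obtain ⟨N, hN⟩ : ∃ N, N = adj K {ptX P, ptY P, ptX Q, ptY Q} := ⟨_, rfl⟩
  have hKN : K ≤ N := by rw [hN]; exact le_adj _ _
  have hTN : ({ptX P, ptY P, ptX Q, ptY Q} : Set Λ) ⊆ N := by rw [hN]; exact subset_adj _ _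
  have hx₁N : x₁ ∈ N := hTN (by simp [hP1])
  have hy₁N : y₁ ∈ N := hTN (by simp [hP2])
  have hx₂N : x₂ ∈ N := hTN (by simp [hQ1])
  have hy₂N : y₂ ∈ N := hTN (by simp [hQ2])
  have hwN : w ∈ N := by rw [hwe]; exact mul_mem (mul_mem (hKN heK) hy₁N) hy₂N
  have hBM : B ≤ M := by rw [hM]; exact le_adj _ _
  have hTM : ({x₁, x₂, w} : Set Λ) ⊆ M := by rw [hM]; exact subset_adj _ _
  have hx₁M : x₁ ∈ M := hTM (by simp)
  have hx₂M : x₂ ∈ M := hTM (by simp)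
  have hwM : w ∈ M := hTM (by simp)
  have hMN : M ≤ N := by
    rw [hM]
    apply adj_le (hBK.trans hKN)
    rintro z (rfl | rfl | hz)
    · exact hx₁N
    · exact hx₂N
    · rw [Set.mem_singleton_iff.mp hz]; exact hwN
  obtain ⟨fN, e', hef, hfe, hf⟩ := exists_pair_iso hPQ hN
  have hfPx : (fN (ptX (P2 W K)) : Λ) = x₁ := by rw [hf, ← ptX_map, lift2_P2, hP1]
  have hfPy : (fN (ptY (P2 W K)) : Λ) = y₁ := by rw [hf, ← ptY_map, lift2_P2, hP2]
  have hfQx : (fN (ptX (Q2 W K)) : Λ) = x₂ := by rw [hf, ← ptX_map, lift2_Q2, hQ1]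
  have hfQy : (fN (ptY (Q2 W K)) : Λ) = y₂ := by rw [hf, ← ptY_map, lift2_Q2, hQ2]
  have hind := ind_P2_Q2 W K
  -- the three substitutions
  obtain ⟨G, G1, G2, G3, G4, G5⟩ := pair_exists hPQ fN e' hef hfe hf hind.symm.neg_right
  have Gs := pair_spec hPQ fN e' hef hfe hf hN hind.symm.neg_right G G1 G2 G3 G4 G5
  obtain ⟨H, H1, H2, H3, H4, H5⟩ := pair_exists hPQ fN e' hef hfe hf hind.neg_left
  have Hs := pair_spec hPQ fN e' hef hfe hf hN hind.neg_left H H1 H2 H3 H4 H5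
  obtain ⟨H', H'1, H'2, H'3, H'4, H'5⟩ := pair_exists hPQ fN e' hef hfe hf hind.neg_right
  have H's := pair_spec hPQ fN e' hef hfe hf hN hind.neg_right H' H'1 H'2 H'3 H'4 H'5
  have eN : ∀ (φ : N →+* N), (∀ z : N, (z : Λ) ∈ K → φ z = z) →
      ∀ z : N, (z : Λ) = w → (φ z : Λ) =
        e * (φ ⟨y₁, hy₁N⟩ : Λ) * (φ ⟨y₂, hy₂N⟩ : Λ) := by
    intro φ hφ z hz
    have h3 : z = ⟨e, hKN heK⟩ * ⟨y₁, hy₁N⟩ * ⟨y₂, hy₂N⟩ := Subtype.ext (by rw [hz, hwe]; rfl)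
    rw [h3, map_mul, map_mul, hφ ⟨e, hKN heK⟩ heK]
    rfl
  -- the effect of the substitutions
  have GX₁ : ∀ z : N, (z : Λ) = x₁ → (G z : Λ) = x₂ := fun z hz => by
    rw [G2 z (hz.trans hP1.symm), hfQx]
  have GY₁ : (G ⟨y₁, hy₁N⟩ : Λ) = y₂ := by
    rw [G3 ⟨y₁, hy₁N⟩ hP2.symm, hfQy]
  have GX₂ : ∀ z : N, (z : Λ) = x₂ → (G z : Λ) = x₁ := fun z hz => by
    rw [G4 z (hz.trans hQ1.symm), ptX_neg', hfPx]
  have GY₂ : (G ⟨y₂, hy₂N⟩ : Λ) = -y₁ := by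
    rw [G5 ⟨y₂, hy₂N⟩ hQ2.symm, Wc_ptY_neg, map_neg]
    change -(fN (ptY (P2 W K)) : Λ) = _
    rw [hfPy]
  have GW : ∀ z : N, (z : Λ) = w → (G z : Λ) = -w := fun z hz => by
    rw [eN G G1 z hz, GY₁, GY₂, hwe]; ring
  have HX₁ : ∀ z : N, (z : Λ) = x₁ → (H z : Λ) = x₁ := fun z hz => by
    rw [H2 z (hz.trans hP1.symm), ptX_neg', hfPx]
  have HY₁ : (H ⟨y₁, hy₁N⟩ : Λ) = -y₁ := by
    rw [H3 ⟨y₁, hy₁N⟩ hP2.symm, Wc_ptY_neg, map_neg]
    change -(fN (ptY (P2 W K)) : Λ) = _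
    rw [hfPy]
  have HX₂ : ∀ z : N, (z : Λ) = x₂ → (H z : Λ) = x₂ := fun z hz => by
    rw [H4 z (hz.trans hQ1.symm), hfQx]
  have HY₂ : (H ⟨y₂, hy₂N⟩ : Λ) = y₂ := by
    rw [H5 ⟨y₂, hy₂N⟩ hQ2.symm, hfQy]
  have HW : ∀ z : N, (z : Λ) = w → (H z : Λ) = -w := fun z hz => by
    rw [eN H H1 z hz, HY₁, HY₂, hwe]; ring
  have H'X₁ : ∀ z : N, (z : Λ) = x₁ → (H' z : Λ) = x₁ := fun z hz => by
    rw [H'2 z (hz.trans hP1.symm), hfPx]
  have H'Y₁ : (H' ⟨y₁, hy₁N⟩ : Λ) = y₁ := by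
    rw [H'3 ⟨y₁, hy₁N⟩ hP2.symm, hfPy]
  have H'X₂ : ∀ z : N, (z : Λ) = x₂ → (H' z : Λ) = x₂ := fun z hz => by
    rw [H'4 z (hz.trans hQ1.symm), ptX_neg', hfQx]
  have H'Y₂ : (H' ⟨y₂, hy₂N⟩ : Λ) = -y₂ := by
    rw [H'5 ⟨y₂, hy₂N⟩ hQ2.symm, Wc_ptY_neg, map_neg]
    change -(fN (ptY (Q2 W K)) : Λ) = _
    rw [hfQy]
  have H'W : ∀ z : N, (z : Λ) = w → (H' z : Λ) = -w := fun z hz => by
    rw [eN H' H'1 z hz, H'Y₁, H'Y₂, hwe]; ring
  -- restrictions to `M`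
  have restr : ∀ (φ : N →+* N) (u₁ u₂ : Λ), u₁ ∈ M → u₂ ∈ M → (∀ z : N, (z : Λ) ∈ K → φ z = z) →
      (∀ z : N, (z : Λ) = x₁ → (φ z : Λ) = u₁) → (∀ z : N, (z : Λ) = x₂ → (φ z : Λ) = u₂) →
      (∀ z : N, (z : Λ) = w → (φ z : Λ) = -w) →
      ∃ g : M →+* M, (∀ z : M, (g z : Λ) = φ (Subfield.inclusion hMN z)) ∧
        (∀ z : M, (z : Λ) ∈ B → g z = z) ∧ (∀ z : M, (z : Λ) = x₁ → (g z : Λ) = u₁) ∧
        (∀ z : M, (z : Λ) = x₂ → (g z : Λ) = u₂) ∧ (∀ z : M, (z : Λ) = w → g z = -z) := by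
    intro φ u₁ u₂ hu₁ hu₂ h3 h4 h5 h6
    obtain ⟨g, hg⟩ := restrict_hom hMN hM φ
      (fun z hz => by rw [h3 z (hBK hz)]; exact hBM hz)
      (by
        rintro z (hz | hz | hz)
        · rw [h4 z hz]; exact hu₁
        · rw [h5 z hz]; exact hu₂
        · rw [h6 z hz]; exact neg_mem hwM)
    refine ⟨g, hg, ?_, ?_, ?_, ?_⟩
    · intro z hz
      apply Subtype.ext
      rw [hg, h3 _ (hBK hz)]; rfl
    · intro z hz
      rw [hg]; exact h4 _ hz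
    · intro z hz
      rw [hg]; exact h5 _ hz
    · intro z hz
      apply Subtype.ext
      rw [hg, h6 _ hz, ← hz]; rfl
  obtain ⟨g, gr, g1, g2, g3, g4⟩ := restr G x₂ x₁ hx₂M hx₁M G1 GX₁ GX₂ GW
  obtain ⟨h, hr, h1, h2', h3, h4⟩ := restr H x₁ x₂ hx₁M hx₂M H1 HX₁ HX₂ HW
  obtain ⟨h', h'r, h'1, h'2, h'3, h'4⟩ := restr H' x₁ x₂ hx₁M hx₂M H'1 H'X₁ H'X₂ H'W
  have hgenM : ∀ z : M, (z : Λ) ∈ adj B {x₁, x₂, w} := fun z => by rw [← hM]; exact z.2
  have hhh' : h = h' := by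
    ext1 z
    refine hom_eq_of_gen h h' hBM hTM (fun z hz => ?_) ?_ z (hgenM z)
    · rw [h1 _ hz, h'1 _ hz]
    · intro z hz
      rcases id hz with hz' | hz' | hz'
      · exact Subtype.ext (by rw [h2' _ hz', h'2 _ hz'])
      · exact Subtype.ext (by rw [h3 _ hz', h'3 _ hz'])
      · rw [Set.mem_singleton_iff] at hz'
        rw [h4 _ hz', h'4 _ hz']
  refine ⟨g, g1, g2, g3, g4, ?_⟩
  intro ξ hξ
  -- the quadratic subextension
  obtain ⟨R, hR⟩ : ∃ R, R = adj B {x₁, x₂} := ⟨_, rfl⟩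
  have hBR : B ≤ R := by rw [hR]; exact le_adj _ _
  have hTR : ({x₁, x₂} : Set Λ) ⊆ R := by rw [hR]; exact subset_adj _ _
  have hx₁R : x₁ ∈ R := hTR (by simp)
  have hx₂R : x₂ ∈ R := hTR (by simp)
  have hRM : R ≤ M := by
    rw [hR]
    apply adj_le hBM
    rintro z (rfl | hz)
    · exact hx₁M
    · rw [Set.mem_singleton_iff.mp hz]; exact hx₂M
  have hMR : M = adj R {w} := by
    rw [hR, adj_adj, hM]
    congr 1
    ext z
    simp only [Set.mem_insert_iff, Set.mem_union, Set.mem_singleton_iff]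
    tauto
  have hFR : ∀ x ∈ R, x ^ 3 + a * x ^ 2 + b * x + c ∈ R := fun x hx =>
    add_mem (add_mem (add_mem (pow_mem hx 3) (mul_mem (hBR ha) (pow_mem hx 2)))
      (mul_mem (hBR hb) hx)) (hBR hc)
  have hwR2 : w ^ 2 ∈ R := by
    rw [hw]
    exact mul_mem (mul_mem (hBR hD) (hFR _ hx₁R)) (hFR _ hx₂R)
  have hfixR : ∀ z (hz : z ∈ R), h ⟨z, hRM hz⟩ = ⟨z, hRM hz⟩ := by
    intro z hz
    refine hom_eq_of_gen h (RingHom.id M) (F := B) (T := {x₁, x₂}) hBM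
      (hTR.trans hRM) (fun z hz => h1 _ hz) ?_ ⟨z, hRM hz⟩ (by rw [← hR]; exact hz)
    intro z hz
    rcases id hz with hz' | hz'
    · exact Subtype.ext ((h2' _ hz').trans hz'.symm)
    · rw [Set.mem_singleton_iff] at hz'
      exact Subtype.ext ((h3 _ hz').trans hz'.symm)
  have hneg : -(⟨w, hwM⟩ : M) ≠ ⟨w, hwM⟩ := by
    intro h0
    have h5 : -w = w := congrArg Subtype.val h0
    have h6 : 2 * w = 0 := by linear_combination -h5
    rcases mul_eq_zero.mp h6 with h7 | h7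
    · exact h2 h7
    · exact hw0 h7
  have hwR : w ∉ R := by
    intro h0
    have h5 := hfixR w h0
    rw [h4 _ rfl] at h5
    exact hneg h5
  have hq := isQuad_of_eq hRM hMR hwR2 hwR hwM
  obtain ⟨η, ζ, hη, hζ, hζo, hξe, -⟩ := exists_inv_part hm hq h (by
      ext z
      exact congrArg Subtype.val (hfixR z z.2)) (by rw [h4 _ rfl]; exact hneg) (by
      ext1 z
      refine hom_eq_of_gen (h.comp h) (RingHom.id M) hBM hTM (fun z hz => ?_) ?_ z (hgenM z)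
      · change h (h _) = _
        have h5 : h ⟨z, hBM hz⟩ = ⟨z, hBM hz⟩ := h1 _ hz
        rw [h5, h5]; rfl
      · intro z hz
        change h (h _) = _
        rcases id hz with hz' | hz' | hz'
        · have h5 : h ⟨z, hTM hz⟩ = ⟨z, hTM hz⟩ := Subtype.ext ((h2' _ hz').trans hz'.symm)
          rw [h5, h5]; rfl
        · have h5 : h ⟨z, hTM hz⟩ = ⟨z, hTM hz⟩ := Subtype.ext ((h3 _ hz').trans hz'.symm)
          rw [h5, h5]; rfl
        · rw [Set.mem_singleton_iff] at hz'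
          have h5 : h ⟨z, hTM hz⟩ = -⟨z, hTM hz⟩ := h4 _ hz'
          rw [h5, map_neg, h5, neg_neg]; rfl) hξ
  -- the even part is constant
  have hindR : IndSet B {x₁, x₂} := by
    rintro t (rfl | ht)
    · intro h0
      apply hx₁₂
      refine cl_mono ?_ h0
      rintro z (hz | ⟨hz | hz, hz'⟩)
      · exact Set.mem_insert_of_mem _ hz
      · exact absurd hz hz'
      · rw [Set.mem_singleton_iff.mp hz]; exact Set.mem_insert _ _
    · rw [Set.mem_singleton_iff] at ht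
      subst ht
      intro h0
      apply hx₂
      refine cl_mono ?_ h0
      rintro z (hz | ⟨hz | hz, hz'⟩)
      · exact Set.mem_insert_of_mem _ hz
      · rw [hz]; exact Set.mem_insert _ _
      · exact absurd hz hz'
  have hηc : KM.map m g (KM.map m (Subfield.inclusion hRM) η) =
      KM.map m (Subfield.inclusion hRM) η := by
    subst hR
    obtain ⟨_, c₀, -, hc₀⟩ := from_rat hm (Set.toFinite {x₁, x₂}) hindR hη
    rw [← hc₀, KM.map_map, KM.map_map, KM.map_map]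
    congr 2
    ext z
    exact congrArg Subtype.val (g1 _ z.2)
  -- the odd part
  have hζH : KM.map m H (up m hMN ζ) = -up m hMN ζ := by
    rw [← up_map_of_restrict hMN hr, hζo, map_neg]
  have hζH' : KM.map m H' (up m hMN ζ) = -up m hMN ζ := by
    rw [← up_map_of_restrict hMN h'r, ← hhh', hζo, map_neg]
  obtain ⟨α, hα⟩ : ∃ α, α = KM.map m e' (up m hMN ζ) := ⟨_, rfl⟩
  have hαu : Unr α := by rw [hα]; exact (hζ.map _).map _
  have hα1 : Odd1 α := by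
    unfold Odd1
    rw [ev2_of_ind hind.neg_left, hα, KM.map_map, ← Hs, ← KM.map_map, hζH, map_neg]
  have hα2 : OddCl α := by
    unfold OddCl
    rw [← ev2_neg_Q2, ev2_of_ind hind.neg_right, hα, KM.map_map, ← H's, ← KM.map_map, hζH',
      map_neg]
  have he_inj : Function.Injective (KM.map m e') := by
    intro a b hab
    have := congrArg (KM.map m fN) hab
    rwa [KM.map_map, KM.map_map, hfe, KM.map_id] at this
  have hGζ : KM.map m G (up m hMN ζ) = up m hMN ζ := by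
    apply he_inj
    rw [KM.map_map, Gs, ← KM.map_map, ← hα]
    have h5 : ev2 (i2 W K) (Q2 W K) (-P2 W K) α = α := by
      rw [hα2.ev2_neg_right hind.symm, alt hm hαu hα1 hα2 hind, neg_neg, ev2_self]
    rw [ev2_of_ind hind.symm.neg_right] at h5
    exact h5
  have hinj : Function.Injective (up m hMN) := by
    refine up_injective_of_list hm [e, y₁] M N hMN ?_ ?_
    · intro n hn
      rcases n with _ | _ | n
      · change e ^ 2 ∈ _
        rw [he]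
        exact le_adj _ _ (hBM hD)
      · change y₁ ^ 2 ∈ _
        rw [hy₁]
        exact le_adj _ _ (hRM (hFR _ hx₁R))
      · simp at hn
    · obtain ⟨N', hN'⟩ : ∃ N', N' = adj M {z | z ∈ [e, y₁]} := ⟨_, rfl⟩
      have hMN' : M ≤ N' := by rw [hN']; exact le_adj _ _
      have heN' : e ∈ N' := by rw [hN']; exact subset_adj _ _ (by simp)
      have hyN' : y₁ ∈ N' := by rw [hN']; exact subset_adj _ _ (by simp)
      rw [← hN', hN, hP1, hP2, hQ1, hQ2, hK]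
      apply adj_le
      · apply adj_le (hBM.trans hMN')
        rintro z rfl
        exact heN'
      · rintro z (rfl | rfl | rfl | hz)
        · exact hMN' hx₁M
        · exact hyN'
        · exact hMN' hx₂M
        · rw [Set.mem_singleton_iff.mp hz, hy₂']
          exact div_mem (hMN' hwM) (mul_mem heN' hyN')
  have hgζ : KM.map m g ζ = ζ := by
    apply hinj
    rw [up_map_of_restrict hMN gr, hGζ]
  rw [hξe, map_add, hηc, hgζ]

end pair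

end UnrH3
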