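import Pool.Agent.Lib.MP_859dd5_ag.Mg.G063

/-!
# The homogeneous components of unramified classes
-/

namespace UnrH3

universe u v w

open Polynomial
open scoped Classical

variable {m : ℕ} {K : Type u} {L : Type v} [Field K] [Field L]

/-- The component of degree `j`. -/
noncomputable def KM.proj (j : ℕ) (x : KM m K) : KM m K := (KM.gr m K x).coeff j

lemma KM.proj_add (j : ℕ) (x y : KM m K) : KM.proj j (x + y) = KM.proj j x + KM.proj j y := by
  unfold KM.proj
  rw [map_add, coeff_add]

lemma KM.proj_algebraMap (j : ℕ) (r : ZMod m) : KM.proj j (algebraMap (ZMod m) (KM m K) r) =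
    if j = 0 then algebraMap (ZMod m) (KM m K) r else 0 := by
  unfold KM.proj
  rw [KM.gr_algebraMap, coeff_C]

lemma KM.proj_smul (j : ℕ) (r : ZMod m) (x : KM m K) :
    KM.proj j (r • x) = r • KM.proj j x := by
  unfold KM.proj
  rw [map_smul, KM.gr_smul, coeff_C_mul, Algebra.smul_def]

lemma KM.proj_nsmul (j : ℕ) (r : ℕ) (x : KM m K) :
    KM.proj j (r • x) = r • KM.proj j x := by
  rw [← Nat.cast_smul_eq_nsmul (ZMod m), KM.proj_smul, Nat.cast_smul_eq_nsmul]

lemma KM.proj_sym_mul_zero (a : K) (x : KM m K) : KM.proj 0 (sym m a * x) = 0 := by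
  unfold KM.proj
  rw [map_mul, KM.gr_sym, mul_assoc, coeff_C_mul, coeff_X_mul_zero, mul_zero]

lemma KM.proj_sym_mul_succ (j : ℕ) (a : K) (x : KM m K) :
    KM.proj (j + 1) (sym m a * x) = sym m a * KM.proj j x := by
  unfold KM.proj
  rw [map_mul, KM.gr_sym, mul_assoc, coeff_C_mul, coeff_X_mul]

lemma KM.proj_of_deg {j : ℕ} {x : KM m K} (h : x ∈ KM.deg m K j) : KM.proj j x = x := by
  unfold KM.proj
  rw [KM.deg_gr h, coeff_C_mul, coeff_X_pow_self, mul_one]

lemma KM.proj_mem (x : KM m K) : ∀ j, KM.proj j x ∈ KM.deg m K j := by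
  refine KM.induction (P := fun x => ∀ j, KM.proj j x ∈ KM.deg m K j) ?_ ?_ ?_ ?_ x
  · intro r j
    rw [KM.proj_algebraMap]
    split_ifs with h
    · subst h
      rw [Algebra.algebraMap_eq_smul_one]
      exact Submodule.smul_mem _ _ KM.deg_zero_one
    · exact zero_mem _
  · intro x y hx hy j
    rw [KM.proj_add]
    exact add_mem (hx j) (hy j)
  · intro c x hx j
    rw [KM.proj_smul]
    exact Submodule.smul_mem _ _ (hx j)
  · intro b x hb hx j
    rcases j with _ | j
    · rw [KM.proj_sym_mul_zero]; exact zero_mem _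
    · rw [KM.proj_sym_mul_succ]
      exact KM.sym_mul_mem _ (hx j)

lemma KM.proj_map (f : K →+* L) (x : KM m K) :
    ∀ j, KM.proj j (KM.map m f x) = KM.map m f (KM.proj j x) := by
  refine KM.induction (P := fun x => ∀ j, KM.proj j (KM.map m f x) = KM.map m f (KM.proj j x))
    ?_ ?_ ?_ ?_ x
  · intro r j
    rw [AlgHom.commutes, KM.proj_algebraMap, KM.proj_algebraMap]
    split_ifs with h
    · rw [AlgHom.commutes]
    · rw [map_zero]
  · intro x y hx hy j
    rw [map_add, KM.proj_add, KM.proj_add, map_add, hx, hy]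
  · intro c x hx j
    rw [map_smul, KM.proj_smul, KM.proj_smul, map_smul, hx]
  · intro b x hb hx j
    rcases j with _ | j
    · rw [map_mul, KM.map_sym, KM.proj_sym_mul_zero, KM.proj_sym_mul_zero, map_zero]
    · rw [map_mul, KM.map_sym, KM.proj_sym_mul_succ, KM.proj_sym_mul_succ, map_mul, KM.map_sym,
        hx]

/-- The components of an unramified class are unramified. -/
lemma Unr.proj {x : KM m K} (hx : Unr x) (j : ℕ) : Unr (KM.proj j x) := by
  intro A hA
  have h1 := hx A hA
  unfold UnrAt at *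
  obtain ⟨S, hS⟩ : ∃ S : Subalgebra (ZMod m) (KM m K), S = Algebra.adjoin (ZMod m)
    (Set.range fun u : Aˣ => sym m ((u : A) : K)) := ⟨_, rfl⟩
  rw [← hS] at h1 ⊢
  suffices h : ∀ j, KM.proj j x ∈ S from h j
  rw [hS] at h1
  clear hx
  induction h1 using Algebra.adjoin_induction with
  | mem y hy =>
    obtain ⟨u, rfl⟩ := hy
    intro j
    have h3 : sym m ((u : A) : K) ∈ KM.deg m K 1 := by
      have := KM.sym_mul_mem (m := m) ((u : A) : K) (KM.deg_zero_one (m := m) (K := K))
      rwa [mul_one] at this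
    have h4 : sym m ((u : A) : K) ∈ S := by
      rw [hS]; exact Algebra.subset_adjoin ⟨u, rfl⟩
    unfold KM.proj
    rw [KM.deg_gr h3, pow_one, coeff_C_mul, coeff_X]
    split_ifs
    · rw [mul_one]; exact h4
    · rw [mul_zero]; exact zero_mem _
  | algebraMap r =>
    intro j
    rw [KM.proj_algebraMap]
    split_ifs
    · exact S.algebraMap_mem r
    · exact zero_mem _
  | add y z _ _ hy hz =>
    intro j
    rw [KM.proj_add]
    exact add_mem (hy j) (hz j)
  | mul y z _ _ hy hz =>
    intro j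
    unfold KM.proj at *
    rw [map_mul, coeff_mul]
    exact sum_mem fun p _ => mul_mem (hy _) (hz _)

end UnrH3
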