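import Pool.Agent.Lib.MP_859dd5_ag.Mg.G030
import Pool.Agent.Lib.MP_859dd5_ag.Mg.G064

/-!
# The Frobenius on the unramified classes of constant covers: abstract fields
-/

namespace UnrH3.Ell

universe u v w

open Polynomial WeierstrassCurve
open scoped Classical

variable {m : ℕ} {n r : ℕ}

lemma torsion_of_finite {κ : Type w} [Field κ] [Finite κ] {F : Type u} [Field F] [Algebra κ F]
    [Algebra.IsAlgebraic κ F] {y : F} (hy : y ≠ 0) : ∃ l > 0, y ^ l = 1 := by
  have h1 : IsIntegral κ y := (Algebra.IsAlgebraic.isAlgebraic y).isIntegral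
  have h2 : FiniteDimensional κ (IntermediateField.adjoin κ {y}) :=
    IntermediateField.adjoin.finiteDimensional h1
  have h3 : Finite (IntermediateField.adjoin κ {y}) := Module.finite_of_finite κ
  have hm : y ∈ IntermediateField.adjoin κ {y} :=
    IntermediateField.mem_adjoin_simple_self _ _
  have hy' : (⟨y, hm⟩ : IntermediateField.adjoin κ {y}) ≠ 0 := fun h =>
    hy (congrArg Subtype.val h)
  have h4 := pow_orderOf_eq_one (Units.mk0 _ hy')
  refine ⟨orderOf (Units.mk0 _ hy'), orderOf_pos _, ?_⟩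
  generalize orderOf (Units.mk0 _ hy') = l at h4
  have h5 := congrArg (fun z : (IntermediateField.adjoin κ {y})ˣ =>
    ((z : IntermediateField.adjoin κ {y}) : F)) h4
  simpa using h5

/-- The characteristic equation of the Frobenius on the unramified classes of a constant cover. -/
theorem split_cover_frob (hm : Odd m) {κ : Type w} {k L : Type u} [Field κ] [Fintype κ]
    [Field k] [Field L] [Algebra κ k] [Algebra k L] (h2 : (2 : κ) ≠ 0)
    (F : IntermediateField κ k) [Algebra.IsAlgebraic κ F] (t : Fin r → k)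
    (ht : AlgebraicIndependent F t) (hk : IntermediateField.adjoin F (Set.range t) = ⊤)
    {ι : Type*} [Fintype ι] {A B D : ι → κ}
    (hdisc : ∀ i, A i ^ 2 * B i ^ 2 - 4 * B i ^ 3 - 4 * A i ^ 3 * D i +
      18 * A i * B i * D i - 27 * D i ^ 2 ≠ 0) (hn : 0 < n) (e : Fin n → ι)
    (x : Fin n → L) (hx : AlgebraicIndependent k x) (v : L)
    (hv : v ^ 2 = ∏ i, (x i ^ 3 + algebraMap k L (algebraMap κ k (A (e i))) * x i ^ 2 +
      algebraMap k L (algebraMap κ k (B (e i))) * x i +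
      algebraMap k L (algebraMap κ k (D (e i)))))
    (hL : IntermediateField.adjoin k (insert v (Set.range x)) = ⊤)
    (π π' : ι → ℂ)
    (hsum : ∀ i, π i + π' i = (Fintype.card κ : ℂ) - npt (A i) (B i) (D i))
    (hprod : ∀ i, π i * π' i = (Fintype.card κ : ℂ)) (P : ℤ[X])
    (hP : P.map (Int.castRingHom ℂ) =
      ∏ S : Finset ι, (Polynomial.X - Polynomial.C (∏ i, pick π π' S (e i)))) (β : ℕ)
    (σ : L →+* L)
    (σF : ∀ z ∈ F, σ (algebraMap k L z) = algebraMap k L z ^ Fintype.card κ)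
    (σt : ∀ i, σ (algebraMap k L (t i)) = algebraMap k L (t i))
    (σx : ∀ i, σ (x i) = x i) (σv : σ v = (-1) ^ β * v)
    {d : ℕ} (hd2 : 2 ≤ d) {ξ : KM m L} (hξ : Unr ξ) (hd : ξ ∈ KM.deg m L d)
    {N : ℕ} (hN : P.natDegree ≤ N) :
    ∑ l ∈ Finset.range (N + 1),
      (P.coeff l * ((-1) ^ β * (Fintype.card κ : ℤ) ^ d) ^ l) • (KM.map m σ)^[N - l] ξ = 0 := by
  obtain ⟨p, hpκ⟩ := CharP.exists κ
  obtain ⟨s', hp', hcard⟩ := FiniteField.card κ p
  have hp : Fact p.Prime := ⟨hp'⟩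
  obtain ⟨s, hs, hss⟩ : ∃ s : ℕ, 0 < s ∧ Fintype.card κ = p ^ s := ⟨s', s'.pos, hcard⟩
  obtain ⟨Λ, hΛ, hΛa, φ, -⟩ : ∃ (Λ : Type u) (_ : Field Λ) (_ : IsAlgClosed Λ) (φ : L →+* Λ),
      True := ⟨AlgebraicClosure L, inferInstance, inferInstance, algebraMap _ _, trivial⟩
  obtain ⟨Φ, hΦ⟩ : ∃ Φ : k →+* Λ, ∀ z, Φ z = φ (algebraMap k L z) :=
    ⟨φ.comp (algebraMap k L), fun _ => rfl⟩
  have hpΛ : CharP Λ p := by
    have := (Φ.comp (algebraMap κ k)).charP_iff (Φ.comp (algebraMap κ k)).injective p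
    exact this.mp hpκ
  obtain ⟨j, hj⟩ : ∃ j : κ →+* Λ, ∀ z, j z = Φ (algebraMap κ k z) :=
    ⟨Φ.comp (algebraMap κ k), fun _ => rfl⟩
  let _ : Algebra k Λ := Φ.toAlgebra
  have hT : IsScalarTower F k Λ := inferInstance
  have hΦF : ∀ z : F, algebraMap F Λ z = Φ z := fun z => IsScalarTower.algebraMap_apply F k Λ z
  obtain ⟨F₀, hF₀⟩ : ∃ F₀, F₀ = (algebraMap F Λ).fieldRange := ⟨_, rfl⟩
  obtain ⟨k₀, hk₀⟩ : ∃ k₀, k₀ = (algebraMap k Λ).fieldRange := ⟨_, rfl⟩
  have hk₀t : k₀ = adj F₀ (Set.range fun i => Φ (t i)) := by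
    have h1 : (algebraMap k Λ).fieldRange = Φ.fieldRange := rfl
    have h3 : (Φ.comp (algebraMap F k)) = algebraMap F Λ := RingHom.ext fun z => (hΦF z).symm
    rw [hk₀, hF₀, h1, fieldRange_eq_adj (k := F) Φ hk, h3]
    congr 1
    rw [← Set.range_comp]
    rfl
  have hF₀mem : ∀ z ∈ F, Φ z ∈ F₀ := fun z hz => by
    rw [hF₀]; exact ⟨⟨z, hz⟩, hΦF ⟨z, hz⟩⟩
  have hF₀mem' : ∀ z ∈ F₀, ∃ z' ∈ F, Φ z' = z := by
    intro z hz
    rw [hF₀] at hz
    obtain ⟨z', rfl⟩ := hz
    exact ⟨z', z'.2, (hΦF z').symm⟩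
  have hjF : ∀ z, j z ∈ F₀ := fun z => by
    rw [hj]; exact hF₀mem _ (F.algebraMap_mem z)
  have hΦk : ∀ z, Φ z ∈ k₀ := fun z => by rw [hk₀]; exact ⟨z, rfl⟩
  have hindt : IndSet F₀ (Set.range fun i => Φ (t i)) := by
    have h1 : AlgebraicIndependent F (fun i => Φ (t i)) :=
      ht.map' (f := IsScalarTower.toAlgHom F k Λ) Φ.injective
    rw [hF₀]
    exact (indFam_of_algInd h1).indSet_range
  have hindx : IndFam k₀ (fun i => φ (x i)) := by
    rw [hk₀]
    apply indFam_of_algInd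
    exact hx.map' (f := (⟨φ, fun z => (hΦ z).symm⟩ : L →ₐ[k] Λ)) φ.injective
  have htors : ∀ z ∈ F₀, z ≠ 0 → ∃ l > 0, z ^ l = 1 := by
    intro z hz hz0
    rw [hF₀] at hz
    obtain ⟨y, rfl⟩ := hz
    have hy : y ≠ 0 := by
      rintro rfl
      exact hz0 (map_zero _)
    obtain ⟨l, hl, h1⟩ := torsion_of_finite (κ := κ) hy
    exact ⟨l, hl, by rw [← map_pow, h1, map_one]⟩
  obtain ⟨X, hX⟩ : ∃ X : Fin n → Λ, X = fun i => φ (x i) := ⟨_, rfl⟩
  have hXi : ∀ i, X i = φ (x i) := fun i => by rw [hX]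
  rw [← hX] at hindx
  obtain ⟨G, hG⟩ : ∃ G : Fin n → Λ, ∀ i, G i = X i ^ 3 + j (A (e i)) * X i ^ 2 +
    j (B (e i)) * X i + j (D (e i)) := ⟨_, fun _ => rfl⟩
  have hφv : φ v ^ 2 = ∏ i, G i := by
    rw [← map_pow, hv, map_prod]
    refine Finset.prod_congr rfl fun i _ => ?_
    rw [hG, hXi, hj, hj, hj, hΦ, hΦ, hΦ]
    simp only [map_add, map_mul, map_pow]
  -- the second coordinates
  obtain ⟨Y, hY, hvY⟩ : ∃ Y : Fin n → Λ, (∀ i, Y i ^ 2 = G i) ∧ φ v = ∏ i, Y i := by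
    have h1 : ∀ i, ∃ z : Λ, z ^ 2 = G i := fun i =>
      IsAlgClosed.exists_pow_nat_eq _ (by norm_num)
    choose Y' hY' using h1
    have h3 : φ v = ∏ i, Y' i ∨ φ v = -∏ i, Y' i := by
      apply sq_eq_sq_iff_eq_or_eq_neg.mp
      rw [hφv, ← Finset.prod_pow]
      exact Finset.prod_congr rfl fun i _ => (hY' i).symm
    rcases h3 with h3 | h3
    · exact ⟨Y', hY', h3⟩
    · obtain ⟨i₀, -⟩ : ∃ i₀ : Fin n, i₀ = ⟨0, hn⟩ := ⟨_, rfl⟩
      refine ⟨fun i => if i = i₀ then -Y' i else Y' i, fun i => ?_, ?_⟩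
      · by_cases h : i = i₀
        · simp only [if_pos h]
          rw [neg_sq, hY']
        · simp only [if_neg h]
          rw [hY']
      · rw [h3, ← Finset.mul_prod_erase Finset.univ _ (Finset.mem_univ i₀),
          ← Finset.mul_prod_erase Finset.univ (fun i => if i = i₀ then -Y' i else Y' i)
            (Finset.mem_univ i₀), if_pos rfl, neg_mul]
        congr 2
        refine Finset.prod_congr rfl fun i hi => ?_
        rw [if_neg (Finset.mem_erase.mp hi).1]
  have Fm : Fam j k₀ (fun i => A (e i)) (fun i => B (e i)) (fun i => D (e i)) X Y :=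
    { two := h2
      disc := fun i => hdisc (e i)
      jC := fun z => by rw [hj]; exact hΦk _
      ind := hindx
      hY := fun i => by rw [hY, hG] }
  obtain ⟨M, hM⟩ : ∃ M, M = adj k₀ (Set.range X ∪ Set.range Y) := ⟨_, rfl⟩
  have hR : φ.fieldRange = twF k₀ X (φ v) := by
    have h3 : φ.comp (algebraMap k L) = algebraMap k Λ := RingHom.ext fun z => (hΦ z).symm
    rw [fieldRange_eq_adj φ hL, twF, hk₀, Set.image_insert_eq, ← Set.range_comp, hX, h3]
    rfl
  -- transport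
  obtain ⟨f, hf⟩ : ∃ f : L →+* twF k₀ X (φ v), ∀ y, (f y : Λ) = φ y :=
    ⟨(Subfield.inclusion hR.le).comp (toRange φ), fun y => rfl⟩
  obtain ⟨g, hg⟩ : ∃ g : twF k₀ X (φ v) →+* L, φ.comp g =
      (twF k₀ X (φ v)).subtype := exists_factor _ _ (fun y => hR.ge y.2)
  have hφg : ∀ y, φ (g y) = y := fun y => congrArg (fun h : _ →+* Λ => h y) hg
  have hgf : g.comp f = RingHom.id L := by
    ext y
    apply φ.injective
    rw [RingHom.comp_apply, hφg, hf]; rfl
  have gof : ∀ (y : twF k₀ X (φ v)) (y' : L), (y : Λ) = φ y' → g y = y' :=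
    fun y y' h => φ.injective (by rw [hφg, h])
  have fix : ∀ (y' : L), σ y' = y' → ∀ y : twF k₀ X (φ v), (y : Λ) = φ y' →
      (f.comp (σ.comp g)) y = y := by
    intro y' hy' y hy
    apply Subtype.ext
    change (f (σ (g y)) : Λ) = y
    rw [hf, gof y y' hy, hy', hy]
  have key := Fm.cover_frob hm hs hjF hM hvY hk₀t hindt htors hss e (fun i => rfl) (fun i => rfl)
    (fun i => rfl) π π' (fun i => by rw [hsum, hss]; push_cast; rfl)
    (fun i => by rw [hprod, hss]; push_cast; rfl) P hP β (f.comp (σ.comp g))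
    (by
      intro y hy
      obtain ⟨y', hy'F, hy'⟩ := hF₀mem' _ hy
      apply Subtype.ext
      change (f (σ (g y)) : Λ) = (y : Λ) ^ p ^ s
      rw [hf, gof y (algebraMap k L y') (by rw [← hΦ, hy']), σF _ hy'F, map_pow, ← hΦ, hy', hss])
    (fun i y hy => fix (algebraMap k L (t i)) (σt i) y (by rw [← hΦ]; exact hy))
    (fun i y hy => fix (x i) (σx i) y (by rw [← hXi]; exact hy))
    (by
      intro y hy
      apply Subtype.ext
      change (f (σ (g y)) : Λ) = _
      rw [hf, gof y v hy, σv, map_mul, map_pow, map_neg, map_one]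
      push_cast
      rw [hy])
    hd2 (hξ.map f) (KM.deg_map f hd) hN
  have e1 : ∀ η : KM m L, KM.map m g (KM.map m f η) = η := by
    intro η
    rw [KM.map_map, hgf, KM.map_id]; rfl
  have e2 : ∀ (l : ℕ) (η : KM m L), (KM.map m (f.comp (σ.comp g)))^[l] (KM.map m f η) =
      KM.map m f ((KM.map m σ)^[l] η) := by
    intro l
    induction l with
    | zero => intro η; rfl
    | succ l ih =>
      intro η
      have h1 : KM.map m (f.comp (σ.comp g)) (KM.map m f η) = KM.map m f (KM.map m σ η) := by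
        rw [KM.map_map, KM.map_map, RingHom.comp_assoc, RingHom.comp_assoc, hgf, RingHom.comp_id]
      rw [Function.iterate_succ_apply, Function.iterate_succ_apply, h1, ih]
  have h1 := congrArg (KM.map m g) key
  rw [map_zero, map_sum] at h1
  rw [← h1]
  refine Finset.sum_congr rfl fun l _ => ?_
  rw [map_zsmul, e2, e1, hss]
  push_cast
  rw [pow_mul]

end UnrH3.Ell
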