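import Pool.Agent.Lib.MP_859dd5_ag.SwapA

/-!
# Permuting the points of a twisted Kummer variety
-/

namespace UnrH3

universe u v w

open Polynomial WeierstrassCurve
open scoped Classical

variable {m : ℕ} {Λ : Type u} [Field Λ] {n : ℕ}

/-- There is an endomorphism of `M` that fixes `C`, permutes the `X j` by `π`, multiplies `w` by
the sign of `π` and acts trivially on unramified classes. -/
def PermOK (m : ℕ) (C M : Subfield Λ) (X : Fin n → Λ) (w : Λ) (π : Equiv.Perm (Fin n)) : Prop :=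
  ∃ g : M →+* M, (∀ z : M, (z : Λ) ∈ C → g z = z) ∧
    (∀ (j : Fin n) (z : M), (z : Λ) = X j → (g z : Λ) = X (π j)) ∧
    (∀ z : M, (z : Λ) = w → g z = ((((Equiv.Perm.sign π : ℤˣ) : ℤ)) : M) * z) ∧
    ∀ ξ : KM m M, Unr ξ → KM.map m g ξ = ξ

section

variable {C M : Subfield Λ} {X : Fin n → Λ} {w : Λ}

lemma PermOK.one : PermOK m C M X w 1 := by
  refine ⟨RingHom.id M, fun z _ => rfl, fun j z hz => ?_, fun z _ => ?_, fun ξ _ => ?_⟩
  · exact hz
  · simp
  · rw [KM.map_id]; rfl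

lemma PermOK.mul {π ρ : Equiv.Perm (Fin n)} (hπ : PermOK m C M X w π) (hρ : PermOK m C M X w ρ) :
    PermOK m C M X w (π * ρ) := by
  obtain ⟨g, g1, g2, g3, g4⟩ := hπ
  obtain ⟨h, h1, h2, h3, h4⟩ := hρ
  refine ⟨g.comp h, fun z hz => ?_, fun j z hz => ?_, fun z hz => ?_, fun ξ hξ => ?_⟩
  · rw [RingHom.comp_apply, h1 z hz, g1 z hz]
  · rw [RingHom.comp_apply]
    exact g2 (ρ j) (h z) (h2 j z hz)
  · rw [RingHom.comp_apply, h3 z hz, map_mul, map_intCast, g3 z hz, map_mul]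
    push_cast
    ring
  · rw [← KM.map_map, h4 ξ hξ, g4 ξ hξ]

variable {a b c : Fin n → Λ} {d : Λ} (ha : ∀ j, a j ∈ C) (hb : ∀ j, b j ∈ C) (hc : ∀ j, c j ∈ C)
  (hd : d ∈ C) (hd0 : d ≠ 0) (hX : IndFam C X)
  (hw : w ^ 2 = d * ∏ j, (X j ^ 3 + a j * X j ^ 2 + b j * X j + c j))
  (hM : M = adj C (insert w (Set.range X)))

include ha hb hc hd hd0 hX hw hM

/-- Interchanging two of the points. -/
lemma PermOK.swap [IsAlgClosed Λ] (hm : Odd m) (h2 : (2 : Λ) ≠ 0) {i l : Fin n} (hil : i ≠ l)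
    (hai : a i = a l) (hbi : b i = b l) (hci : c i = c l) :
    PermOK m C M X w (Equiv.swap i l) := by
  obtain ⟨B, hB⟩ : ∃ B, B = adj C (X '' {j | j ≠ i ∧ j ≠ l}) := ⟨_, rfl⟩
  have hCB : C ≤ B := by rw [hB]; exact le_adj _ _
  have hXB : ∀ j, j ≠ i → j ≠ l → X j ∈ B := fun j h3 h4 => by
    rw [hB]; exact subset_adj _ _ ⟨j, ⟨h3, h4⟩, rfl⟩
  have hBcl : ∀ T : Set Λ, (C : Set Λ) ⊆ cl T → (∀ j, j ≠ i → j ≠ l → X j ∈ cl T) →
      (B : Set Λ) ⊆ cl T := by
    intro T hC hT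
    have : B ≤ cl T := by
      rw [hB]
      apply adj_le hC
      rintro z ⟨j, ⟨h3, h4⟩, rfl⟩
      exact hT j h3 h4
    exact this
  have hx₁ : X i ∉ cl (B : Set Λ) := fun h => hX i (cl_le (hBcl _
    (fun z hz => subset_cl _ (Or.inl hz)) (fun j h3 _ => subset_cl _ (Or.inr ⟨j, h3, rfl⟩))) h)
  have hx₂ : X l ∉ cl (insert (X i) (B : Set Λ)) := by
    intro h
    apply hX l
    refine cl_le ?_ h
    rintro z (rfl | hz)
    · exact subset_cl _ (Or.inr ⟨i, hil, rfl⟩)
    · exact hBcl _ (fun z hz => subset_cl _ (Or.inl hz))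
        (fun j _ h4 => subset_cl _ (Or.inr ⟨j, h4, rfl⟩)) hz
  have hCcl : ∀ j, ∀ z ∈ C, z ∈ cl ((C : Set Λ) ∪ X '' {l | l ≠ j}) := fun j z hz =>
    subset_cl _ (Or.inl hz)
  have hne : ∀ j, X j ^ 3 + a j * X j ^ 2 + b j * X j + c j ≠ 0 := fun j =>
    cubic_ne_zero (hCcl j _ (ha j)) (hCcl j _ (hb j)) (hCcl j _ (hc j)) (hX j)
  obtain ⟨D, hD⟩ : ∃ D, D = d * ∏ j ∈ (Finset.univ.erase i).erase l,
    (X j ^ 3 + a j * X j ^ 2 + b j * X j + c j) := ⟨_, rfl⟩
  have hDB : D ∈ B := by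
    rw [hD]
    refine mul_mem (hCB hd) (prod_mem fun j hj => ?_)
    rw [Finset.mem_erase, Finset.mem_erase] at hj
    have hj' := hXB j hj.2.1 hj.1
    exact add_mem (add_mem (add_mem (pow_mem hj' 3) (mul_mem (hCB (ha j)) (pow_mem hj' 2)))
      (mul_mem (hCB (hb j)) hj')) (hCB (hc j))
  have hD0 : D ≠ 0 := by
    rw [hD]
    exact mul_ne_zero hd0 (Finset.prod_ne_zero_iff.mpr fun j _ => hne j)
  have hprod : ∀ f : Fin n → Λ, ∏ j, f j = f i * f l * ∏ j ∈ (Finset.univ.erase i).erase l, f j := by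
    intro f
    rw [← Finset.mul_prod_erase Finset.univ f (Finset.mem_univ i),
      ← Finset.mul_prod_erase (Finset.univ.erase i) f
        (Finset.mem_erase.mpr ⟨hil.symm, Finset.mem_univ l⟩), mul_assoc]
  have hw' : w ^ 2 = D * (X i ^ 3 + a i * X i ^ 2 + b i * X i + c i) *
      (X l ^ 3 + a i * X l ^ 2 + b i * X l + c i) := by
    rw [hw, hprod, hD, hai, hbi, hci]
    ring
  have hM' : M = adj B {X i, X l, w} := by
    rw [hB, adj_adj, hM]
    congr 1
    ext z
    simp only [Set.mem_insert_iff, Set.mem_union, Set.mem_singleton_iff, Set.mem_range,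
      Set.mem_image, Set.mem_ofPred_eq]
    constructor
    · rintro (rfl | ⟨j, rfl⟩)
      · right; right; right; rfl
      · by_cases h3 : j = i
        · subst h3; right; left; rfl
        · by_cases h4 : j = l
          · subst h4; right; right; left; rfl
          · left; exact ⟨j, ⟨h3, h4⟩, rfl⟩
    · rintro (⟨j, _, rfl⟩ | rfl | rfl | rfl)
      · right; exact ⟨j, rfl⟩
      · right; exact ⟨i, rfl⟩
      · right; exact ⟨l, rfl⟩
      · left; rfl
  obtain ⟨g, g1, g2, g3, g4, g5⟩ := swap_pair (m := m) hm h2 (hCB (ha i)) (hCB (hb i)) (hCB (hc i))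
    hDB hD0 hx₁ hx₂ hw' hM'
  refine ⟨g, fun z hz => g1 z (hCB hz), fun j z hz => ?_, fun z hz => ?_, g5⟩
  · by_cases h3 : j = i
    · subst h3
      rw [Equiv.swap_apply_left]
      exact g2 z hz
    · by_cases h4 : j = l
      · subst h4
        rw [Equiv.swap_apply_right]
        exact g3 z hz
      · rw [Equiv.swap_apply_of_ne_of_ne h3 h4, g1 z (by rw [hz]; exact hXB j h3 h4), hz]
  · rw [g4 z hz, Equiv.Perm.sign_swap hil]
    simp

/-- Permuting the points. -/
theorem PermOK.all [IsAlgClosed Λ] (hm : Odd m) (h2 : (2 : Λ) ≠ 0) :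
    ∀ (N : ℕ) (π : Equiv.Perm (Fin n)), π.support.card ≤ N →
      (∀ j, a (π j) = a j) → (∀ j, b (π j) = b j) → (∀ j, c (π j) = c j) →
      PermOK m C M X w π := by
  intro N
  induction N with
  | zero =>
    intro π hπ _ _ _
    have h3 : π = 1 := by
      rw [← Equiv.Perm.support_eq_empty_iff]
      exact Finset.card_eq_zero.mp (by omega)
    rw [h3]
    exact PermOK.one
  | succ N ih =>
    intro π hπ hπa hπb hπc
    by_cases h1 : π = 1
    · rw [h1]; exact PermOK.one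
    obtain ⟨i, hi⟩ : ∃ i, π i ≠ i := by
      by_contra h
      push Not at h
      exact h1 (Equiv.ext h)
    have h3 := Equiv.Perm.card_support_swap_mul hi
    have hval : ∀ (f : Fin n → Λ), (∀ j, f (π j) = f j) →
        ∀ j, f ((Equiv.swap i (π i) * π) j) = f j := by
      intro f hf j
      rw [Equiv.Perm.mul_apply]
      by_cases h4 : π j = i
      · rw [h4, Equiv.swap_apply_left, hf, ← h4, hf]
      · by_cases h5 : π j = π i
        · rw [h5, Equiv.swap_apply_right, π.injective h5]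
        · rw [Equiv.swap_apply_of_ne_of_ne h4 h5, hf]
    have h6 := ih (Equiv.swap i (π i) * π) (by omega) (hval a hπa) (hval b hπb) (hval c hπc)
    have h7 := PermOK.swap (m := m) ha hb hc hd hd0 hX hw hM hm h2 hi.symm (hπa i).symm
      (hπb i).symm (hπc i).symm
    have h8 := h7.mul h6
    rwa [← mul_assoc, Equiv.swap_mul_self, one_mul] at h8

end

end UnrH3
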