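import Pool.Agent.Lib.MP_859dd5_ag.NormE
import Pool.Agent.Lib.MP_859dd5_ag.SwapB
import Pool.Agent.Lib.MP_859dd5_ag.Mg.G064

/-!
# Norm forms of products of cubic curves
-/

namespace UnrH3

universe u v w

open Polynomial
open scoped Classical

variable {m : ℕ}

section norm

variable {k L M : Type u} [Field k] [Field L] [Field M] [Algebra k L] [Algebra k M] [Algebra L M]
  [IsScalarTower k L M] {n : ℕ} {θ : Fin n → M} {g : k[X]} {f : Fin n → k[X]} {s : Fin n → L}
  {x : Fin n → M} {w : L} {d : k}

/-- The common overfield is generated by the constants, the roots, the points and `w`. -/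
lemma norm_gen_top (hinj : Function.Injective θ)
    (hθ : IntermediateField.adjoin L (Set.range θ) = ⊤)
    (hL : IntermediateField.adjoin k (insert w (Set.range s)) = ⊤)
    (hx : ∀ j, x j = ∑ i, algebraMap L M (s i) * θ j ^ (i : ℕ)) (S : Subfield M)
    (hkS : ∀ c, algebraMap k M c ∈ S) (hθS : ∀ j, θ j ∈ S) (hxS : ∀ j, x j ∈ S)
    (hwS : algebraMap L M w ∈ S) : S = ⊤ := by
  have hsS : ∀ i, algebraMap L M (s i) ∈ S := by
    intro i
    exact vandermonde_mem hinj (s := fun i => algebraMap L M (s i)) hθS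
      (fun j => by rw [← hx j]; exact hxS j) i
  have hLS : ∀ z : L, algebraMap L M z ∈ S := by
    have h1 : (IntermediateField.adjoin k (insert w (Set.range s))).toSubfield ≤
        S.comap (algebraMap L M) := by
      apply IntermediateField.adjoin_le_subfield
      · rintro _ ⟨c, rfl⟩
        change algebraMap L M (algebraMap k L c) ∈ S
        rw [← IsScalarTower.algebraMap_apply]
        exact hkS c
      · rintro z (rfl | ⟨i, rfl⟩)
        · exact hwS
        · exact hsS i
    intro z
    exact h1 (show z ∈ IntermediateField.adjoin k (insert w (Set.range s)) by rw [hL]; trivial)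
  have h2 : (IntermediateField.adjoin L (Set.range θ)).toSubfield ≤ S := by
    apply IntermediateField.adjoin_le_subfield
    · rintro _ ⟨z, rfl⟩
      exact hLS z
    · rintro _ ⟨j, rfl⟩
      exact hθS j
  rw [eq_top_iff]
  intro z _
  exact h2 (show z ∈ IntermediateField.adjoin L (Set.range θ) by rw [hθ]; trivial)

/-- The points are algebraically independent over the field generated by the roots. -/
lemma norm_algInd (hg0 : g ≠ 0) (hinj : Function.Injective θ)
    (hg : g.map (algebraMap k M) = ∏ j, (X - C (θ j)))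
    (hθ : IntermediateField.adjoin L (Set.range θ) = ⊤)
    (hs : AlgebraicIndependent k s)
    (hL : IntermediateField.adjoin k (insert w (Set.range s)) = ⊤)
    (hx : ∀ j, x j = ∑ i, algebraMap L M (s i) * θ j ^ (i : ℕ))
    (hw : (algebraMap L M w) ^ 2 = algebraMap k M d * ∏ j, aeval (x j) (f j)) :
    AlgebraicIndependent k x ∧
      AlgebraicIndependent (IntermediateField.adjoin k (Set.range θ)) x := by
  have hθalg : ∀ j, IsAlgebraic k (θ j) := by
    intro j
    refine ⟨g, hg0, ?_⟩
    rw [aeval_def, ← eval_map, hg, eval_prod, Finset.prod_eq_zero_iff]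
    exact ⟨j, Finset.mem_univ j, by simp⟩
  obtain ⟨A, hA⟩ : ∃ A : IntermediateField (IntermediateField.adjoin k (Set.range x)) M,
    A = algebraicClosure (IntermediateField.adjoin k (Set.range x)) M := ⟨_, rfl⟩
  have hmemA : ∀ z, z ∈ A ↔ IsAlgebraic (IntermediateField.adjoin k (Set.range x)) z := by
    intro z
    rw [hA, mem_algebraicClosure_iff]
  have hkA : ∀ z ∈ IntermediateField.adjoin k (Set.range x), z ∈ A := fun z hz => by
    rw [hmemA]
    exact isAlgebraic_algebraMap (⟨z, hz⟩ : IntermediateField.adjoin k (Set.range x))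
  have hxA : ∀ j, x j ∈ A := fun j => hkA _ (IntermediateField.subset_adjoin _ _ ⟨j, rfl⟩)
  have hkkA : ∀ c : k, algebraMap k M c ∈ A := fun c => hkA _
    ((IntermediateField.adjoin k (Set.range x)).algebraMap_mem c)
  have htop : A.toSubfield = ⊤ := by
    apply norm_gen_top hinj hθ hL hx
    · exact hkkA
    · intro j
      change θ j ∈ A
      rw [hmemA]
      exact (hθalg j).tower_top _
    · exact hxA
    · change algebraMap L M w ∈ A
      rw [hmemA]
      apply IsAlgebraic.of_pow (n := 2) (by norm_num)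
      rw [hw, ← hmemA]
      refine mul_mem (hkkA d) (prod_mem fun j _ => ?_)
      rw [aeval_def, eval₂_eq_sum_range]
      exact sum_mem fun i _ => mul_mem (hkkA _) (pow_mem (hxA j) i)
  have halg : Algebra.IsAlgebraic (Algebra.adjoin k (Set.range x)) M := by
    constructor
    intro z
    rw [← IntermediateField.isAlgebraic_adjoin_iff, ← hmemA]
    change z ∈ A.toSubfield
    rw [htop]; trivial
  have hsM : AlgebraicIndependent k (fun i => algebraMap L M (s i)) :=
    hs.map' (f := IsScalarTower.toAlgHom k L M) (algebraMap L M).injective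
  have hxi : AlgebraicIndependent k x := by
    have h1 := Algebra.IsAlgebraic.isTranscendenceBasis_of_lift_le_trdeg_of_finite k x
      hsM.lift_cardinalMk_le_trdeg
    exact h1.1
  refine ⟨hxi, ?_⟩
  have hK : Algebra.IsAlgebraic k (IntermediateField.adjoin k (Set.range θ)) :=
    IntermediateField.isAlgebraic_adjoin (fun z hz => by
      obtain ⟨j, rfl⟩ := hz
      exact (hθalg j).isIntegral)
  exact hxi.extendScalars _

lemma aeval_monic_cubic {A : Type u} [Field A] [Algebra k A] {p : k[X]} (hp : p.Monic)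
    (h3 : p.natDegree = 3) (z : A) : aeval z p = z ^ 3 + algebraMap k A (p.coeff 2) * z ^ 2 +
      algebraMap k A (p.coeff 1) * z + algebraMap k A (p.coeff 0) := by
  have h1 : p.coeff 3 = 1 := by rw [← h3]; exact hp
  rw [aeval_def, eval₂_eq_sum_range, h3]
  simp only [Finset.sum_range_succ, Finset.sum_range_zero, h1, map_one, pow_zero, pow_one]
  ring

/-- Permuting the points of the norm form by an endomorphism of the common overfield that acts
trivially on unramified classes. -/
theorem norm_exists_perm (hm : Odd m) (h2 : (2 : k) ≠ 0) (hg0 : g ≠ 0)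
    (hinj : Function.Injective θ)
    (hg : g.map (algebraMap k M) = ∏ j, (X - C (θ j)))
    (hθ : IntermediateField.adjoin L (Set.range θ) = ⊤)
    (hf : ∀ j, (f j).Monic) (hf3 : ∀ j, (f j).natDegree = 3)
    (hs : AlgebraicIndependent k s)
    (hL : IntermediateField.adjoin k (insert w (Set.range s)) = ⊤)
    (hx : ∀ j, x j = ∑ i, algebraMap L M (s i) * θ j ^ (i : ℕ)) (hd0 : d ≠ 0)
    (hw : (algebraMap L M w) ^ 2 = algebraMap k M d * ∏ j, aeval (x j) (f j))
    (π : Equiv.Perm (Fin n)) (hπ : ∀ j, f (π j) = f j) :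
    ∃ κ : M →+* M, (∀ z ∈ IntermediateField.adjoin k (Set.range θ), κ z = z) ∧
      (∀ j, κ (x j) = x (π j)) ∧
      κ (algebraMap L M w) = ((Equiv.Perm.sign π : ℤ) : M) * algebraMap L M w ∧
      ∀ ζ : KM m M, Unr ζ → KM.map m κ ζ = ζ := by
  obtain ⟨-, hxi⟩ := norm_algInd hg0 hinj hg hθ hs hL hx hw
  obtain ⟨Λ, hΛ, hΛa, ψ, -⟩ : ∃ (Λ : Type u) (_ : Field Λ) (_ : IsAlgClosed Λ) (ψ : M →+* Λ),
      True := ⟨AlgebraicClosure M, inferInstance, inferInstance, algebraMap _ _, trivial⟩
  let _ : Algebra (IntermediateField.adjoin k (Set.range θ)) Λ :=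
    (ψ.comp (algebraMap (IntermediateField.adjoin k (Set.range θ)) M)).toAlgebra
  obtain ⟨K, hK⟩ : ∃ K : Subfield Λ, K =
    (algebraMap (IntermediateField.adjoin k (Set.range θ)) Λ).fieldRange := ⟨_, rfl⟩
  have hKmem : ∀ z ∈ IntermediateField.adjoin k (Set.range θ), ψ z ∈ K := fun z hz => by
    rw [hK]; exact ⟨⟨z, hz⟩, rfl⟩
  have hKmem' : ∀ z ∈ K, ∃ z' ∈ IntermediateField.adjoin k (Set.range θ), ψ z' = z := by
    intro z hz
    rw [hK] at hz
    obtain ⟨z', rfl⟩ := hz
    exact ⟨z', z'.2, rfl⟩
  have hkK : ∀ c : k, ψ (algebraMap k M c) ∈ K := fun c => hKmem _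
    ((IntermediateField.adjoin k (Set.range θ)).algebraMap_mem c)
  have hind : IndFam K (fun j => ψ (x j)) := by
    rw [hK]
    apply indFam_of_algInd
    exact hxi.map' (f := (⟨ψ, fun _ => rfl⟩ :
      M →ₐ[IntermediateField.adjoin k (Set.range θ)] Λ)) ψ.injective
  have hrange : ψ.fieldRange = adj K (insert (ψ (algebraMap L M w))
      (Set.range fun j => ψ (x j))) := by
    apply le_antisymm
    · have h1 : (adj K (insert (ψ (algebraMap L M w)) (Set.range fun j => ψ (x j)))).comap ψ =
          ⊤ := by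
        apply norm_gen_top hinj hθ hL hx
        · intro c
          exact le_adj _ _ (hkK c)
        · intro j
          exact le_adj _ _ (hKmem _ (IntermediateField.subset_adjoin _ _ ⟨j, rfl⟩))
        · intro j
          exact subset_adj _ _ (Or.inr ⟨j, rfl⟩)
        · exact subset_adj _ _ (Or.inl rfl)
      rintro _ ⟨z, rfl⟩
      have h3 : z ∈ (adj K (insert (ψ (algebraMap L M w))
        (Set.range fun j => ψ (x j)))).comap ψ := by rw [h1]; trivial
      exact h3
    · apply adj_le
      · intro z hz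
        obtain ⟨z', -, rfl⟩ := hKmem' z hz
        exact ⟨z', rfl⟩
      · rintro z (rfl | ⟨j, rfl⟩)
        · exact ⟨_, rfl⟩
        · exact ⟨_, rfl⟩
  have h2Λ : (2 : Λ) ≠ 0 := by
    intro h
    apply h2
    apply (ψ.comp (algebraMap k M)).injective
    rw [map_ofNat, map_zero]; exact h
  obtain ⟨g', g1, g2, g3, g4⟩ := PermOK.all (m := m) (C := K) (M := ψ.fieldRange)
    (X := fun j => ψ (x j)) (w := ψ (algebraMap L M w))
    (a := fun j => ψ (algebraMap k M ((f j).coeff 2)))
    (b := fun j => ψ (algebraMap k M ((f j).coeff 1)))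
    (c := fun j => ψ (algebraMap k M ((f j).coeff 0))) (d := ψ (algebraMap k M d))
    (fun j => hkK _) (fun j => hkK _) (fun j => hkK _) (hkK d) (by
      rw [Ne, map_eq_zero, map_eq_zero]; exact hd0) hind (by
      rw [← map_pow, hw, map_mul, map_prod]
      congr 1
      refine Finset.prod_congr rfl fun j _ => ?_
      rw [aeval_monic_cubic (hf j) (hf3 j)]
      simp only [map_add, map_mul, map_pow]) hrange hm h2Λ _ π le_rfl
    (fun j => by rw [hπ]) (fun j => by rw [hπ]) (fun j => by rw [hπ])
  obtain ⟨e, he⟩ : ∃ e : ψ.fieldRange →+* M, ψ.comp e = ψ.fieldRange.subtype :=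
    exists_factor _ _ (fun a => a.2)
  have hψe : ∀ y, ψ (e y) = y := fun y => congrArg (fun h : _ →+* Λ => h y) he
  have hef : e.comp (toRange ψ) = RingHom.id M := by
    ext z
    apply ψ.injective
    rw [RingHom.comp_apply, hψe]; rfl
  refine ⟨e.comp (g'.comp (toRange ψ)), ?_, ?_, ?_, ?_⟩
  · intro z hz
    apply ψ.injective
    change ψ (e (g' (toRange ψ z))) = _
    rw [hψe, g1 (toRange ψ z) (hKmem z hz)]; rfl
  · intro j
    apply ψ.injective
    change ψ (e (g' (toRange ψ (x j)))) = _
    rw [hψe]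
    exact g2 j _ rfl
  · apply ψ.injective
    change ψ (e (g' (toRange ψ (algebraMap L M w)))) = _
    rw [hψe, g3 _ rfl, map_mul, map_intCast]
    push_cast
    rfl
  · intro ζ hζ
    have h1 : KM.map m (e.comp (g'.comp (toRange ψ))) ζ =
        KM.map m e (KM.map m g' (KM.map m (toRange ψ) ζ)) := by
      rw [KM.map_map, KM.map_map]; rfl
    rw [h1, g4 _ (hζ.map _), KM.map_map, hef, KM.map_id]; rfl

end norm

end UnrH3
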