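import Pool.Agent.Lib.MP_859dd5_ag.EllM
import Pool.Agent.Lib.MP_859dd5_ag.NormF

/-!
# The Frobenius on the unramified classes of norm forms
-/

namespace UnrH3.Ell

universe u v w

open Polynomial
open scoped Classical

variable {m : ℕ}

section roots

variable {k M : Type u} [Field k] [Field M] [Algebra k M] {n l : ℕ} {θ : Fin n → M}
  {g : Fin l → k[X]} {e : Fin n → Fin l}

lemma prod_map_eq (hg : ∀ i, (g i).map (algebraMap k M) = ∏ j with e j = i, (X - C (θ j))) :
    (∏ i, g i).map (algebraMap k M) = ∏ j, (X - C (θ j)) := by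
  rw [Polynomial.map_prod, Finset.prod_congr rfl (fun i _ => hg i)]
  exact Finset.prod_fiberwise Finset.univ e (fun j => X - C (θ j))

lemma exists_root_of_fix {Λ : Type*} [Field Λ] (ψ h : M →+* Λ)
    (hg : ∀ i, (g i).map (algebraMap k M) = ∏ j with e j = i, (X - C (θ j)))
    (hh : ∀ i c, h (algebraMap k M ((g i).coeff c)) = ψ (algebraMap k M ((g i).coeff c)))
    (j : Fin n) : ∃ i, e i = e j ∧ h (θ j) = ψ (θ i) := by
  have h1 : (g (e j)).eval₂ (algebraMap k M) (θ j) = 0 := by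
    rw [← eval_map, hg, eval_prod]
    apply Finset.prod_eq_zero (i := j)
    · simp
    · simp
  have h2 : (g (e j)).eval₂ (ψ.comp (algebraMap k M)) (h (θ j)) = 0 := by
    rw [← map_zero h, ← h1, hom_eval₂, eval₂_eq_sum_range, eval₂_eq_sum_range]
    refine Finset.sum_congr rfl fun c _ => ?_
    rw [RingHom.comp_apply, RingHom.comp_apply, hh]
  rw [← eval_map, ← Polynomial.map_map, hg, Polynomial.map_prod, eval_prod,
    Finset.prod_eq_zero_iff] at h2
  obtain ⟨i, hi, h3⟩ := h2
  rw [Polynomial.map_sub, Polynomial.map_X, Polynomial.map_C, eval_sub, eval_X, eval_C,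
    sub_eq_zero] at h3
  refine ⟨i, ?_, h3⟩
  simpa using hi

lemma exists_perm_of_fix (hinj : Function.Injective θ)
    (hg : ∀ i, (g i).map (algebraMap k M) = ∏ j with e j = i, (X - C (θ j)))
    (ρ : M →+* M)
    (hρ : ∀ i c, ρ (algebraMap k M ((g i).coeff c)) = algebraMap k M ((g i).coeff c)) :
    ∃ π : Equiv.Perm (Fin n), (∀ j, ρ (θ j) = θ (π j)) ∧ ∀ j, e (π j) = e j := by
  have h2 := fun j => exists_root_of_fix (RingHom.id M) ρ hg hρ j
  choose p hpe hp using h2
  have hpi : Function.Injective p := by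
    intro i j hij
    apply hinj
    apply ρ.injective
    rw [hp, hp, hij]
  exact ⟨Equiv.ofBijective p (Finite.injective_iff_bijective.mp hpi), hp, hpe⟩

/-- Extension of an endomorphism to a splitting field. -/
lemma exists_extension_roots {L : Type u} [Field L] [Algebra k L] [Algebra L M]
    [IsScalarTower k L M]
    (hsep : (∏ i, g i).Separable)
    (hg : ∀ i, (g i).map (algebraMap k M) = ∏ j with e j = i, (X - C (θ j)))
    (hθ : IntermediateField.adjoin L (Set.range θ) = ⊤) (σ : L →+* L)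
    (σg : ∀ i c, σ (algebraMap k L ((g i).coeff c)) = algebraMap k L ((g i).coeff c)) :
    ∃ ρ : M →+* M, ∀ z, ρ (algebraMap L M z) = algebraMap L M (σ z) := by
  obtain ⟨hfin, -⟩ := isGalois_of_roots (k := k) (F := L) hsep (prod_map_eq hg) hθ
  obtain ⟨Λ, hΛ, hΛa, ψ, -⟩ : ∃ (Λ : Type u) (_ : Field Λ) (_ : IsAlgClosed Λ) (ψ : M →+* Λ),
      True := ⟨AlgebraicClosure M, inferInstance, inferInstance, algebraMap _ _, trivial⟩
  obtain ⟨h, hh⟩ := exists_extension (algebraMap L M) ((ψ.comp (algebraMap L M)).comp σ)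
    (algebraMap L M).injective (RingHom.injective _) (fun z => by
      obtain ⟨p, hp, hp0⟩ := Algebra.IsAlgebraic.isAlgebraic (R := L) z
      exact ⟨p, hp, hp0⟩)
  have hhL : ∀ z : L, h (algebraMap L M z) = ψ (algebraMap L M (σ z)) := fun z =>
    congrArg (fun f : L →+* Λ => f z) hh
  have hθm : ∀ j, h (θ j) ∈ ψ.fieldRange := by
    intro j
    obtain ⟨i, -, hi⟩ := exists_root_of_fix ψ h hg (fun i c => by
      rw [IsScalarTower.algebraMap_apply k L M, hhL, σg]) j
    exact ⟨_, hi.symm⟩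
  have hmem : ∀ z, h z ∈ ψ.fieldRange := by
    have h1 : (IntermediateField.adjoin L (Set.range θ)).toSubfield ≤ ψ.fieldRange.comap h := by
      apply IntermediateField.adjoin_le_subfield
      · rintro _ ⟨z, rfl⟩
        exact ⟨_, (hhL z).symm⟩
      · rintro _ ⟨j, rfl⟩
        exact hθm j
    intro z
    exact h1 (show z ∈ IntermediateField.adjoin L (Set.range θ) by rw [hθ]; trivial)
  obtain ⟨ρ, hρ⟩ : ∃ ρ : M →+* M, ψ.comp ρ = h := exists_factor _ _ hmem
  refine ⟨ρ, fun z => ψ.injective ?_⟩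
  rw [← hhL]
  exact congrArg (fun f : M →+* Λ => f (algebraMap L M z)) hρ

end roots

/-- The characteristic equation of the Frobenius on the unramified classes of a norm form. -/
theorem norm_cover_frob (hm : Odd m) {κ : Type w} {k L M : Type u} [Field κ] [Fintype κ]
    [Field k] [Field L] [Field M] [Algebra κ k] [Algebra k L] [Algebra k M] [Algebra L M]
    [IsScalarTower k L M] (h2 : (2 : κ) ≠ 0) (F : IntermediateField κ k)
    [Algebra.IsAlgebraic κ F] {r : ℕ} (t : Fin r → k) (ht : AlgebraicIndependent F t)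
    (hk : IntermediateField.adjoin F (Set.range t) = ⊤) {l : ℕ} (f : Fin l → κ[X])
    (hf : ∀ i, (f i).Monic) (hf3 : ∀ i, (f i).natDegree = 3)
    (hdisc : ∀ i, (f i).coeff 2 ^ 2 * (f i).coeff 1 ^ 2 - 4 * (f i).coeff 1 ^ 3 -
      4 * (f i).coeff 2 ^ 3 * (f i).coeff 0 +
      18 * (f i).coeff 2 * (f i).coeff 1 * (f i).coeff 0 - 27 * (f i).coeff 0 ^ 2 ≠ 0)
    {n : ℕ} (hn : 0 < n) (e : Fin n → Fin l) (g : Fin l → k[X])
    (hsep : (∏ i, g i).Separable) (θ : Fin n → M)
    (hg : ∀ i, (g i).map (algebraMap k M) = ∏ j with e j = i, (X - C (θ j)))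
    (hθ : IntermediateField.adjoin L (Set.range θ) = ⊤)
    (s : Fin n → L) (hs : AlgebraicIndependent k s)
    (x : Fin n → M) (hx : ∀ j, x j = ∑ i, algebraMap L M (s i) * θ j ^ (i : ℕ))
    (d : k) (hd0 : d ≠ 0) (w : L)
    (hw : (algebraMap L M w) ^ 2 = algebraMap k M d *
      ∏ j, aeval (x j) ((f (e j)).map (algebraMap κ k)))
    (hL : IntermediateField.adjoin k (insert w (Set.range s)) = ⊤)
    (c : k) (hc : algebraMap k M (c ^ 2) =
      algebraMap k M d * (∏ i, ∏ j ∈ Finset.Ioi i, (θ j - θ i)) ^ 2)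
    (σ : L →+* L)
    (σF : ∀ z ∈ F, σ (algebraMap k L z) = algebraMap k L z ^ Fintype.card κ)
    (σt : ∀ i, σ (algebraMap k L (t i)) = algebraMap k L (t i))
    (σg : ∀ i c, σ (algebraMap k L ((g i).coeff c)) = algebraMap k L ((g i).coeff c))
    (σs : ∀ i, σ (s i) = s i) (σw : σ w = w) (b : ℕ)
    (σc : σ (algebraMap k L c) = (-1) ^ b * algebraMap k L c)
    (π π' : Fin l → ℂ)
    (hsum : ∀ i, π i + π' i = (Fintype.card κ : ℂ) -
      npt ((f i).coeff 2) ((f i).coeff 1) ((f i).coeff 0))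
    (hprod : ∀ i, π i * π' i = (Fintype.card κ : ℂ)) (P : ℤ[X])
    (hP : P.map (Int.castRingHom ℂ) =
      ∏ S : Finset (Fin l), (X - C (∏ i, pick π π' S (e i)))) {N : ℕ}
    (hN : N = Module.finrank k (IntermediateField.adjoin k (Set.range θ)))
    {D : ℕ} (hD : P.natDegree ≤ D)
    {j : ℕ} (hj : 2 ≤ j) {ξ : KM m L} (hξ : Unr ξ) (hξj : ξ ∈ KM.deg m L j) :
    N ^ 3 • ∑ i ∈ Finset.range (D + 1),
      (P.coeff i * ((-1) ^ b * (Fintype.card κ : ℤ) ^ j) ^ i) • (KM.map m σ)^[D - i] ξ = 0 := by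
  have h2k : (2 : k) ≠ 0 := by
    rw [← map_ofNat (algebraMap κ k) 2, Ne, map_eq_zero]; exact h2
  obtain ⟨G, hG⟩ : ∃ G, G = ∏ i, g i := ⟨_, rfl⟩
  rw [← hG] at hsep
  have hGm : G.map (algebraMap k M) = ∏ j, (X - C (θ j)) := by rw [hG]; exact prod_map_eq hg
  have hinj : Function.Injective θ :=
    (exists_perm_of_roots hsep hGm (RingHom.id M) (fun _ => rfl)).1
  have hG0 : G ≠ 0 := hsep.ne_zero
  obtain ⟨f', hf'⟩ : ∃ f' : Fin n → k[X], f' = fun j => (f (e j)).map (algebraMap κ k) :=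
    ⟨_, rfl⟩
  have hf'm : ∀ j, (f' j).Monic := fun j => by rw [hf']; exact (hf _).map _
  have hf'3 : ∀ j, (f' j).natDegree = 3 := fun j => by
    rw [hf']; simp only; rw [(hf _).natDegree_map, hf3]
  have hw' : (algebraMap L M w) ^ 2 = algebraMap k M d * ∏ j, aeval (x j) (f' j) := by
    rw [hf']; exact hw
  obtain ⟨hxi, -⟩ := norm_algInd hG0 hinj hGm hθ hs hL hx hw'
  obtain ⟨δ, hδ⟩ : ∃ δ, δ = (Matrix.vandermonde θ).det := ⟨_, rfl⟩
  have hδ0 : δ ≠ 0 := by
    rw [hδ]; exact Matrix.det_vandermonde_ne_zero_iff.mpr hinj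
  have hδK : δ ∈ IntermediateField.adjoin k (Set.range θ) := by
    rw [hδ, Matrix.det_vandermonde]
    refine prod_mem fun i _ => prod_mem fun j _ => sub_mem ?_ ?_ <;>
    exact IntermediateField.subset_adjoin _ _ ⟨_, rfl⟩
  have hcδ : algebraMap k M c ^ 2 = algebraMap k M d * δ ^ 2 := by
    rw [← map_pow, hc, hδ, Matrix.det_vandermonde]
  have hc0 : algebraMap k M c ≠ 0 := by
    intro h
    rw [h, zero_pow (by norm_num)] at hcδ
    have h3 : algebraMap k M d ≠ 0 := by rw [Ne, map_eq_zero]; exact hd0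
    exact mul_ne_zero h3 (pow_ne_zero 2 hδ0) hcδ.symm
  -- the split cover
  obtain ⟨v, hv⟩ : ∃ v : M, v = δ * algebraMap L M w / algebraMap k M c := ⟨_, rfl⟩
  have hvw : algebraMap L M w = algebraMap k M c * v / δ := by
    rw [hv]; field_simp
  have hv2 : v ^ 2 = ∏ j, aeval (x j) (f' j) := by
    rw [hv, div_pow, mul_pow, hw', hcδ]
    have h3 : algebraMap k M d ≠ 0 := by rw [Ne, map_eq_zero]; exact hd0
    field_simp
  obtain ⟨L₂, hL₂⟩ : ∃ L₂ : IntermediateField k M,
    L₂ = IntermediateField.adjoin k (insert v (Set.range x)) := ⟨_, rfl⟩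
  have hvL : v ∈ L₂ := by
    rw [hL₂]; exact IntermediateField.subset_adjoin _ _ (Or.inl rfl)
  have hxL : ∀ j, x j ∈ L₂ := fun j => by
    rw [hL₂]; exact IntermediateField.subset_adjoin _ _ (Or.inr ⟨j, rfl⟩)
  have hθ' : IntermediateField.adjoin L₂ (Set.range θ) = ⊤ := by
    have h1 : (IntermediateField.adjoin L₂ (Set.range θ)).toSubfield = ⊤ := by
      have hLS : ∀ z ∈ L₂, z ∈ IntermediateField.adjoin L₂ (Set.range θ) := fun z hz =>
        (IntermediateField.adjoin L₂ (Set.range θ)).algebraMap_mem ⟨z, hz⟩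
      have hθS : ∀ j, θ j ∈ IntermediateField.adjoin L₂ (Set.range θ) := fun j =>
        IntermediateField.subset_adjoin _ _ ⟨j, rfl⟩
      have hkS : ∀ c, algebraMap k M c ∈ IntermediateField.adjoin L₂ (Set.range θ) := fun c =>
        hLS _ (L₂.algebraMap_mem c)
      have hδS : δ ∈ IntermediateField.adjoin L₂ (Set.range θ) := by
        rw [hδ, Matrix.det_vandermonde]
        exact prod_mem fun i _ => prod_mem fun j _ => sub_mem (hθS _) (hθS _)
      apply norm_gen_top hinj hθ hL hx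
      · exact hkS
      · exact hθS
      · exact fun j => hLS _ (hxL j)
      · change algebraMap L M w ∈ IntermediateField.adjoin L₂ (Set.range θ)
        rw [hvw]
        exact div_mem (mul_mem (hkS c) (hLS _ hvL)) hδS
    apply IntermediateField.toSubfield_injective
    rw [h1]; rfl
  obtain ⟨hfin, hgal⟩ := isGalois_of_roots (k := k) (F := L) hsep hGm hθ
  obtain ⟨hfin', hgal'⟩ := isGalois_of_roots (k := k) (F := L₂) hsep hGm hθ'
  have hdvd : Module.finrank L M ∣ N := by
    rw [hN]; exact finrank_dvd_of_roots (k := k) (F := L) hsep hGm hθ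
  have hdvd' : Module.finrank L₂ M ∣ N := by
    rw [hN]; exact finrank_dvd_of_roots (k := k) (F := L₂) hsep hGm hθ'
  have hsgn : ∀ π : Equiv.Perm (Fin n), ((Equiv.Perm.sign π : ℤ) : M) *
      ((Equiv.Perm.sign π : ℤ) : M) = 1 := by
    intro π
    rw [← Int.cast_mul]
    have h1 : ((Equiv.Perm.sign π : ℤ)) * (Equiv.Perm.sign π : ℤ) = 1 := by
      rw [← Units.val_mul, Int.units_mul_self]; rfl
    rw [h1, Int.cast_one]
  -- two homomorphisms out of `L` that agree on the generators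
  have extL : ∀ ρ : L →+* M, (∀ c, ρ (algebraMap k L c) = algebraMap k M c) →
      (∀ i, ρ (s i) = algebraMap L M (s i)) → ρ w = algebraMap L M w →
      ∀ z, ρ z = algebraMap L M z := by
    intro ρ h1 h3 h4 z
    have h5 : (IntermediateField.adjoin k (insert w (Set.range s))).toSubfield ≤
        ρ.eqLocusField (algebraMap L M) := by
      apply IntermediateField.adjoin_le_subfield
      · rintro _ ⟨c, rfl⟩
        change ρ (algebraMap k L c) = algebraMap L M (algebraMap k L c)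
        rw [h1, ← IsScalarTower.algebraMap_apply]
      · rintro z (rfl | ⟨i, rfl⟩)
        · exact h4
        · exact h3 i
    exact h5 (show z ∈ IntermediateField.adjoin k (insert w (Set.range s)) by rw [hL]; trivial)
  -- the action on the Vandermonde determinant
  have hσδ : ∀ (σ : M →+* M) (π : Equiv.Perm (Fin n)), (∀ j, σ (θ j) = θ (π j)) →
      σ δ = ((Equiv.Perm.sign π : ℤ) : M) * δ := by
    intro σ π hσθ
    rw [hδ, ← det_vandermonde_perm, Matrix.det_vandermonde, Matrix.det_vandermonde, map_prod]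
    refine Finset.prod_congr rfl fun i _ => ?_
    rw [map_prod]
    refine Finset.prod_congr rfl fun j _ => ?_
    rw [map_sub, hσθ, hσθ]
  have key := fun (π : Equiv.Perm (Fin n)) (hπ : ∀ j, e (π j) = e j) =>
    norm_exists_perm (m := m) hm h2k hG0 hinj hGm hθ hf'm hf'3 hs hL hx hd0 hw' π
      (fun j => by rw [hf']; simp only; rw [hπ])
  -- the classes of the split cover
  obtain ⟨η', hη'u, hη'⟩ : ∃ η : KM m L₂, Unr η ∧ KM.map m (algebraMap L₂ M) η =
      N ^ 2 • KM.map m (algebraMap L M) ξ := by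
    refine exists_unr_of_twisted (L₁ := L) (L₂ := L₂) (M := M) hm hdvd' ?_ hξ
    intro τ
    have hτk : ∀ c, (τ : M →+* M) (algebraMap k M c) = algebraMap k M c := by
      intro c
      rw [IsScalarTower.algebraMap_apply k L₂ M]
      exact τ.commutes _
    obtain ⟨π, hπ, hπe⟩ := exists_perm_of_fix hinj hg (τ : M →+* M) (fun i c => hτk _)
    obtain ⟨κ', κ1, κ2, κ3, κ4⟩ := key π hπe
    have hκθ : ∀ j, κ' (θ j) = θ j := fun j =>
      κ1 _ (IntermediateField.subset_adjoin _ _ ⟨j, rfl⟩)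
    have hκk : ∀ c, κ' (algebraMap k M c) = algebraMap k M c := fun c =>
      κ1 _ ((IntermediateField.adjoin k (Set.range θ)).algebraMap_mem c)
    have hτθ : ∀ j, τ (θ j) = θ (π j) := hπ
    have hτL : ∀ z ∈ L₂, τ z = z := fun z hz => τ.commutes ⟨z, hz⟩
    have hτx : ∀ j, τ (x j) = x j := fun j => hτL _ (hxL j)
    have hτδ : τ δ = ((Equiv.Perm.sign π : ℤ) : M) * δ := hσδ (τ : M →+* M) π hπ
    have hτc : τ (algebraMap k M c) = algebraMap k M c := hτk c
    have hτw : τ (algebraMap L M w) = ((Equiv.Perm.sign π : ℤ) : M) * algebraMap L M w := by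
      rw [hvw, map_div₀, map_mul, hτL v hvL, hτδ, hτc]
      have h3 : ((Equiv.Perm.sign π : ℤ) : M) ≠ 0 := by
        intro h
        have := hsgn π
        rw [h, zero_mul] at this
        exact zero_ne_one this
      field_simp
      linear_combination (-v) * hsgn π
    refine ⟨κ', ?_, κ4⟩
    apply extL ((κ'.comp (τ : M →+* M)).comp (algebraMap L M))
    · intro c
      change κ' (τ (algebraMap L M (algebraMap k L c))) = _
      rw [← IsScalarTower.algebraMap_apply]
      have := hτk c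
      change τ (algebraMap k M c) = _ at this
      rw [this, hκk]
    · have h1 : (fun i => κ' (τ (algebraMap L M (s i)))) = fun i => algebraMap L M (s i) := by
        apply vandermonde_unique hinj
        intro j
        obtain ⟨j', rfl⟩ := π.surjective j
        have h3 := congrArg (fun z => κ' (τ z)) (hx j')
        simp only [map_sum, map_mul, map_pow, hτθ, hκθ] at h3
        rw [← h3, ← hx, hτx, κ2]
      intro i
      exact congrFun h1 i
    · change κ' (τ (algebraMap L M w)) = _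
      rw [hτw, map_mul, map_intCast, κ3, ← mul_assoc, hsgn, one_mul]
  -- the homogeneous component
  obtain ⟨η, hηu, hηj, hη⟩ : ∃ η : KM m L₂, Unr η ∧ η ∈ KM.deg m L₂ j ∧
      KM.map m (algebraMap L₂ M) η = N ^ 2 • KM.map m (algebraMap L M) ξ := by
    refine ⟨KM.proj j η', hη'u.proj j, KM.proj_mem _ j, ?_⟩
    rw [← KM.proj_map, hη', KM.proj_nsmul, KM.proj_of_deg (KM.deg_map _ hξj)]
  -- the extension of `σ`
  rw [hG] at hsep
  obtain ⟨ρ, hρ⟩ := exists_extension_roots hsep hg hθ σ σg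
  rw [← hG] at hsep
  obtain ⟨π₀, hπ₀, hπ₀e⟩ := exists_perm_of_fix hinj hg ρ (fun i c => by
    rw [IsScalarTower.algebraMap_apply k L M, hρ, σg])
  have hρx : ∀ j, ρ (x j) = x (π₀ j) := by
    intro j
    rw [hx j, hx (π₀ j), map_sum]
    refine Finset.sum_congr rfl fun i _ => ?_
    rw [map_mul, map_pow, hρ, σs, hπ₀]
  have hρδ : ρ δ = ((Equiv.Perm.sign π₀ : ℤ) : M) * δ := hσδ ρ π₀ hπ₀
  have hρc : ρ (algebraMap k M c) = (-1) ^ b * algebraMap k M c := by
    rw [IsScalarTower.algebraMap_apply k L M, hρ, σc, map_mul, map_pow, map_neg, map_one]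
  obtain ⟨κ', κ1, κ2, κ3, κ4⟩ := key π₀⁻¹ (fun j => by
    have h1 := hπ₀e (π₀⁻¹ j)
    rw [show π₀ (π₀⁻¹ j) = j from π₀.apply_symm_apply j] at h1
    exact h1.symm)
  have hκk : ∀ c, κ' (algebraMap k M c) = algebraMap k M c := fun c =>
    κ1 _ ((IntermediateField.adjoin k (Set.range θ)).algebraMap_mem c)
  obtain ⟨ρ', hρ'⟩ : ∃ ρ' : M →+* M, ρ' = κ'.comp ρ := ⟨_, rfl⟩
  have hρ'a : ∀ z, ρ' z = κ' (ρ z) := fun z => by rw [hρ']; rfl
  have hρ'x : ∀ j, ρ' (x j) = x j := by
    intro j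
    rw [hρ'a, hρx, κ2, show π₀⁻¹ (π₀ j) = j from π₀.symm_apply_apply j]
  have hρ'v : ρ' v = (-1) ^ b * v := by
    rw [hρ'a, hv, map_div₀, map_mul, hρδ, hρc, hρ, σw, map_div₀, map_mul, map_mul, map_mul,
      map_intCast, κ3, κ1 _ hδK, Equiv.Perm.sign_inv, map_pow, map_neg, map_one, hκk]
    have h3 : ((-1 : M) ^ b) ≠ 0 := pow_ne_zero _ (neg_ne_zero.mpr one_ne_zero)
    have h4 : ((-1 : M) ^ b) * ((-1 : M) ^ b) = 1 := by
      rw [← mul_pow]; simp
    field_simp
    linear_combination (algebraMap L M w) * hsgn π₀ - (algebraMap L M w) * h4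
  have hρ'k : ∀ z : k, ∃ z' : k, σ (algebraMap k L z) = algebraMap k L z' := by
    intro z
    have h1 : (IntermediateField.adjoin F (Set.range t)).toSubfield ≤
        (algebraMap k L).fieldRange.comap (σ.comp (algebraMap k L)) := by
      apply IntermediateField.adjoin_le_subfield
      · rintro _ ⟨y, rfl⟩
        refine ⟨(y : k) ^ Fintype.card κ, ?_⟩
        rw [map_pow]
        exact (σF y y.2).symm
      · rintro _ ⟨i, rfl⟩
        exact ⟨t i, (σt i).symm⟩
    obtain ⟨z', hz'⟩ := h1 (show z ∈ IntermediateField.adjoin F (Set.range t) by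
      rw [hk]; trivial)
    exact ⟨z', hz'.symm⟩
  have hρ'kL : ∀ z : k, ∀ z' : k, σ (algebraMap k L z) = algebraMap k L z' →
      ρ' (algebraMap k M z) = algebraMap k M z' := by
    intro z z' h
    rw [hρ'a, IsScalarTower.algebraMap_apply k L M, hρ, h, ← IsScalarTower.algebraMap_apply, hκk]
  have hρ'L : ∀ z : L₂, ρ' z ∈ L₂ := by
    have h1 : L₂.toSubfield ≤ L₂.toSubfield.comap ρ' := by
      conv_lhs => rw [hL₂]
      apply IntermediateField.adjoin_le_subfield
      · rintro _ ⟨y, rfl⟩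
        obtain ⟨y', hy'⟩ := hρ'k y
        change ρ' (algebraMap k M y) ∈ L₂
        rw [hρ'kL _ _ hy']
        exact L₂.algebraMap_mem y'
      · rintro _ (rfl | ⟨i, rfl⟩)
        · change ρ' _ ∈ L₂
          rw [hρ'v]
          exact mul_mem (pow_mem (neg_mem (one_mem _)) _) hvL
        · change ρ' _ ∈ L₂
          rw [hρ'x]
          exact hxL i
    exact fun z => h1 z.2
  obtain ⟨σ₂, hσ₂⟩ : ∃ σ₂ : L₂ →+* L₂, ∀ z, (σ₂ z : M) = ρ' z :=
    ⟨(ρ'.comp (algebraMap L₂ M)).codRestrict L₂ hρ'L, fun z => rfl⟩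
  -- the equation on the split cover
  obtain ⟨x₂, hx₂⟩ : ∃ x₂ : Fin n → L₂, ∀ j, (x₂ j : M) = x j := ⟨fun j => ⟨x j, hxL j⟩,
    fun j => rfl⟩
  obtain ⟨v₂, hv₂⟩ : ∃ v₂ : L₂, (v₂ : M) = v := ⟨⟨v, hvL⟩, rfl⟩
  have hx₂i : AlgebraicIndependent k x₂ := by
    have h1 : AlgebraicIndependent k (L₂.val ∘ x₂) := by
      have h3 : L₂.val ∘ x₂ = x := funext fun j => hx₂ j
      rw [h3]; exact hxi
    exact h1.of_comp L₂.val
  have hL₂top : IntermediateField.adjoin k (insert v₂ (Set.range x₂)) = ⊤ := by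
    apply IntermediateField.map_injective L₂.val
    rw [IntermediateField.adjoin_map, ← AlgHom.fieldRange_eq_map, IntermediateField.fieldRange_val,
      Set.image_insert_eq, ← Set.range_comp]
    have h3 : L₂.val ∘ x₂ = x := funext fun j => hx₂ j
    rw [h3]
    change IntermediateField.adjoin k (insert (v₂ : M) (Set.range x)) = L₂
    rw [hv₂, hL₂]
  have hcoe : ∀ z : k, ((algebraMap k L₂ z : L₂) : M) = algebraMap k M z := fun z => rfl
  have eq1 := split_cover_frob (m := m) hm h2 F t ht hk (A := fun i => (f i).coeff 2)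
    (B := fun i => (f i).coeff 1) (D := fun i => (f i).coeff 0) hdisc hn e x₂ hx₂i v₂ (by
      apply Subtype.ext
      push_cast
      rw [hv₂, hv2]
      refine Finset.prod_congr rfl fun i _ => ?_
      rw [aeval_monic_cubic (hf'm i) (hf'3 i), hf']
      simp only [coeff_map]
      rw [hx₂]) hL₂top π π' hsum hprod P hP b σ₂
    (by
      intro z hz
      apply Subtype.ext
      rw [hσ₂, hcoe, hρ'kL z (z ^ Fintype.card κ) (by rw [σF z hz, map_pow]), map_pow]
      rfl)
    (by
      intro i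
      apply Subtype.ext
      rw [hσ₂, hcoe, hρ'kL (t i) (t i) (σt i)])
    (by
      intro i
      apply Subtype.ext
      rw [hσ₂, hx₂, hρ'x])
    (by
      apply Subtype.ext
      rw [hσ₂, hv₂, hρ'v]
      push_cast
      rw [hv₂])
    hj hηu hηj hD
  -- transport to `M`
  have hρρ' : ∀ ζ : KM m M, Unr ζ → KM.map m ρ' ζ = KM.map m ρ ζ := by
    intro ζ hζ
    rw [hρ', ← KM.map_map, κ4 _ (hζ.map ρ)]
  have it1 : ∀ (i : ℕ) (ζ : KM m L₂), Unr ζ → (KM.map m ρ)^[i] (KM.map m (algebraMap L₂ M) ζ) =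
      KM.map m (algebraMap L₂ M) ((KM.map m σ₂)^[i] ζ) := by
    intro i
    induction i with
    | zero => intro ζ _; rfl
    | succ i ih =>
      intro ζ hζ
      have h1 : KM.map m ρ (KM.map m (algebraMap L₂ M) ζ) =
          KM.map m (algebraMap L₂ M) (KM.map m σ₂ ζ) := by
        rw [← hρρ' _ (hζ.map _), KM.map_map, KM.map_map]
        congr 2
        ext z
        exact (hσ₂ z).symm
      rw [Function.iterate_succ_apply, Function.iterate_succ_apply, h1, ih _ (hζ.map _)]
  have it2 : ∀ (i : ℕ) (ζ : KM m L), (KM.map m ρ)^[i] (KM.map m (algebraMap L M) ζ) =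
      KM.map m (algebraMap L M) ((KM.map m σ)^[i] ζ) := by
    intro i
    induction i with
    | zero => intro ζ; rfl
    | succ i ih =>
      intro ζ
      have h1 : KM.map m ρ (KM.map m (algebraMap L M) ζ) =
          KM.map m (algebraMap L M) (KM.map m σ ζ) := by
        rw [KM.map_map, KM.map_map]
        congr 2
        ext z
        exact hρ z
      rw [Function.iterate_succ_apply, Function.iterate_succ_apply, h1, ih]
  have itn : ∀ (i c : ℕ) (ζ : KM m M), (KM.map m ρ)^[i] (c • ζ) = c • (KM.map m ρ)^[i] ζ := by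
    intro i
    induction i with
    | zero => intro c ζ; rfl
    | succ i ih =>
      intro c ζ
      rw [Function.iterate_succ_apply, Function.iterate_succ_apply, map_nsmul, ih]
  have eq2 : KM.map m (algebraMap L M) (N ^ 2 • ∑ i ∈ Finset.range (D + 1),
      (P.coeff i * ((-1) ^ b * (Fintype.card κ : ℤ) ^ j) ^ i) • (KM.map m σ)^[D - i] ξ) = 0 := by
    have h1 := congrArg (KM.map m (algebraMap L₂ M)) eq1
    rw [map_zero, map_sum] at h1
    rw [← h1, map_nsmul, map_sum, Finset.smul_sum]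
    refine Finset.sum_congr rfl fun i _ => ?_
    rw [map_zsmul, map_zsmul, ← it1 _ _ hηu, hη, itn, it2, smul_comm]
  have eq3 : Module.finrank L M • (N ^ 2 • ∑ i ∈ Finset.range (D + 1),
      (P.coeff i * ((-1) ^ b * (Fintype.card κ : ℤ) ^ j) ^ i) • (KM.map m σ)^[D - i] ξ) = 0 :=
    finrank_smul_eq_zero hm _ rfl eq2
  obtain ⟨u, hu⟩ := hdvd
  have h5 : N ^ 3 = u * (Module.finrank L M * N ^ 2) := by
    calc N ^ 3 = N * N ^ 2 := by ring
      _ = (Module.finrank L M * u) * N ^ 2 := by rw [← hu]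
      _ = u * (Module.finrank L M * N ^ 2) := by ring
  rw [h5, mul_smul, mul_smul, eq3, smul_zero]

end UnrH3.Ell
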