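import Pool.Agent.Lib.MP_859dd5_ag.Mg.G030

/-!
# The Frobenius on unramified classes of norm forms of elliptic curves

Let `κ` be a finite field with `q` elements, `2 ≠ 0`, let `F` be an algebraic extension of `κ` and
`k = F(t 1, …, t r)`. On the unramified classes of degree at least two of the Milnor K-ring modulo
an odd integer of the variety `w ^ 2 = d * ∏ f (e j) (x j)`, where the `x j` are the conjugates of
the generic point of an étale algebra over `k` whose factors are labelled by monic separable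
cubics over `κ`, the arithmetic Frobenius satisfies, up to bounded exponent, an explicit
polynomial equation whose roots come from the Frobenius eigenvalues of the elliptic curves.
-/

namespace Pool.Agent.Lib.MP_859dd5_ag.EllipticFrobeniusKept

open UnrH3 Polynomial

universe u v

theorem result {m : ℕ} (hm : Odd m) {κ : Type v} {k L M : Type u} [Field κ] [Finite κ]
    [Field k] [Field L] [Field M] [Algebra κ k] [Algebra k L] [Algebra k M] [Algebra L M]
    [IsScalarTower k L M] (h2 : (2 : κ) ≠ 0) {q : ℕ} (hq : Nat.card κ = q) (hqm : q.Coprime m)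
    (F : IntermediateField κ k) [Algebra.IsAlgebraic κ F] {r : ℕ} (t : Fin r → k)
    (ht : AlgebraicIndependent F t) (hk : IntermediateField.adjoin F (Set.range t) = ⊤)
    {l n : ℕ} (hn : 0 < n) (f : Fin l → κ[X]) (hf : ∀ i, (f i).Monic)
    (hf3 : ∀ i, (f i).natDegree = 3) (hfs : ∀ i, (f i).Separable) (e : Fin n → Fin l)
    (g : Fin l → k[X]) (hsep : (∏ i, g i).Separable) (θ : Fin n → M)
    (hg : ∀ i, (g i).map (algebraMap k M) = ∏ j with e j = i, (X - C (θ j)))
    (hθ : IntermediateField.adjoin L (Set.range θ) = ⊤)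
    (s : Fin n → L) (hs : AlgebraicIndependent k s)
    (x : Fin n → M) (hx : ∀ j, x j = ∑ i, algebraMap L M (s i) * θ j ^ (i : ℕ))
    (d : k) (hd : d ≠ 0) (w : L)
    (hw : (algebraMap L M w) ^ 2 = algebraMap k M d *
      ∏ j, aeval (x j) ((f (e j)).map (algebraMap κ k)))
    (hL : IntermediateField.adjoin k (insert w (Set.range s)) = ⊤)
    (c : k) (hc : algebraMap k M (c ^ 2) =
      algebraMap k M d * (∏ i, ∏ j ∈ Finset.Ioi i, (θ j - θ i)) ^ 2)
    (σ : L →+* L) (σF : ∀ y ∈ F, σ (algebraMap k L y) = algebraMap k L y ^ q)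
    (σt : ∀ i, σ (algebraMap k L (t i)) = algebraMap k L (t i))
    (σg : ∀ i a, σ (algebraMap k L ((g i).coeff a)) = algebraMap k L ((g i).coeff a))
    (σs : ∀ i, σ (s i) = s i) (σw : σ w = w) (b : ℕ)
    (σc : σ (algebraMap k L c) = (-1) ^ b * algebraMap k L c) (π : Fin l → ℂ)
    (hπ : ∀ i, π i ^ 2 -
      (q - Nat.card {uv : κ × κ // uv.2 ^ 2 = (f i).eval uv.1}) * π i + q = 0)
    (P : ℤ[X]) (hP : P.map (Int.castRingHom ℂ) = ∏ S : Finset (Fin l), (X - C (∏ j,
      if e j ∈ S then π (e j) else starRingEnd ℂ (π (e j)))))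
    (N : ℕ) (hN : N = Module.finrank k (IntermediateField.adjoin k (Set.range θ))) :
    (∀ j ≥ 2, ∀ ξ ∈ KM.deg m L j, Unr ξ →
      N ^ 3 • ∑ i ∈ Finset.range (2 ^ l + 1),
        (P.coeff i * ((-1) ^ b * (q : ℤ) ^ j) ^ i) • (KM.map m σ)^[2 ^ l - i] ξ = 0 ∧
      ∀ a ≤ j, KM.map m σ ξ = (q : ℤ) ^ a • ξ →
        ((N : ℤ) ^ 3 * P.eval ((-1) ^ b * (q : ℤ) ^ (j - a))) • ξ = 0) ∧
    ∀ i, n ≠ 2 * i → P.eval ((-1) ^ b * (q : ℤ) ^ i) ≠ 0 := by
  classical
  let _ : Fintype κ := Fintype.ofFinite κ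
  have hq' : Fintype.card κ = q := by rw [← hq, Nat.card_eq_fintype_card]
  have hq1 : 1 < q := by
    rw [← hq']; exact Fintype.one_lt_card
  have hdisc := fun i => Ell.cubic_disc (hf i) (hf3 i) (hfs i)
  have hnpt := fun i => Ell.npt_eq (hf i) (hf3 i)
  have heig : ∀ i, π i + starRingEnd ℂ (π i) = (q : ℂ) -
        Ell.npt ((f i).coeff 2) ((f i).coeff 1) ((f i).coeff 0) ∧
      π i * starRingEnd ℂ (π i) = (q : ℂ) := by
    intro i
    have h1 := Ell.hasse_bound h2 (hdisc i)
    rw [hq'] at h1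
    have h3 := hπ i
    rw [hnpt i] at h3
    have h4 := Ell.eigen (q := (q : ℤ)) h1 (z := π i) (by push_cast; exact h3)
    refine ⟨?_, ?_⟩
    · rw [h4.1]; push_cast; rfl
    · rw [h4.2]; push_cast; rfl
  have hP' : P.map (Int.castRingHom ℂ) = ∏ S : Finset (Fin l), (X - C (∏ j,
      Ell.pick π (fun i => starRingEnd ℂ (π i)) S (e j))) := by
    rw [hP]
    refine Finset.prod_congr rfl fun S _ => ?_
    have h1 : (∏ j, if e j ∈ S then π (e j) else starRingEnd ℂ (π (e j))) =
        ∏ j, Ell.pick π (fun i => starRingEnd ℂ (π i)) S (e j) := by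
      refine Finset.prod_congr rfl fun j _ => ?_
      unfold Ell.pick
      split_ifs <;> rfl
    rw [h1]
  have hD : P.natDegree = 2 ^ l := Ell.natDegree_eq e (fun S j =>
    if e j ∈ S then π (e j) else starRingEnd ℂ (π (e j))) hP
  refine ⟨fun j hj ξ hξj hξ => ?_, fun i hi => Ell.eval_ne_zero hq1 e π (fun i => (heig i).2)
    hP b i hi⟩
  have key := Ell.norm_cover_frob hm h2 F t ht hk f hf hf3 hdisc hn e g hsep θ hg hθ s hs x hx d
    hd w hw hL c hc σ (fun z hz => by rw [hq']; exact σF z hz) σt σg σs σw b σc π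
    (fun i => starRingEnd ℂ (π i)) (fun i => by rw [hq']; exact (heig i).1)
    (fun i => by rw [hq']; exact (heig i).2) P hP' hN hD.le hj hξ hξj
  rw [hq'] at key
  refine ⟨key, fun a ha hσ => ?_⟩
  have hit : ∀ i : ℕ, (KM.map m σ)^[i] ξ = ((q : ℤ) ^ (a * i)) • ξ := by
    intro i
    induction i with
    | zero => rw [mul_zero, pow_zero, one_smul]; rfl
    | succ i ih =>
      rw [Function.iterate_succ_apply', ih, map_zsmul, hσ, smul_smul]
      congr 1
      ring
  have h3 : ∑ i ∈ Finset.range (2 ^ l + 1),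
      (P.coeff i * ((-1) ^ b * (q : ℤ) ^ j) ^ i) • (KM.map m σ)^[2 ^ l - i] ξ =
      ((q ^ (a * 2 ^ l) : ℕ) : ℤ) • (P.eval ((-1) ^ b * (q : ℤ) ^ (j - a)) • ξ) := by
    rw [smul_smul, ← hD, eval_eq_sum_range, Finset.mul_sum, Finset.sum_smul]
    refine Finset.sum_congr rfl fun i hi => ?_
    rw [Finset.mem_range] at hi
    rw [hit, smul_smul]
    congr 1
    have h4 : (q : ℤ) ^ j = (q : ℤ) ^ a * (q : ℤ) ^ (j - a) := by
      rw [← pow_add]; congr 1; omega
    have h5 : (q : ℤ) ^ (a * P.natDegree) = (q : ℤ) ^ (a * (P.natDegree - i)) *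
        ((q : ℤ) ^ a) ^ i := by
      rw [← pow_mul, ← pow_add, ← mul_add]; congr 2; omega
    rw [h4]
    push_cast
    rw [h5]
    ring
  rw [h3, smul_comm, natCast_zsmul] at key
  have h6 : (q ^ (a * 2 ^ l) : ℕ).Coprime m := Nat.Coprime.pow_left _ hqm
  have h7 := smul_eq_zero_of_coprime h6 key
  rw [← h7, ← natCast_zsmul (_ • ξ), smul_smul]
  push_cast
  rfl

end Pool.Agent.Lib.MP_859dd5_ag.EllipticFrobeniusKept
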