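import Pool.Agent.Lib.MP_859dd5_ag.Mg.G064

/-!
# Semilinear endomorphisms of twisted covers
-/

namespace UnrH3

universe u v w

open Polynomial
open scoped Classical

variable {m : ℕ} {Λ : Type u} [Field Λ] {n : ℕ}

/-- Semilinear endomorphisms of two twisted covers with the same invariant are compatible. -/
theorem Tw.equi [IsAlgClosed Λ] (hm : Odd m) (h2 : (2 : Λ) ≠ 0) {k k₁ C M : Subfield Λ}
    {X Y x a s x' a' s' : Fin n → Λ} {d δ w d' δ' w' : Λ} {ι : Λ} (hι : ι ^ 2 = -1) (hk₁ : k₁ ≤ k)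
    (hιk : ι ∈ k₁) {S : Set Λ} (hS : S.Finite) (hS4 : ∀ z ∈ S, z ^ 4 ∈ k₁) (hC : C = adj k S)
    (T : Tw k C X Y x a s d δ w) (T' : Tw k C X Y x' a' s' d' δ' w')
    (ha : ∀ j, a j ∈ k₁) (ha' : ∀ j, a' j ∈ k₁) (hd : d ∈ k₁) (hd' : d' ∈ k₁)
    {ρ : Λ} (hρ : ρ ∈ k₁) (hρ' : δ' * ∏ j, s' j = ρ * (δ * ∏ j, s j)) (hX : IndFam C X)
    (hY : ∀ j, Y j ^ 2 = X j ^ 3 - X j) (hM : M = adj C (Set.range X ∪ Set.range Y))
    (hL : twF k x w ≤ M) (hL' : twF k x' w' ≤ M)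
    (σ : twF k x w →+* twF k x w) (σ' : twF k x' w' →+* twF k x' w')
    (hσk : ∀ z : twF k x w, (z : Λ) ∈ k → (σ z : Λ) ∈ k)
    (hσσ' : ∀ (z : twF k x w) (z' : twF k x' w'), (z : Λ) = z' → (z : Λ) ∈ k →
      (σ' z' : Λ) = σ z)
    (hσ₁ : ∀ z : twF k x w, (z : Λ) ∈ k₁ → σ z = z)
    (hσx : ∀ j, ∀ z : twF k x w, (z : Λ) = x j → σ z = z)
    (hσw : ∀ z : twF k x w, (z : Λ) = w → σ z = z)
    (hσ'x : ∀ j, ∀ z : twF k x' w', (z : Λ) = x' j → σ' z = z)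
    (hσ'w : ∀ z : twF k x' w', (z : Λ) = w' → σ' z = z) :
    ∃ g : M →+* M,
      (∀ z : twF k x' w', g (Subfield.inclusion hL' z) = Subfield.inclusion hL' (σ' z)) ∧
      ∀ ξ : KM m (twF k x w), Unr ξ → KM.map m g (up m hL ξ) = up m hL (KM.map m σ ξ) := by
  have hkC : k ≤ C := by rw [hC]; exact le_adj _ _
  have hCM : C ≤ M := by rw [hM]; exact le_adj _ _
  have hS4' : ∀ z ∈ S, z ^ 4 ∈ k := fun z hz => hk₁ (hS4 z hz)
  have hιC : ι ∈ C := hkC (hk₁ hιk)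
  have htower := T'.tower hS hS4' hC hY hM
  have hδ0 : δ ≠ 0 := by
    rintro h
    exact T.hd0 (by rw [← T.hδ, h]; simp)
  have hδ'0 : δ' ≠ 0 := by
    rintro h
    exact T'.hd0 (by rw [← T'.hδ, h]; simp)
  have hs'0 : ∏ j, s' j ≠ 0 := Finset.prod_ne_zero_iff.mpr fun j _ => T'.hs0 j
  have hρ0 : ρ ≠ 0 := by
    rintro rfl
    rw [zero_mul] at hρ'
    exact mul_ne_zero hδ'0 hs'0 hρ'
  have hww : w = d' / (ρ ^ 3 * d) * w' := by
    have h3 : (ρ ^ 3 * d) * w = d' * w' := by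
      rw [T.hw, T'.hw, ← T.hδ, ← T'.hδ]
      have h4 : ∀ f : Fin n → Λ, ∏ j, f j ^ 3 = (∏ j, f j) ^ 3 := fun f => Finset.prod_pow _ _ _
      rw [h4, h4]
      linear_combination (-((δ' * ∏ j, s' j) ^ 2 + (δ' * ∏ j, s' j) * (ρ * (δ * ∏ j, s j)) +
        (ρ * (δ * ∏ j, s j)) ^ 2) * ∏ j, Y j) * hρ'
    have h5 : ρ ^ 3 * d ≠ 0 := mul_ne_zero (pow_ne_zero 3 hρ0) T.hd0
    rw [div_mul_eq_mul_div, eq_div_iff h5]
    linear_combination h3
  have hxx : ∀ j, x j ^ 2 = a j / a' j * x' j ^ 2 := by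
    intro j
    rw [T.hx, T'.hx, ← T.hs, ← T'.hs]
    have := T'.hs0 j
    field_simp
  obtain ⟨g₀, hg₀⟩ := exists_extension_sub hL' htower.subset_cl
    ((twF k x' w').subtype.comp σ')
  have hg₀' : ∀ z : M, ∀ hz : (z : Λ) ∈ twF k x' w', g₀ z = σ' ⟨z, hz⟩ := by
    intro z hz
    exact hg₀ ⟨z, hz⟩
  have gk : ∀ z : M, ∀ hz : (z : Λ) ∈ k, g₀ z = σ ⟨z, k_le_twF hz⟩ := by
    intro z hz
    rw [hg₀' z (k_le_twF hz)]
    exact hσσ' _ _ rfl hz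
  have gk₁ : ∀ z : M, (z : Λ) ∈ k₁ → g₀ z = z := by
    intro z hz
    rw [gk z (hk₁ hz), hσ₁ _ hz]
  have gx' : ∀ j, ∀ z : M, (z : Λ) = x' j → g₀ z = z := by
    intro j z hz
    rw [hg₀' z (by rw [hz]; exact x_mem_twF j), hσ'x j _ hz]
  have gw' : ∀ z : M, (z : Λ) = w' → g₀ z = z := by
    intro z hz
    rw [hg₀' z (by rw [hz]; exact w_mem_twF), hσ'w _ hz]
  have hιM : ι ∈ M := hCM hιC
  have g4 : ∀ z : M, (z : Λ) ^ 4 ∈ k₁ → g₀ z ∈ M := by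
    intro z hz
    apply mem_of_pow_four hι hιM z.2
    rw [← map_pow]
    exact gk₁ (z ^ 4) hz
  have hgC : ∀ z : M, (z : Λ) ∈ C → g₀ z ∈ M := by
    have : C ≤ (M.comap g₀).map M.subtype := by
      rw [hC]
      apply adj_le
      · intro z hz
        refine ⟨⟨z, hCM (hkC hz)⟩, ?_, rfl⟩
        change g₀ _ ∈ M
        rw [gk _ hz]
        exact hL (σ _).2
      · intro z hz
        have hzM : z ∈ M := hCM (by rw [hC]; exact subset_adj _ _ hz)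
        exact ⟨⟨z, hzM⟩, g4 ⟨z, hzM⟩ (hS4 z hz), rfl⟩
    intro z hz
    obtain ⟨z', hz', he⟩ := this hz
    have : z' = z := Subtype.ext he
    rw [← this]; exact hz'
  have hXM : ∀ i, X i ∈ M := fun i => by rw [hM]; exact subset_adj _ _ (Or.inl ⟨i, rfl⟩)
  have hYM : ∀ i, Y i ∈ M := fun i => by rw [hM]; exact subset_adj _ _ (Or.inr ⟨i, rfl⟩)
  have hx'M : ∀ i, x' i ∈ M := fun i => hL' (x_mem_twF i)
  have hgX : ∀ i, g₀ ⟨X i, hXM i⟩ = X i ∨ g₀ ⟨X i, hXM i⟩ = - X i := by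
    intro i
    apply sq_eq_sq_iff_eq_or_eq_neg.mp
    have h3 : X i ^ 2 = x' i ^ 2 / a' i := by
      rw [T'.hx, ← T'.hs]
      have := T'.hs0 i
      field_simp
    have h4 : (⟨X i, hXM i⟩ : M) ^ 2 = ⟨x' i, hx'M i⟩ ^ 2 / ⟨a' i, hCM (hkC (T'.ha i))⟩ :=
      Subtype.ext h3
    rw [← map_pow, h4, map_div₀, map_pow, gk₁ ⟨a' i, _⟩ (ha' i), gx' i ⟨x' i, _⟩ rfl]
    exact h3.symm
  have hgY : ∀ i, g₀ ⟨Y i, hYM i⟩ ∈ M := by
    intro i
    have h3 : (⟨Y i, hYM i⟩ : M) ^ 2 = ⟨X i, hXM i⟩ ^ 3 - ⟨X i, hXM i⟩ := Subtype.ext (hY i)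
    have h4 := congrArg g₀ h3
    rw [map_pow, map_sub, map_pow] at h4
    apply mem_of_pow_four hι hιM (hYM i)
    have h5 : g₀ ⟨Y i, hYM i⟩ ^ 4 = (g₀ ⟨Y i, hYM i⟩ ^ 2) ^ 2 := by ring
    have h6 : Y i ^ 4 = (Y i ^ 2) ^ 2 := by ring
    rw [h5, h6, h4, hY]
    rcases hgX i with h7 | h7
    · rw [h7]
    · rw [h7]; ring
  have hgM : ∀ z : M, g₀ z ∈ M := by
    intro z
    have hfin : M ≤ (M.comap g₀).map M.subtype := by
      conv_lhs => rw [hM]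
      apply adj_le
      · intro z hz
        exact ⟨⟨z, hCM hz⟩, hgC ⟨z, hCM hz⟩ hz, rfl⟩
      · rintro z (⟨i, rfl⟩ | ⟨i, rfl⟩)
        · refine ⟨⟨X i, hXM i⟩, ?_, rfl⟩
          change g₀ _ ∈ M
          rcases hgX i with h7 | h7
          · rw [h7]; exact hXM i
          · rw [h7]; exact neg_mem (hXM i)
        · exact ⟨⟨Y i, hYM i⟩, hgY i, rfl⟩
    obtain ⟨z', hz', he⟩ := hfin z.2
    have : z' = z := Subtype.ext he
    rw [← this]; exact hz'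
  obtain ⟨g, hg⟩ : ∃ g : M →+* M, ∀ z, (g z : Λ) = g₀ z :=
    ⟨g₀.codRestrict M hgM, fun _ => rfl⟩
  have gkσ : ∀ z : twF k x w, (z : Λ) ∈ k → (g (Subfield.inclusion hL z) : Λ) = σ z := by
    intro z hz
    rw [hg]
    exact gk _ hz
  refine ⟨g, ?_, ?_⟩
  · intro z
    apply Subtype.ext
    rw [hg]
    exact hg₀ z
  · intro ξ hξ
    -- classes from the base
    have hk : ∀ η : KM m (twF k x w), From k (twF k x w) η →
        KM.map m g (up m hL η) = up m hL (KM.map m σ η) := by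
      rintro η ⟨h, η', hη', rfl⟩
      rw [up_up, KM.map_map, KM.map_map, KM.map_map]
      congr 2
      ext z
      exact gkσ ⟨z, h z.2⟩ z.2
    rcases T.split hm h2 hkC hX hY ξ hξ with h | ⟨η, ζ, τ, hη, hζ, hξ', t1, t2, t3, t4, -⟩
    · exact hk ξ h
    · rw [hξ', map_add, map_add, map_add, map_add, hk η hη]
      congr 1
      refine T.lift hm h2 hι hιC hkC hX hY hM hL t1 t2 t3 t4 hζ σ hσk hσx hσw g gkσ ?_ ?_ ?_ ?_
      · intro j z hz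
        apply sq_eq_sq_iff_eq_or_eq_neg.mp
        apply Subtype.ext
        push_cast
        have h3 : z ^ 2 = ⟨a j, hCM (hkC (T.ha j))⟩ / ⟨a' j, hCM (hkC (T'.ha j))⟩ *
            ⟨x' j, hx'M j⟩ ^ 2 := by
          apply Subtype.ext
          push_cast
          rw [hz]; exact hxx j
        rw [hg, ← map_pow, h3, map_mul, map_div₀, map_pow, gk₁ _ (ha j), gk₁ _ (ha' j),
          gx' j _ rfl, hz, hxx]
      · intro z hz
        apply Subtype.ext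
        have h3 : z = ⟨d', hCM (hkC T'.hd)⟩ / (⟨ρ, hCM (hkC (hk₁ hρ))⟩ ^ 3 *
            ⟨d, hCM (hkC T.hd)⟩) * ⟨w', hL' w_mem_twF⟩ := by
          apply Subtype.ext
          push_cast
          rw [hz]; exact hww
        rw [hg]
        conv_lhs => rw [h3]
        rw [map_mul, map_div₀, map_mul, map_pow, gk₁ _ hd', gk₁ _ hρ, gk₁ _ hd, gw' _ rfl, hz]
        exact hww.symm
      · intro j z hz
        apply Subtype.ext
        rw [hg]
        exact gk₁ z (by rw [hz]; exact ha j)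
      · intro z hz
        apply Subtype.ext
        rw [hg]
        exact gk₁ z (by rw [hz]; exact hd)

end UnrH3
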