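import Pool.Agent.Lib.MP_859dd5_ag.Mg.G065

/-!
# The invariant derivation of the curve `y² = x³ - x`
-/

namespace UnrH3

universe u v w

open Polynomial WeierstrassCurve
open scoped Classical

section deriv

variable (S : Type v) [Field S] (K : Type u) [Field K] [Algebra S K]

/-- The derivation on polynomials. -/
noncomputable def dP : K[X] →+* DualNumber (FF (Wi S) K) :=
  eval₂RingHom ((TrivSqZeroExt.inlHom (FF (Wi S) K) (FF (Wi S) K)).comp
    (base (Wi S) K : K →+* FF (Wi S) K))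
    (TrivSqZeroExt.inl (gx (Wi S) K) + TrivSqZeroExt.inr (2 * gy (Wi S) K))

/-- The first component as a homomorphism. -/
noncomputable def fstH : DualNumber (FF (Wi S) K) →+* FF (Wi S) K :=
  (TrivSqZeroExt.fstHom (FF (Wi S) K) (FF (Wi S) K) (FF (Wi S) K) :
    DualNumber (FF (Wi S) K) →+* FF (Wi S) K)

lemma fstH_apply (z : DualNumber (FF (Wi S) K)) : fstH S K z = z.fst := rfl

lemma fst_dP (f : K[X]) : (dP S K f).fst = ratHom (Wi S) K (algebraMap K[X] (RatFunc K) f) := by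
  have h : (fstH S K).comp (dP S K) = (ratHom (Wi S) K).comp (algebraMap K[X] (RatFunc K)) := by
    apply Polynomial.ringHom_ext
    · intro a
      simp only [RingHom.comp_apply]
      rw [← algebraMap_ratFunc_eq, ratHom_algebraMap, fstH_apply, dP, coe_eval₂RingHom, eval₂_C]
      rfl
    · simp only [RingHom.comp_apply]
      rw [fstH_apply, dP, coe_eval₂RingHom, eval₂_X, RatFunc.algebraMap_X]
      simp [gx]
  exact congrArg (fun f' : K[X] →+* FF (Wi S) K => f' f) h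

lemma dP_unit (f : nonZeroDivisors K[X]) : IsUnit (dP S K f) := by
  rw [TrivSqZeroExt.isUnit_iff_isUnit_fst, fst_dP, isUnit_iff_ne_zero]
  intro h
  rw [map_eq_zero, map_eq_zero_iff _ (IsFractionRing.injective K[X] (RatFunc K))] at h
  exact nonZeroDivisors.coe_ne_zero f h

/-- The derivation on rational functions. -/
noncomputable def dR : RatFunc K →+* DualNumber (FF (Wi S) K) :=
  IsLocalization.lift (M := nonZeroDivisors K[X]) (g := dP S K) (dP_unit S K)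

lemma dR_algebraMap (f : K[X]) : dR S K (algebraMap K[X] (RatFunc K) f) = dP S K f :=
  IsLocalization.lift_eq _ _

lemma fst_dR (r : RatFunc K) : (dR S K r).fst = ratHom (Wi S) K r := by
  have h : (fstH S K).comp (dR S K) = ratHom (Wi S) K := by
    apply IsLocalization.ringHom_ext (nonZeroDivisors K[X])
    ext f
    · simp only [RingHom.comp_apply]
      rw [dR_algebraMap, fstH_apply, fst_dP]
    · simp only [RingHom.comp_apply]
      rw [dR_algebraMap, fstH_apply, fst_dP]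
  exact congrArg (fun f' : RatFunc K →+* FF (Wi S) K => f' r) h

lemma dR_X : dR S K RatFunc.X =
    TrivSqZeroExt.inl (gx (Wi S) K) + TrivSqZeroExt.inr (2 * gy (Wi S) K) := by
  rw [← RatFunc.algebraMap_X, dR_algebraMap, dP, coe_eval₂RingHom, eval₂_X]

/-- The image of the second coordinate. -/
noncomputable def dy : DualNumber (FF (Wi S) K) :=
  TrivSqZeroExt.inl (gy (Wi S) K) + TrivSqZeroExt.inr (3 * gx (Wi S) K ^ 2 - 1)

variable [hG : GoodW (Wi S)]

lemma dR_eval : (ffPoly (Wi S) K).eval₂ (dR S K) (dy S K) = 0 := by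
  unfold ffPoly
  rw [eval₂_map]
  have hx : dR S K (algebraMap K[X] (RatFunc K) X) =
      TrivSqZeroExt.inl (gx (Wi S) K) + TrivSqZeroExt.inr (2 * gy (Wi S) K) := by
    rw [RatFunc.algebraMap_X, dR_X]
  unfold Affine.polynomial
  rw [Wi_a₁, Wi_a₂, Wi_a₃, Wi_a₄, Wi_a₆]
  simp only [eval₂_sub, eval₂_add, eval₂_pow, eval₂_X, eval₂_mul, eval₂_C, RingHom.comp_apply,
    map_add, map_mul, map_pow, hx, map_zero, map_neg, map_one, zero_mul, add_zero]
  have h := gy_sq (S := S) (K := K)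
  unfold dy
  apply TrivSqZeroExt.ext
  · simp [pow_succ, pow_zero]
    linear_combination h
  · simp [pow_succ, pow_zero]
    ring

/-- The invariant derivation as a homomorphism to the dual numbers. -/
noncomputable def dF : FF (Wi S) K →+* DualNumber (FF (Wi S) K) :=
  AdjoinRoot.lift (dR S K) (dy S K) (dR_eval S K)

lemma dF_ratHom (r : RatFunc K) : dF S K (ratHom (Wi S) K r) = dR S K r :=
  AdjoinRoot.lift_of (dR_eval S K)

lemma dF_gy : dF S K (gy (Wi S) K) = dy S K := AdjoinRoot.lift_root (dR_eval S K)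

lemma fst_dF (z : FF (Wi S) K) : (dF S K z).fst = z := by
  obtain ⟨a, b, rfl⟩ := (isQuad_gy (Wi S) K).span z
  rw [map_add, map_mul, dF_ratHom, dF_ratHom, dF_gy]
  simp [fst_dR, dy]

variable {S K}

/-- The invariant derivation. -/
noncomputable def dD (z : FF (Wi S) K) : FF (Wi S) K := (dF S K z).snd

lemma dD_add (a b : FF (Wi S) K) : dD (a + b) = dD a + dD b := by
  unfold dD
  rw [map_add, TrivSqZeroExt.snd_add]

lemma dD_sub (a b : FF (Wi S) K) : dD (a - b) = dD a - dD b := by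
  unfold dD
  rw [map_sub, TrivSqZeroExt.snd_sub]

lemma dD_neg (a : FF (Wi S) K) : dD (-a) = -dD a := by
  unfold dD
  rw [map_neg, TrivSqZeroExt.snd_neg]

lemma dD_mul (a b : FF (Wi S) K) : dD (a * b) = a * dD b + b * dD a := by
  unfold dD
  rw [map_mul, TrivSqZeroExt.snd_mul, fst_dF, fst_dF]
  simp [mul_comm]

lemma dD_one : dD (1 : FF (Wi S) K) = 0 := by
  unfold dD
  rw [map_one, TrivSqZeroExt.snd_one]

lemma dD_pow (a : FF (Wi S) K) (n : ℕ) : dD (a ^ (n + 1)) = (n + 1) * a ^ n * dD a := by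
  induction n with
  | zero => simp
  | succ n ih =>
    rw [pow_succ, dD_mul, ih]
    push_cast
    ring

lemma dD_base (c : K) : dD (base (Wi S) K c) = 0 := by
  unfold dD
  rw [← ratHom_algebraMap, dF_ratHom, algebraMap_ratFunc_eq, dR_algebraMap, dP, coe_eval₂RingHom,
    eval₂_C]
  rfl

lemma dD_gx : dD (gx (Wi S) K) = 2 * gy (Wi S) K := by
  unfold dD
  rw [gx, dF_ratHom, dR_X]
  simp

lemma dD_gy : dD (gy (Wi S) K) = 3 * gx (Wi S) K ^ 2 - 1 := by
  unfold dD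
  rw [dF_gy, dy]
  simp

lemma inv_core {X₁ Y₁ X₂ Y₂ L c₁ c₂ X₃ Y₃ : FF (Wi S) K} (hL : Y₂ - Y₁ = L * (X₂ - X₁))
    (h0 : L * (Y₁ + Y₂) = X₁ ^ 2 + X₁ * X₂ + X₂ ^ 2 - 1) (h3 : X₃ = L ^ 2 - X₁ - X₂)
    (h3' : Y₃ = -(Y₁ + L * (X₃ - X₁)))
    (d1 : dD X₁ = 2 * c₁ * Y₁) (d1' : dD Y₁ = (3 * X₁ ^ 2 - 1) * c₁)
    (d2 : dD X₂ = 2 * c₂ * Y₂)
    (dL : dD L = c₁ * (X₁ - X₃) + c₂ * (X₂ - X₃)) :
    dD X₃ = 2 * (c₁ + c₂) * Y₃ ∧ dD Y₃ = (3 * X₃ ^ 2 - 1) * (c₁ + c₂) := by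
  have e1 : dD X₃ = 2 * L * dD L - dD X₁ - dD X₂ := by
    rw [h3, dD_sub, dD_sub, sq, dD_mul]; ring
  have e2 : dD X₃ = 2 * (c₁ + c₂) * Y₃ := by
    rw [e1, dL, d1, d2, h3']
    linear_combination (-2 * c₂) * hL
  refine ⟨e2, ?_⟩
  have e3 : dD Y₃ = -(dD Y₁ + (L * (dD X₃ - dD X₁) + (X₃ - X₁) * dD L)) := by
    conv_lhs => rw [h3']
    rw [dD_neg, dD_add, dD_mul, dD_sub]
  rw [e3, e2, d1, d1', dL, h3', h3]
  linear_combination (2 * c₁ + c₂) * h0 - (2 * c₁ + c₂) * L * hL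

/-- The pullback of the invariant differential by the point `A` is given by `c`. -/
def Inv (A : Pt (Wi S) (FF (Wi S) K)) (c : FF (Wi S) K) : Prop :=
  (A = 0 ∧ c = 0) ∨ (A ≠ 0 ∧ dD (ptX A) = 2 * c * ptY A ∧
    dD (ptY A) = (3 * ptX A ^ 2 - 1) * c)

omit hG in
lemma Wi_add_some {Ω : Type w} [Field Ω] [Algebra S Ω] {x₁ y₁ x₂ y₂ : Ω}
    (h₁ : ((Wi S)⁄Ω).toAffine.Nonsingular x₁ y₁) (h₂ : ((Wi S)⁄Ω).toAffine.Nonsingular x₂ y₂)
    (h : ¬ (x₁ = x₂ ∧ y₁ = -y₂)) :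
    ∃ L : Ω, y₂ - y₁ = L * (x₂ - x₁) ∧ L * (y₁ + y₂) = x₁ ^ 2 + x₁ * x₂ + x₂ ^ 2 - 1 ∧
      (.some x₁ y₁ h₁ + .some x₂ y₂ h₂ : Pt (Wi S) Ω) ≠ 0 ∧
      ptX (.some x₁ y₁ h₁ + .some x₂ y₂ h₂ : Pt (Wi S) Ω) = L ^ 2 - x₁ - x₂ ∧
      ptY (.some x₁ y₁ h₁ + .some x₂ y₂ h₂ : Pt (Wi S) Ω) =
        -(y₁ + L * (ptX (.some x₁ y₁ h₁ + .some x₂ y₂ h₂ : Pt (Wi S) Ω) - x₁)) := by
  have e₁ := Wi_eq h₁
  have e₂ := Wi_eq h₂
  have hxy : ¬(x₁ = x₂ ∧ y₁ = ((Wi S)⁄Ω).toAffine.negY x₂ y₂) := by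
    rw [Wi_negY]; exact h
  refine ⟨((Wi S)⁄Ω).toAffine.slope x₁ x₂ y₁ y₂, ?_, ?_, ?_, ?_, ?_⟩
  · by_cases hx : x₁ = x₂
    · subst hx
      have h3 : (y₂ - y₁) * (y₂ + y₁) = 0 := by linear_combination e₂ - e₁
      rcases mul_eq_zero.mp h3 with h4 | h4
      · linear_combination h4
      · exact absurd ⟨rfl, by linear_combination h4⟩ h
    · rw [Affine.slope_of_X_ne hx]
      have hx' : x₁ - x₂ ≠ 0 := sub_ne_zero.mpr hx
      field_simp
      ring
  · by_cases hx : x₁ = x₂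
    · subst hx
      have hy' : y₁ ≠ ((Wi S)⁄Ω).toAffine.negY x₁ y₂ := fun h' => hxy ⟨rfl, h'⟩
      have h3 : (y₂ - y₁) * (y₂ + y₁) = 0 := by linear_combination e₂ - e₁
      have h4 : y₂ = y₁ := by
        rcases mul_eq_zero.mp h3 with h4 | h4
        · linear_combination h4
        · exact absurd ⟨rfl, by linear_combination h4⟩ h
      subst h4
      have h5 : 2 * y₂ ≠ 0 := by
        intro h6
        exact h ⟨rfl, by linear_combination h6⟩
      rw [Affine.slope_of_Y_ne rfl hy', Wi_a₁, Wi_a₂, Wi_a₄, Wi_negY]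
      have h6 : y₂ - -y₂ = 2 * y₂ := by ring
      rw [h6, ← two_mul, div_mul_cancel₀ _ h5]
      ring
    · rw [Affine.slope_of_X_ne hx]
      have hx' : x₁ - x₂ ≠ 0 := sub_ne_zero.mpr hx
      rw [div_mul_eq_mul_div, div_eq_iff hx']
      linear_combination e₁ - e₂
  · rw [Affine.Point.add_some hxy]
    exact Affine.Point.some_ne_zero _
  · rw [Affine.Point.add_some hxy, ptX_some]
    simp only [Affine.addX]
    rw [Wi_a₁, Wi_a₂]; ring
  · rw [Affine.Point.add_some hxy, ptX_some]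
    change ((Wi S)⁄Ω).toAffine.addY _ _ _ _ = _
    simp only [Affine.addY, Affine.negAddY]
    rw [Wi_negY]; ring

lemma Inv.unique {A : Pt (Wi S) (FF (Wi S) K)} {c c' : FF (Wi S) K} (h : Inv A c)
    (h' : Inv A c') : c = c' := by
  rcases h with ⟨h0, h1⟩ | ⟨h0, h1, h2⟩
  · rcases h' with ⟨_, h3⟩ | ⟨h3, _⟩
    · rw [h1, h3]
    · exact absurd h0 h3
  · rcases h' with ⟨h3, _⟩ | ⟨_, h3, h4⟩
    · exact absurd h3 h0
    · have h22 := two_ne_zero_alg (S := S) (FF (Wi S) K)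
      have e := pt_eq h0
      by_cases hy : ptY A = 0
      · have h5 : (3 * ptX A ^ 2 - 1) * (c - c') = 0 := by linear_combination h4 - h2
        rcases mul_eq_zero.mp h5 with h6 | h6
        · exfalso
          rw [hy] at e
          have h7 : ptX A * (ptX A ^ 2 - 1) = 0 := by linear_combination -e
          rcases mul_eq_zero.mp h7 with h8 | h8
          · rw [h8] at h6
            exact one_ne_zero (by linear_combination -h6)
          · exact h22 (by linear_combination h6 - 3 * h8)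
        · linear_combination h6
      · have h5 : (2 * ptY A) * (c - c') = 0 := by linear_combination h3 - h1
        rcases mul_eq_zero.mp h5 with h6 | h6
        · exact absurd h6 (mul_ne_zero h22 hy)
        · linear_combination h6

lemma Inv.neg {A : Pt (Wi S) (FF (Wi S) K)} {c : FF (Wi S) K} (h : Inv A c) :
    Inv (-A) (-c) := by
  rcases h with ⟨h0, h1⟩ | ⟨h0, h1, h2⟩
  · left
    exact ⟨by rw [h0, neg_zero], by rw [h1, neg_zero]⟩
  · right
    refine ⟨neg_ne_zero.mpr h0, ?_, ?_⟩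
    · rw [ptX_neg, h1, Wi_ptY_neg]; ring
    · rw [ptX_neg, Wi_ptY_neg, dD_neg, h2]; ring

lemma Inv.add {A B : Pt (Wi S) (FF (Wi S) K)} {c₁ c₂ : FF (Wi S) K} (hA : Inv A c₁)
    (hB : Inv B c₂) : Inv (A + B) (c₁ + c₂) := by
  by_cases hAB : A = -B
  · have h1 := hB.neg
    rw [← hAB] at h1
    rw [hA.unique h1, hAB, neg_add_cancel, neg_add_cancel]
    exact Or.inl ⟨rfl, rfl⟩
  have hA' := hA
  have hB' := hB
  rcases hA with ⟨h0, h1⟩ | ⟨h0, h1, h2⟩
  · rw [h0, h1, zero_add, zero_add]; exact hB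
  rcases hB with ⟨h0', h1'⟩ | ⟨h0', h1', h2'⟩
  · rw [h0', h1', add_zero, add_zero]; exact hA'
  have h22 := two_ne_zero_alg (S := S) (FF (Wi S) K)
  right
  rcases A with _ | ⟨x₁, y₁, h₁⟩
  · exact absurd rfl h0
  rcases B with _ | ⟨x₂, y₂, h₂⟩
  · exact absurd rfl h0'
  have hne : ¬ (x₁ = x₂ ∧ y₁ = -y₂) := by
    rintro ⟨hx, hy⟩
    apply hAB
    apply pt_ext h0 (neg_ne_zero.mpr h0')
    · rw [ptX_neg]; exact hx
    · rw [Wi_ptY_neg]; exact hy
  obtain ⟨L, hL, hL0, hs0, hsX, hsY⟩ := Wi_add_some h₁ h₂ hne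
  have e₁ := Wi_eq h₁
  have e₂ := Wi_eq h₂
  change dD x₁ = 2 * c₁ * y₁ at h1
  change dD y₁ = (3 * x₁ ^ 2 - 1) * c₁ at h2
  change dD x₂ = 2 * c₂ * y₂ at h1'
  change dD y₂ = (3 * x₂ ^ 2 - 1) * c₂ at h2'
  have hdL : dD L = c₁ * (x₁ - (L ^ 2 - x₁ - x₂)) + c₂ * (x₂ - (L ^ 2 - x₁ - x₂)) := by
    by_cases hx : x₁ = x₂
    · subst hx
      have h3 : (y₂ - y₁) * (y₂ + y₁) = 0 := by linear_combination e₂ - e₁
      have h4 : y₂ = y₁ := by
        rcases mul_eq_zero.mp h3 with h4 | h4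
        · linear_combination h4
        · exact absurd ⟨rfl, by linear_combination h4⟩ hne
      subst h4
      have h5 : y₂ ≠ 0 := by
        intro h6
        exact hne ⟨rfl, by rw [h6, neg_zero]⟩
      have hc : c₁ = c₂ := hA'.unique hB'
      subst hc
      have h6 := congrArg dD hL0
      have h7 : x₁ ^ 2 + x₁ * x₁ + x₁ ^ 2 - 1 = x₁ * x₁ + x₁ * x₁ + x₁ * x₁ - 1 := by ring
      rw [h7, dD_mul, dD_add, dD_sub, dD_add, dD_add, dD_mul, dD_one, h1, h2] at h6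
      have h8 : (2 * y₂) * (dD L - (c₁ * (x₁ - (L ^ 2 - x₁ - x₁)) +
          c₁ * (x₁ - (L ^ 2 - x₁ - x₁)))) = 0 := by
        linear_combination h6 + 2 * c₁ * L * hL0
      rcases mul_eq_zero.mp h8 with h9 | h9
      · exact absurd h9 (mul_ne_zero h22 h5)
      · linear_combination h9
    · have hx' : x₂ - x₁ ≠ 0 := sub_ne_zero.mpr (Ne.symm hx)
      have h6 := congrArg dD hL
      rw [dD_sub, dD_mul, dD_sub, h1, h2, h1', h2'] at h6
      have h8 : (x₂ - x₁) * (dD L - (c₁ * (x₁ - (L ^ 2 - x₁ - x₂)) +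
          c₂ * (x₂ - (L ^ 2 - x₁ - x₂)))) = 0 := by
        linear_combination -h6 + (c₁ - c₂) * hL0 + (-c₁ - c₂) * L * hL
      rcases mul_eq_zero.mp h8 with h9 | h9
      · exact absurd h9 hx'
      · linear_combination h9
  have key := inv_core (S := S) (K := K) (X₃ := ptX (.some x₁ y₁ h₁ + .some x₂ y₂ h₂ :
    Pt (Wi S) (FF (Wi S) K))) (Y₃ := ptY (.some x₁ y₁ h₁ + .some x₂ y₂ h₂ :
    Pt (Wi S) (FF (Wi S) K))) hL hL0 hsX hsY h1 h2 h1' (by rw [hsX]; exact hdL)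
  exact ⟨hs0, key.1, key.2⟩

/-- The pairs of a point and its multiplier. -/
def invG (S : Type v) [Field S] (K : Type u) [Field K] [Algebra S K] [GoodW (Wi S)] :
    AddSubgroup (Pt (Wi S) (FF (Wi S) K) × FF (Wi S) K) where
  carrier := {x | Inv x.1 x.2}
  zero_mem' := Or.inl ⟨rfl, rfl⟩
  add_mem' ha hb := Inv.add ha hb
  neg_mem' ha := Inv.neg ha

lemma Inv.zsmul {A : Pt (Wi S) (FF (Wi S) K)} {c : FF (Wi S) K} (h : Inv A c) (n : ℤ) :
    Inv (n • A) (n • c) :=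
  (invG S K).zsmul_mem (x := (A, c)) h n

lemma inv_gpt : Inv (gpt (Wi S) K) 1 := by
  right
  refine ⟨Affine.Point.some_ne_zero _, ?_, ?_⟩
  · rw [ptX_gpt, ptY_gpt, dD_gx]; ring
  · rw [ptX_gpt, ptY_gpt, dD_gy]; ring

lemma dD_alg (c : S) : dD (algebraMap S (FF (Wi S) K) c) = 0 := by
  have h : algebraMap S (FF (Wi S) K) c = base (Wi S) K (algebraMap S K c) :=
    ((base (Wi S) K).commutes c).symm
  rw [h, dD_base]

lemma inv_cmI {ι : S} (hι : ι ^ 2 = -1) :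
    Inv ((cmI hι).toFun _ (gpt (Wi S) K)) (algebraMap S (FF (Wi S) K) ι) := by
  have h1 : algebraMap S (FF (Wi S) K) ι ^ 2 = -1 := by rw [← map_pow, hι, map_neg, map_one]
  right
  refine ⟨cmI_ne_zero hι (Affine.Point.some_ne_zero _), ?_, ?_⟩
  · rw [cmI_ptX, cmI_ptY, ptX_gpt, ptY_gpt, dD_neg, dD_gx]
    linear_combination (-2 * gy (Wi S) K) * h1
  · rw [cmI_ptX, cmI_ptY, ptX_gpt, ptY_gpt, dD_mul, dD_alg, dD_gy]
    ring

variable {p : ℕ} [hp : Fact p.Prime] [hS : CharP S p]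

lemma inv_frW {c : FF (Wi S) K} (h : Inv ((frW S p 1).toFun _ (gpt (Wi S) K)) c) : c = 0 := by
  have hch : CharP (FF (Wi S) K) p := charP_of_alg (S := S) p (FF (Wi S) K)
  rcases h with ⟨_, h1⟩ | ⟨_, h1, _⟩
  · exact h1
  · obtain ⟨k, hk⟩ : ∃ k, p = k + 1 := ⟨p - 1, by have := hp.out.pos; omega⟩
    have h3 : ((k : FF (Wi S) K) + 1) = 0 := by
      have := CharP.cast_eq_zero (FF (Wi S) K) p
      rw [hk] at this
      exact_mod_cast this
    have h4 : dD (gx (Wi S) K ^ p ^ 1) = 0 := by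
      rw [pow_one]
      conv_lhs => rw [hk]
      rw [dD_pow, h3]; ring
    rw [frW_ptX, frW_ptY, ptX_gpt, ptY_gpt, h4] at h1
    have h5 : 2 * gy (Wi S) K ^ p ^ 1 ≠ 0 :=
      mul_ne_zero (two_ne_zero_alg (S := S) _) (pow_ne_zero _ gy_ne_zero)
    have h6 : (2 * gy (Wi S) K ^ p ^ 1) * c = 0 := by linear_combination -h1
    exact (mul_eq_zero.mp h6).resolve_left h5

/-- The residue of the Gaussian integer that gives the Frobenius endomorphism. -/
lemma frob_residue {ι : S} (hι : ι ^ 2 = -1) {u v : ℤ}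
    (h : (frW S p 1).toFun _ (gpt (Wi S) K) =
      u • gpt (Wi S) K + v • (cmI hι).toFun _ (gpt (Wi S) K)) : (u : S) + v * ι = 0 := by
  have h1 := ((inv_gpt (S := S) (K := K)).zsmul u).add ((inv_cmI (K := K) hι).zsmul v)
  rw [← h] at h1
  have h2 := inv_frW (p := p) h1
  apply (algebraMap S (FF (Wi S) K)).injective
  rw [map_add, map_mul, map_intCast, map_intCast, map_zero, ← h2, zsmul_eq_mul, zsmul_eq_mul,
    mul_one]

end deriv

end UnrH3
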