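import Pool.Agent.Lib.MP_859dd5_ag.HasseI

/-!
# The characteristic equation of the substitutions `I ^ a F ^ k`
-/

namespace UnrH3

universe u v w

open Polynomial WeierstrassCurve
open scoped Classical

section unique

/-- Primary Gaussian integers. -/
lemma primary_iff {u v : ℤ} (h : (⟨2, 2⟩ : GaussianInt) ∣ (⟨u, v⟩ : GaussianInt) - 1) :
    ∃ k l : ℤ, v = 2 * k ∧ u + v = 1 + 4 * l := by
  obtain ⟨⟨c, d⟩, h⟩ := h
  rw [Zsqrtd.ext_iff] at h
  simp only [Zsqrtd.re_sub, Zsqrtd.re_one, Zsqrtd.re_mul, Zsqrtd.im_sub, Zsqrtd.im_one,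
    Zsqrtd.im_mul] at h
  exact ⟨c + d, c, by linarith [h.2], by linarith [h.1, h.2]⟩

/-- A primary Gaussian integer of norm `p` is determined by its kernel in characteristic `p`. -/
lemma gauss_unique {S : Type v} [Field S] {p : ℕ} [hp : Fact p.Prime] [CharP S p] {ι : S}
    (hι : ι ^ 2 = -1) {ϖ ϖ' : GaussianInt} (h1 : ϖ.norm = p)
    (h2 : (⟨2, 2⟩ : GaussianInt) ∣ ϖ - 1) (h3 : (ϖ.re : S) + ϖ.im * ι = 0)
    (h1' : ϖ'.norm = p) (h2' : (⟨2, 2⟩ : GaussianInt) ∣ ϖ' - 1)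
    (h3' : (ϖ'.re : S) + ϖ'.im * ι = 0) : ϖ' = ϖ := by
  obtain ⟨u, v⟩ := ϖ
  obtain ⟨u', v'⟩ := ϖ'
  simp only at h3 h3'
  rw [Zsqrtd.norm_def] at h1 h1'
  simp only at h1 h1'
  have hp0 : (p : ℤ) ≠ 0 := by exact_mod_cast hp.out.ne_zero
  have hA : (p : ℤ) ∣ u * u' + v * v' := by
    rw [← CharP.intCast_eq_zero_iff S p]
    push_cast
    linear_combination (u' : S) * h3 - (v : S) * ι * h3' + (v : S) * v' * hι
  have hB : (p : ℤ) ∣ u * v' - u' * v := by
    rw [← CharP.intCast_eq_zero_iff S p]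
    push_cast
    linear_combination (v' : S) * h3 - (v : S) * h3'
  obtain ⟨a, ha⟩ := hA
  obtain ⟨b, hb⟩ := hB
  have hu : u' = u * a - v * b := by
    apply mul_left_cancel₀ hp0
    linear_combination u' * (-h1) + u * ha - v * hb
  have hv : v' = u * b + v * a := by
    apply mul_left_cancel₀ hp0
    linear_combination v' * (-h1) + v * ha + u * hb
  have hab : a ^ 2 + b ^ 2 = 1 := by
    have h4 : (p : ℤ) * (p * (a ^ 2 + b ^ 2)) = p * (p * 1) := by
      linear_combination (-(u * u' + v * v') - p * a) * ha - (u * v' - u' * v + p * b) * hb +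
        (u' * u' + v' * v') * h1 + p * h1'
    exact mul_left_cancel₀ hp0 (mul_left_cancel₀ hp0 h4)
  obtain ⟨k, l, e1, e2⟩ := primary_iff h2
  obtain ⟨k', l', e1', e2'⟩ := primary_iff h2'
  have ha1 : a ≤ 1 := by nlinarith [sq_nonneg b, sq_nonneg a]
  have ha2 : -1 ≤ a := by nlinarith [sq_nonneg b, sq_nonneg a]
  have hb1 : b ≤ 1 := by nlinarith [sq_nonneg b, sq_nonneg a]
  have hb2 : -1 ≤ b := by nlinarith [sq_nonneg b, sq_nonneg a]
  have ha3 : a = -1 ∨ a = 0 ∨ a = 1 := by omega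
  have hb3 : b = -1 ∨ b = 0 ∨ b = 1 := by omega
  rcases ha3 with rfl | rfl | rfl <;> rcases hb3 with rfl | rfl | rfl <;>
    first
    | (exfalso; omega)
    | (ext <;> simp only <;> omega)

end unique

section char

variable {S : Type u} [Field S] [hG : GoodW (Wi S)] {p : ℕ} [hp : Fact p.Prime] [hS : CharP S p]
  {ι : S} (hι : ι ^ 2 = -1) {ϖ : GaussianInt} (hϖ : ϖ.norm = p)
  (hϖ1 : (⟨2, 2⟩ : GaussianInt) ∣ ϖ - 1) (hϖι : (ϖ.re : S) + ϖ.im * ι = 0)

include hϖ hϖ1 hϖι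

/-- The powers of the Frobenius are given by the powers of the Gaussian integer `ϖ`. -/
theorem frob_gauss_pow (hp4 : p % 4 = 1) (K : Type u) [Field K] [Algebra S K] (k : ℕ)
    (Ω : Type u) [Field Ω] [Algebra S Ω] (i : K →ₐ[S] Ω) (A : Pt (Wi S) Ω) (hA : Gen i A) :
    (frW S p k).toFun Ω A = gp hι A (ϖ ^ k) := by
  obtain ⟨ϖ', h1, h2, h3⟩ := exists_frob_gauss_pow (p := p) hι hp4 K
  have h4 := h3 1 _ (base (Wi S) K) _ gen_gpt
  rw [pow_one, gp_apply] at h4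
  have h5 := frob_residue (p := p) hι h4
  rw [gauss_unique hι hϖ hϖ1 hϖι h1 h2 h5] at h3
  exact h3 k Ω i A hA

variable {m : ℕ}

/-- The characteristic equation of `I ^ a F ^ k` on odd unramified classes. -/
theorem one_var_char (hm : Odd m) (hp4 : p % 4 = 1) (K : Type u) [Field K] [Algebra S K]
    (a k : ℕ) (β : KM m (FF (Wi S) K)) (hβ : Unr β) (hodd : OddCl β)
    {A : Pt (Wi S) (FF (Wi S) K)}
    (hA : A = (cmPow hι a).toFun _ ((frW S p k).toFun _ (gpt (Wi S) K))) :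
    ev (base (Wi S) K) A (ev (base (Wi S) K) A β) -
      (2 * (⟨0, 1⟩ ^ a * ϖ ^ k : GaussianInt).re) • ev (base (Wi S) K) A β +
      (⟨0, 1⟩ ^ a * ϖ ^ k : GaussianInt).norm • β = 0 := by
  obtain ⟨z, hz⟩ : ∃ z : GaussianInt, z = ⟨0, 1⟩ ^ a * ϖ ^ k := ⟨_, rfl⟩
  have hχ : ∀ B : Pt (Wi S) (FF (Wi S) K), Gen (base (Wi S) K) B →
      (cmPow hι a).toFun _ ((frW S p k).toFun _ B) = gp hι B z := by
    intro B hB
    rw [frob_gauss_pow hι hϖ hϖ1 hϖι hp4 K k _ (base (Wi S) K) _ hB, cmPow_gp, hz]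
  have hgenA : Gen (base (Wi S) K) A := by
    intro h'
    rw [hA] at h'
    exact gen_gpt (((frW S p k).inCl _ _ (range_in_cl _) _).mp
      (((cmPow hι a).inCl _ _ (range_in_cl _) _).mp h'))
  have hA' : A = gp hι (gpt (Wi S) K) z := by rw [hA, hχ _ gen_gpt]
  have h1 : ev (base (Wi S) K) A (ev (base (Wi S) K) A β) =
      ev (base (Wi S) K) (gp hι (gpt (Wi S) K) (z * z)) β := by
    have h2 := ev_natEnd ((cmPow hι a).comp (frW S p k)) hgenA β
    have h3 : ((cmPow hι a).comp (frW S p k)).toFun _ (gpt (Wi S) K) = A := hA.symm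
    have h4 : ((cmPow hι a).comp (frW S p k)).toFun _ A = gp hι (gpt (Wi S) K) (z * z) := by
      change (cmPow hι a).toFun _ ((frW S p k).toFun _ A) = _
      rw [hχ A hgenA, gp_mul, ← hA']
    rw [h3, h4] at h2
    exact h2
  rw [← hz, h1, hA', ev_gp hι hm hβ hodd, ev_gp hι hm hβ hodd, Zsqrtd.norm_def, Zsqrtd.re_mul,
    Zsqrtd.im_mul]
  generalize ev (base (Wi S) K) ((cmI hι).toFun _ (gpt (Wi S) K)) β = T
  module

end char

end UnrH3
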