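import Pool.Agent.Lib.MP_859dd5_ag.SingleC
import Pool.Agent.Lib.MP_859dd5_ag.Mg.G066

/-!
# The characteristic equation of the Frobenius on multi-odd unramified classes
-/

namespace UnrH3

universe u v w

open Polynomial WeierstrassCurve
open scoped Classical

variable {m : ℕ} {Λ : Type u} [Field Λ] {n : ℕ}
variable {C M : Subfield Λ} {X Y : Fin n → Λ} {p : ℕ} {ι : Λ}

/-- The action of the Frobenius on multi-odd unramified classes. -/
theorem theoremC [hp : Fact p.Prime] [CharP Λ p] (hm : Odd m) (h2 : (2 : Λ) ≠ 0) (hX : IndFam C X) (hY : ∀ j, Y j ^ 2 = X j ^ 3 - X j)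
    (hM : M = adj C (Set.range X ∪ Set.range Y)) (hp4 : p % 4 = 1) (hι : ι ^ 2 = -1)
    (hιC : ι ∈ C) (j : Fin n) (s : ℕ) (e : Fin n → ℕ) (σ : M →+* M)
    (σC : ∀ z : M, (z : Λ) ∈ C → σ z = z ^ p ^ s)
    (σX : ∀ i, ∀ z : M, (z : Λ) = X i → (σ z : Λ) = (-1) ^ e i * z)
    (σY : ∀ i, ∀ z : M, (z : Λ) = Y i → (σ z : Λ) = ι ^ e i * z)
    {γ : KM m M} (hu : Unr γ) (ho : MultiOdd C X Y γ)
    (fr : M →+* M) (hfr : ∀ z, fr z = z ^ p ^ s) {Q : ℤ} (hfrγ : KM.map m fr γ = Q • γ)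
    {ϖ : GaussianInt} (hϖ : ϖ.norm = p) (hϖ1 : (⟨2, 2⟩ : GaussianInt) ∣ ϖ - 1)
    (hϖι : (ϖ.re : Λ) + ϖ.im * ι = 0) {z : GaussianInt}
    (hz : z = ⟨0, 1⟩ ^ (∑ i, 3 * e i) * ϖ ^ (n * s)) :
    (Q * Q) • γ - (2 * z.re * Q) • KM.map m σ γ + z.norm • KM.map m σ (KM.map m σ γ) = 0 := by
  have hCM : C ≤ M := by rw [hM]; exact le_adj _ _
  have hXM : ∀ i, X i ∈ M := fun i => by rw [hM]; exact subset_adj _ _ (Or.inl ⟨i, rfl⟩)
  have hYM : ∀ i, Y i ∈ M := fun i => by rw [hM]; exact subset_adj _ _ (Or.inr ⟨i, rfl⟩)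
  have hιM : ι ∈ M := hCM hιC
  obtain ⟨h, h', H, H', hh⟩ := exists_total hm h2 hX hY hM hp4 hι hιC (fun i => 3 * e i)
    (fun _ => s) j hu ho Finset.univ
  simp only [Finset.mem_univ, if_true, Finset.sum_const, Finset.card_univ, Fintype.card_fin,
    smul_eq_mul] at H H'
  have hι4 : ι ^ 4 = 1 := by linear_combination (ι ^ 2 - 1) * hι
  have h1e : ∀ k : ℕ, (-1 : Λ) ^ (3 * k) * (-1) ^ k = 1 := by
    intro k
    rw [← pow_add, show 3 * k + k = 2 * (2 * k) by ring, pow_mul, neg_one_sq, one_pow]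
  have hιe : ∀ k : ℕ, ι ^ (3 * k) * ι ^ k = 1 := by
    intro k
    rw [← pow_add, show 3 * k + k = 4 * k by ring, pow_mul, hι4, one_pow]
  have σι : σ ⟨ι, hιM⟩ = ⟨ι, hιM⟩ := by
    rw [σC _ hιC]
    exact Subtype.ext (pow_iota hp4 hι s)
  have σX' : ∀ i, σ ⟨X i, hXM i⟩ = (-1) ^ e i * ⟨X i, hXM i⟩ := fun i =>
    Subtype.ext (by rw [σX i _ rfl]; push_cast; rfl)
  have σY' : ∀ i, σ ⟨Y i, hYM i⟩ = ⟨ι, hιM⟩ ^ e i * ⟨Y i, hYM i⟩ := fun i =>
    Subtype.ext (by rw [σY i _ rfl]; push_cast; rfl)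
  -- the composition with `h` is the Frobenius
  have hcomp : σ.comp h = fr := by
    apply hom_gen_id hM
    · intro z hz
      rw [RingHom.comp_apply, H.c z hz, σC z hz, hfr]
    · rintro z (⟨i, hi⟩ | ⟨i, hi⟩)
      · have h3 : h z = (-1) ^ (3 * e i) * ⟨X i, hXM i⟩ ^ p ^ s := by
          apply Subtype.ext
          rw [H.x i z hi.symm]
          push_cast
          rw [hi]
        have h4 : z = ⟨X i, hXM i⟩ := Subtype.ext hi.symm
        rw [RingHom.comp_apply, h3, map_mul, map_pow, map_pow, map_neg, map_one, σX', hfr, h4]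
        apply Subtype.ext
        push_cast
        rw [mul_pow, neg_one_pow_pow hp4, ← mul_assoc, h1e, one_mul]
      · have h3 : h z = ⟨ι, hιM⟩ ^ (3 * e i) * ⟨Y i, hYM i⟩ ^ p ^ s := by
          apply Subtype.ext
          rw [H.y i z hi.symm]
          push_cast
          rw [hi]
        have h4 : z = ⟨Y i, hYM i⟩ := Subtype.ext hi.symm
        rw [RingHom.comp_apply, h3, map_mul, map_pow, map_pow, σι, σY', hfr, h4]
        apply Subtype.ext
        push_cast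
        rw [mul_pow, iota_pow_pow hp4 hι, ← mul_assoc, hιe, one_mul]
  -- `σ` commutes with `h'`
  have hcomm : σ.comp h' = h'.comp σ := by
    apply hom_gen_id hM
    · intro z hz
      rw [RingHom.comp_apply, RingHom.comp_apply, H'.c z hz, σC z hz, map_pow, H'.c z hz]
    · rintro z (⟨i, hi⟩ | ⟨i, hi⟩)
      · have h4 : z = ⟨X i, hXM i⟩ := Subtype.ext hi.symm
        obtain ⟨A, B, hAB⟩ : ∃ A B : ℕ, h' ⟨X i, hXM i⟩ = (-1) ^ A * ⟨X i, hXM i⟩ ^ p ^ B :=
          ⟨_, _, Subtype.ext (by rw [H'.x i _ rfl]; push_cast; rfl)⟩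
        rw [RingHom.comp_apply, RingHom.comp_apply, h4, σX', map_mul, map_pow, map_neg, map_one,
          hAB, map_mul, map_pow, map_pow, map_neg, map_one, σX']
        apply Subtype.ext
        push_cast
        rw [mul_pow, neg_one_pow_pow hp4]
        ring
      · have h4 : z = ⟨Y i, hYM i⟩ := Subtype.ext hi.symm
        obtain ⟨A, B, hAB⟩ : ∃ A B : ℕ, h' ⟨Y i, hYM i⟩ = ⟨ι, hιM⟩ ^ A * ⟨Y i, hYM i⟩ ^ p ^ B :=
          ⟨_, _, Subtype.ext (by rw [H'.y i _ rfl]; push_cast; rfl)⟩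
        have h5 : h' ⟨ι, hιM⟩ = ⟨ι, hιM⟩ := H'.c _ hιC
        rw [RingHom.comp_apply, RingHom.comp_apply, h4, σY', map_mul, map_pow, h5, hAB, map_mul,
          map_pow, map_pow, σι, σY']
        apply Subtype.ext
        push_cast
        rw [mul_pow, iota_pow_pow hp4 hι]
        ring
  have e1 : KM.map m σ (KM.map m h' γ) = Q • γ := by
    rw [← hh, KM.map_map, hcomp, hfrγ]
  have ecomm : ∀ δ : KM m M, KM.map m σ (KM.map m h' δ) = KM.map m h' (KM.map m σ δ) := by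
    intro δ
    rw [KM.map_map, hcomm, ← KM.map_map]
  obtain ⟨K, hK⟩ : ∃ K, K = adj C (X '' {i | i ≠ j} ∪ Y '' {i | i ≠ j}) := ⟨_, rfl⟩
  have hCK : C ≤ K := by rw [hK]; exact le_adj _ _
  have fixK : ∀ z : M, (z : Λ) ∈ K → h' z = z := by
    intro z hz
    apply of_mem_fixF
    have h3 : K ≤ fixF h' := by
      rw [hK]
      apply adj_le
      · intro z hz
        exact mem_fixF (z := ⟨z, hCM hz⟩) (H'.c _ hz)
      · rintro z (⟨i, hi, rfl⟩ | ⟨i, hi, rfl⟩)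
        · refine mem_fixF (z := ⟨X i, hXM i⟩) (Subtype.ext ?_)
          rw [H'.x i _ rfl, Pi.single_eq_of_ne hi, Pi.single_eq_of_ne hi]
          ring
        · refine mem_fixF (z := ⟨Y i, hYM i⟩) (Subtype.ext ?_)
          rw [H'.y i _ rfl, Pi.single_eq_of_ne hi, Pi.single_eq_of_ne hi]
          ring
    exact h3 hz
  have hoK : OddAt K (Y j) {X j} γ := by
    intro g g1 g2 g3
    apply ho j g (fun z hz => g1 z (hCK hz)) _ g3
    rintro z (⟨i, hi⟩ | ⟨i, hij, hi⟩)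
    · by_cases h1 : i = j
      · subst h1; exact g2 z (by rw [← hi]; rfl)
      · exact g1 z (by rw [← hi, hK]; exact subset_adj _ _ (Or.inl ⟨i, h1, rfl⟩))
    · exact g1 z (by rw [← hi, hK]; exact subset_adj _ _ (Or.inr ⟨i, hij, rfl⟩))
  have key := single_char hm hp4 h2 hι (hCK hιC) (family_single_fact hX hY j K hK) (hY j)
    (family_single_M hM j K hK) hu hoK (∑ i, 3 * e i) (n * s) h' fixK
    (fun z hz => by rw [H'.x j z hz, Pi.single_eq_same, Pi.single_eq_same])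
    (fun z hz => by rw [H'.y j z hz, Pi.single_eq_same, Pi.single_eq_same]) hϖ hϖ1 hϖι
  rw [← hz] at key
  have e2 := congrArg (fun δ => KM.map m σ (KM.map m σ δ)) key
  simp only [map_add, map_sub, map_zsmul, map_zero] at e2
  have e3 : KM.map m σ (KM.map m σ (KM.map m h' (KM.map m h' γ))) = (Q * Q) • γ := by
    rw [ecomm (KM.map m h' γ), e1, map_zsmul, map_zsmul, e1, smul_smul]
  rw [e3, e1, map_zsmul, smul_smul] at e2
  exact e2

end UnrH3
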