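import Pool.Agent.Lib.MP_859dd5_ag.Mg.G056

/-!
# The kernel of the restriction to a finite extension is killed by the degree
-/

namespace UnrH3

universe u v w

open Polynomial

variable {m : ℕ}

/-- The kernel of the restriction to a simple extension is killed by the degree. -/
theorem adjoinRoot_smul (hm : Odd m) {K : Type u} [Field K] (p : K[X]) [hp : Fact (Irreducible p)]
    (hpm : p.Monic) {y : KM m K} (hy : KM.map m (AdjoinRoot.of p) y = 0) :
    p.natDegree • y = 0 := by
  set s := sym m (algebraMap K[X] (RatFunc K) p) with hs
  have hpK : algebraMap K[X] (RatFunc K) p ≠ 0 := by simpa using hp.out.ne_zero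
  have hconst : ∀ (q : K[X]) [Fact (Irreducible q)],
      (placeVal q).θ hm (KM.map m (algebraMap K (RatFunc K)) y) =
        ⟨KM.map m (AdjoinRoot.of q) y, 0⟩ := by
    intro q hq
    have hnd : ∀ a : K, a ≠ 0 → ¬ q ∣ C a := fun a ha h => by
      have h1 := isUnit_of_dvd_unit h (isUnit_C.mpr (isUnit_iff_ne_zero.mpr ha))
      exact hq.out.not_isUnit h1
    apply DVal.θ_const
    · intro a ha
      rw [algebraMap_ratFunc_eq]
      exact (placeVal_unit q (hnd a ha)).1
    · intro a ha
      rw [algebraMap_ratFunc_eq]
      exact (placeVal_unit q (hnd a ha)).2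
  obtain ⟨w, hw⟩ := milnor hm (KM.map m (algebraMap K (RatFunc K)) y * s) (by
    intro q hqm hq
    rw [DVal.res, map_mul, hconst q, hs, DVal.θ_sym _ hm hpK, KMX.mul_snd]
    by_cases hqp : q ∣ p
    · have h1 : q = p := eq_of_monic_of_associated hqm hpm (hq.out.associated_of_dvd hp.out hqp)
      subst h1
      rw [hy]
      simp
    · rw [(placeVal_unit q hqp).1]
      simp)
  have h1 := (valInfty K).θ_const hm (algebraMap K (RatFunc K)) (RingHom.id K)
    (fun a ha => (valInfty_const ha).1) (fun a ha => (valInfty_const ha).2)
  have h2 : ((valInfty K).θ hm (KM.map m (algebraMap K (RatFunc K)) w)).snd =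
      ((valInfty K).θ hm (KM.map m (algebraMap K (RatFunc K)) y * s)).snd := by rw [hw]
  rw [map_mul, h1, h1, hs, DVal.θ_sym _ hm hpK, KMX.mul_snd, (valInfty_monic hpm).1] at h2
  simp only [KM.map_id, AlgHom.id_apply, zero_mul, add_zero, mul_smul_comm, mul_one] at h2
  rw [← Nat.cast_smul_eq_nsmul (ZMod m)]
  push_cast at h2
  rw [neg_smul, eq_comm, neg_eq_zero] at h2
  exact h2

/-- A field homomorphism with a left inverse induces an injection of K-rings. -/
lemma map_injective_of_leftInv {K : Type u} {L : Type v} [Field K] [Field L] {j : K →+* L}
    {e : L →+* K} (h : e.comp j = RingHom.id K) : Function.Injective (KM.map m j) := by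
  intro x y hxy
  have h1 := congrArg (KM.map m e) hxy
  rw [KM.map_map, KM.map_map, h, KM.map_id] at h1
  exact h1

/-- A surjective field homomorphism has a two-sided inverse. -/
lemma exists_inv_of_surjective {K : Type u} {L : Type v} [Field K] [Field L] {j : K →+* L}
    (h : Function.Surjective j) : ∃ e : L →+* K, e.comp j = RingHom.id K ∧
      j.comp e = RingHom.id L := by
  let E := RingEquiv.ofBijective j ⟨j.injective, h⟩
  refine ⟨(E.symm : L →+* K), ?_, ?_⟩
  · ext z
    exact E.symm_apply_apply z
  · ext z
    exact E.apply_symm_apply z

/-- The kernel of the restriction to a finite extension is killed by the degree. -/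
theorem finrank_smul_eq_zero (hm : Odd m) : ∀ (n : ℕ) {K L : Type u} [Field K] [Field L]
    [Algebra K L] [FiniteDimensional K L] (_ : Module.finrank K L = n) {y : KM m K}
    (_ : KM.map m (algebraMap K L) y = 0), n • y = 0 := by
  intro n
  induction n using Nat.strong_induction_on with
  | _ n ih =>
    intro K L _ _ _ _ hn y hy
    by_cases hs : Function.Surjective (algebraMap K L)
    · obtain ⟨e, he, -⟩ := exists_inv_of_surjective hs
      have h1 : y = 0 := map_injective_of_leftInv he (by rw [hy, map_zero])
      rw [h1, smul_zero]
    · simp only [Function.Surjective, not_forall, not_exists] at hs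
      obtain ⟨α, hα⟩ := hs
      obtain ⟨F, hF⟩ : ∃ F : IntermediateField K L, F = IntermediateField.adjoin K {α} := ⟨_, rfl⟩
      have hint : IsIntegral K α := IsIntegral.of_finite K α
      have hmul : Module.finrank K F * Module.finrank F L = n := by
        rw [Module.finrank_mul_finrank, hn]
      have hpos : 0 < Module.finrank F L := Module.finrank_pos
      have hFd : Module.finrank K F = (minpoly K α).natDegree := by
        rw [hF]; exact IntermediateField.adjoin.finrank hint
      have hgt : 1 < Module.finrank K F := by
        by_contra hle
        have h1 : Module.finrank K F = 1 := by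
          have : 0 < Module.finrank K F := Module.finrank_pos
          omega
        rw [IntermediateField.finrank_eq_one_iff] at h1
        have h2 : α ∈ F := by rw [hF]; exact IntermediateField.mem_adjoin_simple_self K α
        rw [h1, IntermediateField.mem_bot] at h2
        obtain ⟨a, ha⟩ := h2
        exact hα a ha
      have hlt : Module.finrank F L < n := by
        rw [← hmul]
        nlinarith
      have h1 := ih _ hlt (K := F) (L := L) rfl (y := KM.map m (algebraMap K F) y) (by
        rw [KM.map_map, ← IsScalarTower.algebraMap_eq]; exact hy)
      rw [← map_nsmul] at h1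
      -- the simple extension
      have hirr : Fact (Irreducible (minpoly K α)) := ⟨minpoly.irreducible hint⟩
      subst hF
      let e := IntermediateField.adjoinRootEquivAdjoin K hint
      have h2 : KM.map m (AdjoinRoot.of (minpoly K α)) (Module.finrank
          (IntermediateField.adjoin K {α}) L • y) = 0 := by
        have h3 := congrArg (KM.map m (e.symm : _ →+* AdjoinRoot (minpoly K α))) h1
        rw [KM.map_map, map_zero] at h3
        rw [← h3]
        congr 2
        ext a
        exact (e.symm.commutes a).symm
      have h4 := adjoinRoot_smul hm (minpoly K α) (minpoly.monic hint) h2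
      rw [smul_smul, ← hFd, hmul] at h4
      exact h4

end UnrH3
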