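import Pool.Agent.Lib.MP_859dd5_ag.NormA

/-!
# Elements of the K-ring of `K(t)` with prescribed residues
-/

namespace UnrH3

universe u v w

open Polynomial
open scoped Classical

variable {m : ℕ}

section linear

variable {K : Type u} {κ : Type v} [Field K] [Field κ]

/-- The tame residue as a linear map. -/
noncomputable def DVal.resL (hm : Odd m) (D : DVal K κ) : KM m K →ₗ[ZMod m] KM m κ :=
  (KMX.sndHom m κ).comp (D.θ hm).toLinearMap

lemma DVal.resL_apply (hm : Odd m) (D : DVal K κ) (x : KM m K) : D.resL hm x = D.res hm x := rfl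

lemma DVal.res_add (hm : Odd m) (D : DVal K κ) (x y : KM m K) :
    D.res hm (x + y) = D.res hm x + D.res hm y := map_add (D.resL hm) x y

lemma DVal.res_sub (hm : Odd m) (D : DVal K κ) (x y : KM m K) :
    D.res hm (x - y) = D.res hm x - D.res hm y := map_sub (D.resL hm) x y

lemma DVal.res_sum (hm : Odd m) (D : DVal K κ) {ι : Type*} (s : Finset ι) (f : ι → KM m K) :
    D.res hm (∑ i ∈ s, f i) = ∑ i ∈ s, D.res hm (f i) := map_sum (D.resL hm) f s

lemma DVal.res_zero (hm : Odd m) (D : DVal K κ) : D.res hm 0 = 0 := map_zero (D.resL hm)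

/-- Residue of a product with a symbol. -/
lemma DVal.res_mul_sym (hm : Odd m) (D : DVal K κ) (x : KM m K) {a : K} (ha : a ≠ 0)
    (hx : D.res hm x = 0) :
    D.res hm (x * sym m a) = ((D.v a : ℤ) : ZMod m) • D.spec hm x := by
  rw [DVal.res] at hx ⊢
  rw [map_mul, D.θ_sym hm ha, KMX.mul_snd, hx, zero_mul, add_zero, mul_smul_comm, mul_one,
    DVal.spec_apply]

end linear

variable {K : Type u} [Field K]

lemma not_dvd_of_monic {p q : K[X]} (hp : Irreducible p) (hpm : p.Monic) (hq : Irreducible q)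
    (hqm : q.Monic) (hne : q ≠ p) : ¬ q ∣ p := fun h =>
  hne (eq_of_monic_of_associated hqm hpm (hq.associated_of_dvd hp h))

/-- Almost all residues of a class vanish. -/
lemma finite_residues (hm : Odd m) (x : KM m (RatFunc K)) :
    ∃ S : Finset K[X], ∀ (q : K[X]) (_ : q.Monic) (hq : Fact (Irreducible q)), q ∉ S →
      (placeVal q).res hm x = 0 := by
  induction x using KM.induction with
  | h0 r =>
    refine ⟨∅, fun q _ hq _ => ?_⟩
    rw [DVal.res, AlgHom.commutes, KMX.algebraMap_eq]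
  | hadd x y hx hy =>
    obtain ⟨S, hS⟩ := hx
    obtain ⟨T, hT⟩ := hy
    refine ⟨S ∪ T, fun q hqm hq hqS => ?_⟩
    rw [DVal.res_add, hS q hqm hq (fun h => hqS (Finset.mem_union_left _ h)),
      hT q hqm hq (fun h => hqS (Finset.mem_union_right _ h)), add_zero]
  | hsmul r x hx =>
    obtain ⟨S, hS⟩ := hx
    refine ⟨S, fun q hqm hq hqS => ?_⟩
    rw [← DVal.resL_apply, map_smul, DVal.resL_apply, hS q hqm hq hqS, smul_zero]
  | hmul a x ha hx =>
    obtain ⟨S, hS⟩ := hx
    obtain ⟨f, g, hg, rfl⟩ := IsFractionRing.div_surjective (A := K[X]) a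
    have hg0 : g ≠ 0 := nonZeroDivisors.ne_zero hg
    have hf0 : f ≠ 0 := by rintro rfl; simp at ha
    have ef : algebraMap K[X] (RatFunc K) f ≠ 0 := by simpa using hf0
    have eg : algebraMap K[X] (RatFunc K) g ≠ 0 := by simpa using hg0
    refine ⟨S ∪ (UniqueFactorizationMonoid.normalizedFactors (f * g)).toFinset,
      fun q hqm hq hqS => ?_⟩
    have h1 : ¬ q ∣ f * g := by
      intro h
      apply hqS
      apply Finset.mem_union_right
      rw [Multiset.mem_toFinset, Polynomial.mem_normalizedFactors_iff (mul_ne_zero hf0 hg0)]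
      exact ⟨hq.out, hqm, h⟩
    have h2 := (placeVal_unit q (fun h => h1 (h.mul_right g))).1
    have h3 := (placeVal_unit q (fun h => h1 (h.mul_left f))).1
    have h4 : (placeVal q).v (algebraMap K[X] (RatFunc K) f / algebraMap K[X] (RatFunc K) g) = 0 := by
      rw [DVal.v_div _ ef eg, h2, h3, sub_zero]
    have h5 := hS q hqm hq (fun h => hqS (Finset.mem_union_left _ h))
    rw [DVal.res] at h5 ⊢
    rw [map_mul, DVal.θ_sym _ hm ha, KMX.mul_snd, h5, h4]
    simp

/-- Classes of the residue field lift to the classes of polynomials of small degree. -/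
lemma exists_lift_Lsub (hm : Odd m) {d : ℕ} (p : K[X]) [hp : Fact (Irreducible p)]
    (hpm : p.Monic) (hd : p.natDegree = d + 1) (y : KM m (AdjoinRoot p)) :
    ∃ w ∈ Lsub m K d, (placeVal p).spec hm w = y := by
  have hp1 : p ≠ 1 := by rintro rfl; simp at hd
  induction y using KM.induction with
  | h0 r => exact ⟨algebraMap _ _ r, Subalgebra.algebraMap_mem _ r, AlgHom.commutes _ r⟩
  | hadd x y hx hy =>
    obtain ⟨a, ha, rfl⟩ := hx
    obtain ⟨b, hb, rfl⟩ := hy
    exact ⟨a + b, add_mem ha hb, map_add _ _ _⟩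
  | hsmul r x hx =>
    obtain ⟨a, ha, rfl⟩ := hx
    exact ⟨r • a, Subalgebra.smul_mem _ ha r, map_smul _ _ _⟩
  | hmul g x hg hx =>
    obtain ⟨a, ha, rfl⟩ := hx
    set G := AdjoinRoot.modByMonicHom hpm g with hG
    have hmk : AdjoinRoot.mk p G = g := AdjoinRoot.mk_leftInverse hpm g
    have hG0 : G ≠ 0 := by
      intro h
      apply hg
      rw [← hmk, h, map_zero]
    have hGd : G.natDegree ≤ d := by
      obtain ⟨f, rfl⟩ := AdjoinRoot.mk_surjective g
      rw [hG, AdjoinRoot.modByMonicHom_mk]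
      have := natDegree_modByMonic_lt f hpm hp1
      omega
    refine ⟨sym m (algebraMap K[X] (RatFunc K) G) * a, mul_mem (sym_mem_Lsub hGd) ha, ?_⟩
    rw [map_mul, DVal.spec_apply _ hm (sym m _), DVal.θ_sym _ hm (by simpa using hG0),
      (placeVal_unit p (not_dvd_of_natDegree_lt hG0 (by omega))).2, hmk]

/-- Prescribing the residues at the polynomials of a given degree. -/
lemma exists_match_degree (hm : Odd m) (d : ℕ) (x : KM m (RatFunc K)) :
    ∃ z : KM m (RatFunc K), (∀ (q : K[X]) (_ : q.Monic) (hq : Fact (Irreducible q)),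
      q.natDegree = d + 1 → (placeVal q).res hm z = (placeVal q).res hm x) ∧
      ∀ (q : K[X]) (_ : q.Monic) (hq : Fact (Irreducible q)), d + 1 < q.natDegree →
        (placeVal q).res hm z = 0 := by
  obtain ⟨S, hS⟩ := finite_residues hm x
  have hlift : ∀ q : MonicIrr K (d + 1), ∃ w ∈ Lsub m K d, ∀ hq : Fact (Irreducible q.1),
      (placeVal q.1).spec hm w = (placeVal q.1).res hm x := by
    intro q
    haveI : Fact (Irreducible q.1) := ⟨q.2.2.1⟩
    obtain ⟨w, hw, h⟩ := exists_lift_Lsub hm q.1 q.2.1 q.2.2.2 ((placeVal q.1).res hm x)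
    exact ⟨w, hw, fun _ => h⟩
  choose W hW hWs using hlift
  set S' : Finset (MonicIrr K (d + 1)) :=
    Finset.subtype (fun p => p.Monic ∧ Irreducible p ∧ p.natDegree = d + 1) S with hS'
  have hmemS' : ∀ q : MonicIrr K (d + 1), q ∈ S' ↔ q.1 ∈ S := fun q => Finset.mem_subtype
  -- residues of one term
  have e0 : ∀ q : MonicIrr K (d + 1), algebraMap K[X] (RatFunc K) q.1 ≠ 0 := fun q => by
    simpa using q.2.2.1.ne_zero
  have hterm : ∀ (q : MonicIrr K (d + 1)) (q' : K[X]) (_ : q'.Monic) (hq' : Fact (Irreducible q')),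
      d < q'.natDegree → q' ≠ q.1 →
      (placeVal q').res hm (W q * sym m (algebraMap K[X] (RatFunc K) q.1)) = 0 := by
    intro q q' hqm' hq' hd hne
    rw [DVal.res_mul_sym hm _ _ (e0 q) (θ_snd_of_mem_Lsub hm hd (hW q)),
      (placeVal_unit q' (not_dvd_of_monic q.2.2.1 q.2.1 hq'.out hqm' hne)).1]
    simp
  have hself : ∀ (q : MonicIrr K (d + 1)) (hq : Fact (Irreducible q.1)),
      (placeVal q.1).res hm (W q * sym m (algebraMap K[X] (RatFunc K) q.1)) =
        (placeVal q.1).res hm x := by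
    intro q hq
    have hd : d < q.1.natDegree := by rw [q.2.2.2]; omega
    rw [DVal.res_mul_sym hm _ _ (e0 q) (θ_snd_of_mem_Lsub hm hd (hW q)), placeVal_v_self,
      hWs q hq]
    simp
  refine ⟨∑ q ∈ S', W q * sym m (algebraMap K[X] (RatFunc K) q.1), ?_, ?_⟩
  · intro q hqm hq hqd
    obtain ⟨q₀, hq₀⟩ : ∃ q₀ : MonicIrr K (d + 1), q₀.1 = q := ⟨⟨q, hqm, hq.out, hqd⟩, rfl⟩
    subst hq₀
    rw [DVal.res_sum]
    have hd : d < q₀.1.natDegree := by omega
    by_cases hmem : q₀ ∈ S'
    · rw [Finset.sum_eq_single q₀ (fun i _ hi => hterm i q₀.1 hqm hq hd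
        (fun h => hi (Subtype.ext h.symm))) (fun h => absurd hmem h), hself]
    · rw [Finset.sum_eq_zero, hS q₀.1 hqm hq (fun h => hmem ((hmemS' q₀).mpr h))]
      intro i hi
      apply hterm i q₀.1 hqm hq hd
      intro h
      apply hmem
      rw [Subtype.ext h]
      exact hi
  · intro q hqm hq hqd
    rw [DVal.res_sum]
    apply Finset.sum_eq_zero
    intro i _
    apply hterm i q hqm hq (by omega)
    rintro rfl
    rw [i.2.2.2] at hqd
    omega

/-- Prescribing the residues at the polynomials of bounded degree. -/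
lemma exists_match (hm : Odd m) (d : ℕ) : ∀ x : KM m (RatFunc K),
    ∃ z : KM m (RatFunc K), (∀ (q : K[X]) (_ : q.Monic) (hq : Fact (Irreducible q)),
      q.natDegree ≤ d → (placeVal q).res hm z = (placeVal q).res hm x) ∧
      ∀ (q : K[X]) (_ : q.Monic) (hq : Fact (Irreducible q)), d < q.natDegree →
        (placeVal q).res hm z = 0 := by
  induction d with
  | zero =>
    intro x
    refine ⟨0, fun q _ hq h => ?_, fun q _ hq _ => DVal.res_zero hm _⟩
    have := hq.out.natDegree_pos
    omega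
  | succ d ih =>
    intro x
    obtain ⟨z₁, h1, h2⟩ := exists_match_degree hm d x
    obtain ⟨z₂, h3, h4⟩ := ih (x - z₁)
    refine ⟨z₁ + z₂, fun q hqm hq hqd => ?_, fun q hqm hq hqd => ?_⟩
    · rw [DVal.res_add]
      by_cases h5 : q.natDegree ≤ d
      · rw [h3 q hqm hq h5, DVal.res_sub]; abel
      · rw [h1 q hqm hq (by omega), h4 q hqm hq (by omega), add_zero]
    · rw [DVal.res_add, h2 q hqm hq hqd, h4 q hqm hq (by omega), add_zero]

/-- There is a class with one prescribed residue and no other finite residue. -/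
theorem exists_single_residue (hm : Odd m) (p : K[X]) [hp : Fact (Irreducible p)]
    (hpm : p.Monic) (y : KM m (AdjoinRoot p)) :
    ∃ z : KM m (RatFunc K), (placeVal p).res hm z = y ∧
      ∀ (q : K[X]) (_ : q.Monic) (hq : Fact (Irreducible q)), q ≠ p →
        (placeVal q).res hm z = 0 := by
  obtain ⟨d, hd⟩ : ∃ d, p.natDegree = d + 1 := ⟨p.natDegree - 1, by
    have := hp.out.natDegree_pos
    omega⟩
  obtain ⟨w, hw, hwy⟩ := exists_lift_Lsub hm p hpm hd y
  have ep : algebraMap K[X] (RatFunc K) p ≠ 0 := by simpa using hp.out.ne_zero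
  set z₀ := w * sym m (algebraMap K[X] (RatFunc K) p) with hz₀
  obtain ⟨z₁, h1, h2⟩ := exists_match hm d z₀
  refine ⟨z₀ - z₁, ?_, ?_⟩
  · have hd' : d < p.natDegree := by omega
    rw [DVal.res_sub, h2 p hpm hp hd', sub_zero, hz₀,
      DVal.res_mul_sym hm _ _ ep (θ_snd_of_mem_Lsub hm hd' hw), placeVal_v_self, hwy]
    simp
  · intro q hqm hq hne
    rw [DVal.res_sub]
    by_cases hqd : q.natDegree ≤ d
    · rw [h1 q hqm hq hqd, sub_self]
    · rw [h2 q hqm hq (by omega), sub_zero, hz₀,
        DVal.res_mul_sym hm _ _ ep (θ_snd_of_mem_Lsub hm (by omega) hw),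
        (placeVal_unit q (not_dvd_of_monic hp.out hpm hq.out hqm hne)).1]
      simp

end UnrH3
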