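import Pool.Agent.Lib.MP_859dd5_ag.NormB

/-!
# Traces of classes for a Galois extension
-/

namespace UnrH3

universe u v w

open Polynomial
open scoped Classical

variable {m : ℕ}

section baseChange

variable {K L : Type u} [Field K] [Field L] (j : K →+* L)

/-- The base change of rational function fields. -/
noncomputable def ratBase : RatFunc K →+* RatFunc L :=
  IsFractionRing.lift (A := K[X]) (g := (algebraMap L[X] (RatFunc L)).comp (mapRingHom j))
    ((IsFractionRing.injective L[X] (RatFunc L)).comp (Polynomial.map_injective j j.injective))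

lemma ratBase_algebraMap (f : K[X]) :
    ratBase j (algebraMap K[X] (RatFunc K) f) = algebraMap L[X] (RatFunc L) (f.map j) := by
  unfold ratBase
  rw [IsFractionRing.lift_algebraMap]
  rfl

lemma ratBase_const (a : K) :
    ratBase j (algebraMap K (RatFunc K) a) = algebraMap L (RatFunc L) (j a) := by
  rw [algebraMap_ratFunc_eq, ratBase_algebraMap, map_C, algebraMap_ratFunc_eq]

lemma ratBase_X : ratBase j RatFunc.X = RatFunc.X := by
  rw [← RatFunc.algebraMap_X, ratBase_algebraMap, map_X, RatFunc.algebraMap_X]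

lemma placeVal_rep (p : K[X]) [hp : Fact (Irreducible p)] {a : RatFunc K} (ha : a ≠ 0) :
    ∃ (u w : K[X]), ¬ p ∣ u ∧ ¬ p ∣ w ∧
      a = (algebraMap K[X] (RatFunc K) p) ^ ((placeVal p).v a) *
        (algebraMap K[X] (RatFunc K) u / algebraMap K[X] (RatFunc K) w) ∧
      (placeVal p).ρ a = AdjoinRoot.mk p u / AdjoinRoot.mk p w := by
  obtain ⟨u, w, hu, hw, h1, h2⟩ : Rep (AdjoinRoot.mk p) p a ((placeVal p).v a)
    ((placeVal p).ρ a) := DVal.ofPrime_rep (K := RatFunc K) (AdjoinRoot.mk p) p _ _ _ ha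
  exact ⟨u, w, by rwa [Ne, AdjoinRoot.mk_eq_zero] at hu, by rwa [Ne, AdjoinRoot.mk_eq_zero] at hw,
    h1, h2⟩

lemma mk_X_sub_C (β : L) (f : L[X]) :
    AdjoinRoot.mk (X - C β) f = AdjoinRoot.of (X - C β) (f.eval β) := by
  have h1 : AdjoinRoot.mk (X - C β) (f - C (f.eval β)) = 0 := by
    rw [AdjoinRoot.mk_eq_zero, dvd_iff_isRoot]
    simp
  rw [map_sub, AdjoinRoot.mk_C, sub_eq_zero] at h1
  exact h1

lemma irreducible_X_sub_C' (β : L) : Fact (Irreducible (X - C β)) := ⟨irreducible_X_sub_C β⟩

/-- Compatibility of the place given by a root with the place below. -/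
lemma ratBase_place (p : K[X]) [hp : Fact (Irreducible p)] (hsep : p.Separable) {β : L}
    (hβ : p.eval₂ j β = 0) [Fact (Irreducible (X - C β))] :
    ∃ c : AdjoinRoot (X - C β), c ≠ 0 ∧ ∀ a : RatFunc K, a ≠ 0 →
      (placeVal (X - C β)).v (ratBase j a) = (placeVal p).v a ∧
      (placeVal (X - C β)).ρ (ratBase j a) =
        (AdjoinRoot.of (X - C β)) (AdjoinRoot.lift j β hβ ((placeVal p).ρ a)) *
          c ^ ((placeVal p).v a) := by
  obtain ⟨r, hr⟩ : (X - C β) ∣ p.map j := by
    rw [dvd_iff_isRoot, IsRoot.def, eval_map]; exact hβ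
  have hr0 : ¬ (X - C β) ∣ r := by
    rintro ⟨s, rfl⟩
    have hsq : Squarefree (p.map j) := (hsep.map).squarefree
    have h1 := hsq (X - C β) ⟨s, by rw [hr]; ring⟩
    exact not_isUnit_X_sub_C β h1
  have hX0 : (X - C β : L[X]) ≠ 0 := X_sub_C_ne_zero β
  have hr00 : r ≠ 0 := by rintro rfl; exact hr0 (dvd_zero _)
  have eX : algebraMap L[X] (RatFunc L) (X - C β) ≠ 0 := by
    rw [Ne, FaithfulSMul.algebraMap_eq_zero_iff]; exact hX0
  have er : algebraMap L[X] (RatFunc L) r ≠ 0 := by simpa using hr00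
  have hun := placeVal_unit (X - C β) hr0
  have hp1 : (placeVal (X - C β)).v (ratBase j (algebraMap K[X] (RatFunc K) p)) = 1 ∧
      (placeVal (X - C β)).ρ (ratBase j (algebraMap K[X] (RatFunc K) p)) =
        AdjoinRoot.mk (X - C β) r := by
    rw [ratBase_algebraMap, hr, map_mul]
    refine ⟨?_, ?_⟩
    · rw [DVal.v_mul _ _ _ eX er, placeVal_v_self, hun.1]; simp
    · rw [map_mul, placeVal_ρ_self, hun.2, one_mul]
  have hunit : ∀ u : K[X], ¬ p ∣ u →
      (placeVal (X - C β)).v (ratBase j (algebraMap K[X] (RatFunc K) u)) = 0 ∧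
      (placeVal (X - C β)).ρ (ratBase j (algebraMap K[X] (RatFunc K) u)) =
        AdjoinRoot.of (X - C β) (AdjoinRoot.lift j β hβ (AdjoinRoot.mk p u)) := by
    intro u hu
    have h1 : ¬ (X - C β) ∣ u.map j := by
      intro h
      rw [dvd_iff_isRoot, IsRoot.def, eval_map] at h
      have hcop : IsCoprime u p := (hp.out.coprime_iff_not_dvd.mpr hu).symm
      obtain ⟨a, b, hab⟩ := hcop
      have h2 := congrArg (fun f => eval₂ j β f) hab
      simp only [eval₂_add, eval₂_mul, h, hβ, mul_zero, add_zero, eval₂_one] at h2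
      exact zero_ne_one h2
    rw [ratBase_algebraMap]
    refine ⟨(placeVal_unit _ h1).1, ?_⟩
    rw [(placeVal_unit _ h1).2, mk_X_sub_C, eval_map, AdjoinRoot.lift_mk]
  refine ⟨AdjoinRoot.mk (X - C β) r, by rwa [Ne, AdjoinRoot.mk_eq_zero], ?_⟩
  intro a ha
  obtain ⟨u, w, hu, hw, h1, h2⟩ := placeVal_rep p ha
  have hu0 : u ≠ 0 := by rintro rfl; exact hu (dvd_zero _)
  have hw0 : w ≠ 0 := by rintro rfl; exact hw (dvd_zero _)
  have eu : algebraMap K[X] (RatFunc K) u ≠ 0 := by simpa using hu0
  have ew : algebraMap K[X] (RatFunc K) w ≠ 0 := by simpa using hw0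
  have ep : algebraMap K[X] (RatFunc K) p ≠ 0 := by simpa using hp.out.ne_zero
  have bu := (_root_.map_ne_zero (ratBase j)).mpr eu
  have bw := (_root_.map_ne_zero (ratBase j)).mpr ew
  have bp := (_root_.map_ne_zero (ratBase j)).mpr ep
  obtain ⟨n, hn⟩ : ∃ n, n = (placeVal p).v a := ⟨_, rfl⟩
  rw [← hn] at h1 ⊢
  rw [h2, h1, map_mul, map_zpow₀, map_div₀]
  refine ⟨?_, ?_⟩
  · rw [DVal.v_mul _ _ _ (zpow_ne_zero _ bp) (div_ne_zero bu bw), DVal.v_zpow _ bp,
      DVal.v_div _ bu bw, hp1.1, (hunit u hu).1, (hunit w hw).1]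
    simp
  · rw [map_mul, map_zpow₀, map_div₀, hp1.2, (hunit u hu).2, (hunit w hw).2, map_div₀, map_div₀,
      mul_comm]

/-- Residues over `L(t)` at a root of `p`. -/
lemma res_ratBase_root (hm : Odd m) (p : K[X]) [hp : Fact (Irreducible p)] (hsep : p.Separable)
    {β : L} (hβ : p.eval₂ j β = 0) [Fact (Irreducible (X - C β))] (z : KM m (RatFunc K)) :
    (placeVal (X - C β)).res hm (KM.map m (ratBase j) z) =
      KM.map m (AdjoinRoot.of (X - C β))
        (KM.map m (AdjoinRoot.lift j β hβ) ((placeVal p).res hm z)) := by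
  obtain ⟨c, hc, h⟩ := ratBase_place j p hsep hβ
  have h1 := DVal.res_map hm (placeVal p) (placeVal (X - C β)) (ratBase j)
    ((AdjoinRoot.of (X - C β)).comp (AdjoinRoot.lift j β hβ)) 1 c hc
    (fun a ha => by rw [(h a ha).1, one_mul]) (fun a ha => (h a ha).2) z
  rw [h1, KM.map_map]
  simp

/-- Residues over `L(t)` at a place over a place where the residue vanishes. -/
lemma res_ratBase_zero (hm : Odd m) (q : K[X]) [hq : Fact (Irreducible q)] (Q : L[X])
    [hQ : Fact (Irreducible Q)] (hQq : Q ∣ q.map j) {z : KM m (RatFunc K)}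
    (hz : (placeVal q).res hm z = 0) :
    (placeVal Q).res hm (KM.map m (ratBase j) z) = 0 := by
  have eq0 : algebraMap K[X] (RatFunc K) q ≠ 0 := by simpa using hq.out.ne_zero
  have hU : z ∈ (placeVal q).U m := by
    refine DVal.mem_U_of_res_eq_zero hm _ eq0 (placeVal_v_self q) (placeVal_ρ_self q) ?_ hz
    intro g hg
    obtain ⟨f, rfl⟩ := AdjoinRoot.mk_surjective g
    have hf : ¬ q ∣ f := by rwa [Ne, AdjoinRoot.mk_eq_zero] at hg
    have hf0 : f ≠ 0 := by rintro rfl; exact hf (dvd_zero _)
    exact ⟨algebraMap K[X] (RatFunc K) f, by simpa using hf0, (placeVal_unit q hf).1,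
      (placeVal_unit q hf).2⟩
  apply DVal.res_eq_zero_of_mem_U hm
  unfold DVal.U at hU ⊢
  clear hz
  induction hU using Algebra.adjoin_induction with
  | mem x hx =>
    obtain ⟨a, ⟨ha0, ha⟩, rfl⟩ := hx
    rw [KM.map_sym]
    refine Algebra.subset_adjoin ⟨_, ⟨(_root_.map_ne_zero (ratBase j)).mpr ha0, ?_⟩, rfl⟩
    obtain ⟨u, w, hu, hw, h1, -⟩ := placeVal_rep q ha0
    rw [ha, zpow_zero, one_mul] at h1
    have hunit : ∀ u : K[X], ¬ q ∣ u → u ≠ 0 ∧ ¬ Q ∣ u.map j := by
      intro u hu
      refine ⟨by rintro rfl; exact hu (dvd_zero _), fun h => ?_⟩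
      have hcop : IsCoprime u q := (hq.out.coprime_iff_not_dvd.mpr hu).symm
      obtain ⟨a, b, hab⟩ := hcop
      have h2 : (a.map j) * (u.map j) + (b.map j) * (q.map j) = 1 := by
        rw [← Polynomial.map_mul, ← Polynomial.map_mul, ← Polynomial.map_add, hab,
          Polynomial.map_one]
      have h3 : Q ∣ 1 := by
        rw [← h2]
        exact dvd_add (h.mul_left _) (hQq.mul_left _)
      exact hQ.out.not_isUnit (isUnit_of_dvd_one h3)
    have nu := hunit u hu
    have nw := hunit w hw
    have mu : algebraMap L[X] (RatFunc L) (u.map j) ≠ 0 := by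
      rw [Ne, FaithfulSMul.algebraMap_eq_zero_iff, Polynomial.map_eq_zero]; exact nu.1
    have mw : algebraMap L[X] (RatFunc L) (w.map j) ≠ 0 := by
      rw [Ne, FaithfulSMul.algebraMap_eq_zero_iff, Polynomial.map_eq_zero]; exact nw.1
    rw [h1, map_div₀, ratBase_algebraMap, ratBase_algebraMap, DVal.v_div _ mu mw,
      (placeVal_unit Q nu.2).1, (placeVal_unit Q nw.2).1, sub_zero]
  | algebraMap r => rw [AlgHom.commutes]; exact Subalgebra.algebraMap_mem _ _
  | add x y _ _ hx hy => rw [map_add]; exact add_mem hx hy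
  | mul x y _ _ hx hy => rw [map_mul]; exact mul_mem hx hy

lemma ratBase_zero {a : RatFunc K} (ha : a ≠ 0) :
    (valZero L).v (ratBase j a) = (valZero K).v a ∧
    (valZero L).ρ (ratBase j a) = j ((valZero K).ρ a) := by
  obtain ⟨u, w, hu, hw, h1, h2⟩ : Rep (evalRingHom (0 : K)) X a ((valZero K).v a)
    ((valZero K).ρ a) := DVal.ofPrime_rep (K := RatFunc K) (evalRingHom (0 : K)) X _ _ _ ha
  have hu' : u.eval 0 ≠ 0 := hu
  have hw' : w.eval 0 ≠ 0 := hw
  have he : ∀ f : K[X], (f.map j).eval 0 = j (f.eval 0) := by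
    intro f
    rw [eval_map, ← map_zero j, eval₂_at_apply]
  have h3 := valZero_eq (x := ratBase j a) ((valZero K).v a) (u.map j) (w.map j)
    (by rw [he]; simpa using hu') (by rw [he]; simpa using hw') (by
      conv_lhs => rw [h1]
      rw [map_mul, map_zpow₀, map_div₀, ratBase_algebraMap, ratBase_algebraMap,
        ratBase_algebraMap, map_X])
  refine ⟨h3.1, ?_⟩
  rw [h3.2, h2, he, he, map_div₀]
  rfl

lemma ratBase_ratInv : (ratBase j).comp (ratInv K) = (ratInv L).comp (ratBase j) := by
  apply IsLocalization.ringHom_ext (nonZeroDivisors K[X])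
  apply Polynomial.ringHom_ext
  · intro a
    simp only [RingHom.comp_apply]
    rw [ratInv_algebraMap, aeval_C, ratBase_const, ratBase_algebraMap, map_C, ratInv_algebraMap,
      aeval_C]
  · simp only [RingHom.comp_apply]
    rw [ratInv_algebraMap, aeval_X, map_inv₀, ratBase_X, ratBase_algebraMap, map_X,
      ratInv_algebraMap, aeval_X]

lemma ratBase_infty {a : RatFunc K} (ha : a ≠ 0) :
    (valInfty L).v (ratBase j a) = (valInfty K).v a ∧
    (valInfty L).ρ (ratBase j a) = j ((valInfty K).ρ a) := by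
  have h1 : ratInv L (ratBase j a) = ratBase j (ratInv K a) :=
    (congrArg (fun f : RatFunc K →+* RatFunc L => f a) (ratBase_ratInv j)).symm
  change (valZero L).v (ratInv L (ratBase j a)) = (valZero K).v (ratInv K a) ∧
    (valZero L).ρ (ratInv L (ratBase j a)) = j ((valZero K).ρ (ratInv K a))
  rw [h1]
  exact ratBase_zero j ((_root_.map_ne_zero (ratInv K)).mpr ha)

lemma res_ratBase_infty (hm : Odd m) (z : KM m (RatFunc K)) :
    (valInfty L).res hm (KM.map m (ratBase j) z) = KM.map m j ((valInfty K).res hm z) := by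
  have h1 := DVal.res_map hm (valInfty K) (valInfty L) (ratBase j) j 1 1 one_ne_zero
    (fun a ha => by rw [(ratBase_infty j ha).1, one_mul])
    (fun a ha => by rw [(ratBase_infty j ha).2, one_zpow, mul_one]) z
  rw [h1]
  simp

end baseChange

section trace

variable {K L : Type u} [Field K] [Field L] [Algebra K L] [FiniteDimensional K L] [IsGalois K L]

/-- For a Galois extension the sum of the conjugates of a class comes from the base field. -/
theorem exists_trace (hm : Odd m) (x : KM m L) :
    ∃ y : KM m K, KM.map m (algebraMap K L) y =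
      ∑ σ : L ≃ₐ[K] L, KM.map m (σ : L →+* L) x := by
  obtain ⟨α, hα⟩ := Field.exists_primitive_element K L
  have hint : IsIntegral K α := IsIntegral.of_finite K α
  obtain ⟨p, hp⟩ : ∃ p, p = minpoly K α := ⟨_, rfl⟩
  have hirr : Fact (Irreducible p) := ⟨hp ▸ minpoly.irreducible hint⟩
  have hpm : p.Monic := hp ▸ minpoly.monic hint
  have hsep : p.Separable := hp ▸ Algebra.IsSeparable.isSeparable K α
  have hroot : ∀ σ : L ≃ₐ[K] L, p.eval₂ (algebraMap K L) (σ α) = 0 := by
    intro σ
    have h1 : aeval (σ α) p = 0 := by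
      rw [aeval_algEquiv, AlgHom.comp_apply, hp, minpoly.aeval, map_zero]
    exact h1
  -- the isomorphism with the abstract extension
  obtain ⟨e, he⟩ : ∃ e : L →+* AdjoinRoot p, ∀ σ : L ≃ₐ[K] L,
      (AdjoinRoot.lift (algebraMap K L) (σ α) (hroot σ)).comp e = (σ : L →+* L) := by
    obtain ⟨ψ, hψmk⟩ : ∃ ψ : AdjoinRoot p →+* L, ∀ f : K[X], ψ (AdjoinRoot.mk p f) = aeval α f :=
      ⟨AdjoinRoot.lift (algebraMap K L) α (hroot AlgEquiv.refl),
        fun f => AdjoinRoot.lift_mk (hroot AlgEquiv.refl) f⟩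
    have hψo : ∀ a : K, ψ (AdjoinRoot.of p a) = algebraMap K L a := by
      intro a
      rw [← AdjoinRoot.mk_C, hψmk, aeval_C]
    have hψr : ψ (AdjoinRoot.root p) = α := by
      rw [← AdjoinRoot.mk_X, hψmk, aeval_X]
    have hψ : Function.Surjective ψ := by
      intro z
      have hz : z ∈ IntermediateField.adjoin K {α} := by rw [hα]; trivial
      rw [IntermediateField.mem_adjoin_simple_iff] at hz
      obtain ⟨f, g, hfg⟩ := hz
      refine ⟨AdjoinRoot.mk p f / AdjoinRoot.mk p g, ?_⟩
      rw [map_div₀, hfg, hψmk, hψmk]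
    obtain ⟨e, he1, he2⟩ := exists_inv_of_surjective hψ
    refine ⟨e, fun σ => ?_⟩
    have h1 : AdjoinRoot.lift (algebraMap K L) (σ α) (hroot σ) = (σ : L →+* L).comp ψ := by
      apply AdjoinRoot.ringHom_ext
      · ext a
        simp only [RingHom.comp_apply, AdjoinRoot.lift_of, hψo]
        exact (σ.commutes a).symm
      · simp only [RingHom.comp_apply, AdjoinRoot.lift_root, hψr]
        rfl
    rw [h1, RingHom.comp_assoc, he2, RingHom.comp_id]
  obtain ⟨z, hz1, hz2⟩ := exists_single_residue hm p hpm (KM.map m e x)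
  have hfact : ∀ β : L, Fact (Irreducible (X - C β)) := irreducible_X_sub_C'
  -- the difference
  set T : KM m (RatFunc L) := ∑ σ : L ≃ₐ[K] L,
    KM.map m (algebraMap L (RatFunc L)) (KM.map m (σ : L →+* L) x) *
      sym m (algebraMap L[X] (RatFunc L) (X - C (σ α))) with hT
  have eX : ∀ β : L, algebraMap L[X] (RatFunc L) (X - C β) ≠ 0 := by
    intro β
    rw [Ne, FaithfulSMul.algebraMap_eq_zero_iff]; exact X_sub_C_ne_zero β
  have hconst : ∀ (Q : L[X]) [Fact (Irreducible Q)] (c : KM m L),
      (placeVal Q).θ hm (KM.map m (algebraMap L (RatFunc L)) c) =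
        ⟨KM.map m (AdjoinRoot.of Q) c, 0⟩ := by
    intro Q hQ c
    have hnd : ∀ a : L, a ≠ 0 → ¬ Q ∣ C a := fun a ha h => by
      have h1 := isUnit_of_dvd_unit h (isUnit_C.mpr (isUnit_iff_ne_zero.mpr ha))
      exact hQ.out.not_isUnit h1
    apply DVal.θ_const
    · intro a ha
      rw [algebraMap_ratFunc_eq]
      exact (placeVal_unit Q (hnd a ha)).1
    · intro a ha
      rw [algebraMap_ratFunc_eq]
      exact (placeVal_unit Q (hnd a ha)).2
  have hterm : ∀ (Q : L[X]) [Fact (Irreducible Q)] (c : KM m L) (β : L),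
      (placeVal Q).res hm (KM.map m (algebraMap L (RatFunc L)) c *
        sym m (algebraMap L[X] (RatFunc L) (X - C β))) =
      (((placeVal Q).v (algebraMap L[X] (RatFunc L) (X - C β)) : ℤ) : ZMod m) •
        KM.map m (AdjoinRoot.of Q) c := by
    intro Q hQ c β
    have h1 := hconst Q c
    rw [DVal.res_mul_sym hm _ _ (eX β) (by rw [DVal.res, h1]), DVal.spec_apply, h1]
  obtain ⟨c, hc⟩ := milnor hm (KM.map m (ratBase (algebraMap K L)) z - T) (by
    intro Q hQm hQ
    rw [DVal.res_sub, hT, DVal.res_sum, sub_eq_zero]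
    by_cases hQp : Q ∣ p.map (algebraMap K L)
    · -- a root of `p`
      obtain ⟨β, rfl⟩ : ∃ β, Q = X - C β := by
        have hspl : (p.map (algebraMap K L)).Splits := hp ▸ Normal.splits inferInstance α
        have h1 : Q.degree = 1 :=
          (hspl.of_dvd ((Polynomial.map_ne_zero hirr.out.ne_zero)) hQp).degree_eq_one_of_irreducible
            hQ.out
        refine ⟨-Q.coeff 0, ?_⟩
        have h2 := eq_X_add_C_of_degree_eq_one h1
        rw [hQm.leadingCoeff, C_1, one_mul] at h2
        conv_lhs => rw [h2]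
        rw [C_neg, sub_neg_eq_add]
      have hβ : p.eval₂ (algebraMap K L) β = 0 := by
        rw [dvd_iff_isRoot, IsRoot.def, eval_map] at hQp
        exact hQp
      obtain ⟨σ₀, hσ₀⟩ : ∃ σ : L ≃ₐ[K] L, σ α = β := by
        have h1 : IsConjRoot K α β := by
          rw [isConjRoot_iff_aeval_eq_zero hint, ← hp]
          exact hβ
        exact (h1.symm).exists_algEquiv
      subst hσ₀
      rw [res_ratBase_root (algebraMap K L) hm p hsep hβ z, hz1, KM.map_map _ _ x, he σ₀]
      rw [Finset.sum_eq_single σ₀]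
      · rw [hterm, placeVal_v_self]
        simp
      · intro σ _ hσ
        have hne : σ α ≠ σ₀ α := by
          intro h
          apply hσ
          have h3 : (σ : L →ₐ[K] L) = (σ₀ : L →ₐ[K] L) := by
            have h4 : ∀ z ∈ IntermediateField.adjoin K {α}, σ z = σ₀ z := by
              intro z hz
              rw [IntermediateField.mem_adjoin_simple_iff] at hz
              obtain ⟨f, g, rfl⟩ := hz
              rw [map_div₀, map_div₀]
              have h5 : ∀ f : K[X], σ (aeval α f) = σ₀ (aeval α f) := by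
                intro f
                have h6 := aeval_algEquiv σ α (R := K)
                have h7 := aeval_algEquiv σ₀ α (R := K)
                have h8 := congrArg (fun F : K[X] →ₐ[K] L => F f) h6
                have h9 := congrArg (fun F : K[X] →ₐ[K] L => F f) h7
                simp only [AlgHom.comp_apply] at h8 h9
                have h10 : aeval (σ α) f = aeval (σ₀ α) f := by rw [h]
                rw [h8, h9] at h10
                exact h10
              rw [h5 f, h5 g]
            ext z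
            exact h4 z (by rw [hα]; trivial)
          ext z
          exact congrArg (fun F : L →ₐ[K] L => F z) h3
        rw [hterm, (placeVal_unit (X - C (σ₀ α)) ?_).1]
        · simp
        · intro hdvd
          rw [dvd_iff_isRoot, IsRoot.def, eval_sub, eval_X, eval_C, sub_eq_zero] at hdvd
          exact hne hdvd.symm
      · intro h
        exact absurd (Finset.mem_univ _) h
    · -- the other places
      have h0 : (placeVal Q).res hm (KM.map m (ratBase (algebraMap K L)) z) = 0 := by
        have : FiniteDimensional L (AdjoinRoot Q) :=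
          (AdjoinRoot.powerBasis hQ.out.ne_zero).finite
        have : FiniteDimensional K (AdjoinRoot Q) := FiniteDimensional.trans K L _
        have hr : IsIntegral K (AdjoinRoot.root Q) := IsIntegral.of_finite K _
        obtain ⟨q, hq⟩ : ∃ q, q = minpoly K (AdjoinRoot.root Q) := ⟨_, rfl⟩
        have hqi : Fact (Irreducible q) := ⟨hq ▸ minpoly.irreducible hr⟩
        have hqm : q.Monic := hq ▸ minpoly.monic hr
        have hQq : Q ∣ q.map (algebraMap K L) := by
          rw [← AdjoinRoot.mk_eq_zero]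
          have h1 : aeval (AdjoinRoot.root Q) q = 0 := by rw [hq]; exact minpoly.aeval _ _
          rw [aeval_def, IsScalarTower.algebraMap_eq K L (AdjoinRoot Q), ← eval₂_map] at h1
          rw [← AdjoinRoot.aeval_eq]
          exact h1
        exact res_ratBase_zero (algebraMap K L) hm q Q hQq
          (hz2 q hqm hqi (fun h => hQp (h ▸ hQq)))
      rw [h0, eq_comm]
      apply Finset.sum_eq_zero
      intro σ _
      rw [hterm, (placeVal_unit Q ?_).1]
      · simp
      · intro hdvd
        apply hQp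
        apply hdvd.trans
        rw [dvd_iff_isRoot, IsRoot.def, eval_map]
        exact hroot σ)
  -- the place at infinity
  have h1 := (valInfty L).θ_const hm (algebraMap L (RatFunc L)) (RingHom.id L)
    (fun a ha => (valInfty_const ha).1) (fun a ha => (valInfty_const ha).2)
  have h2 := congrArg ((valInfty L).res hm) hc
  have hTi : (valInfty L).res hm T = - ∑ σ : L ≃ₐ[K] L, KM.map m (σ : L →+* L) x := by
    rw [hT, DVal.res_sum, ← Finset.sum_neg_distrib]
    apply Finset.sum_congr rfl
    intro σ _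
    have h3 := h1 (KM.map m (σ : L →+* L) x)
    rw [DVal.res_mul_sym hm _ _ (eX _) (by rw [DVal.res, h3]), DVal.spec_apply, h3,
      (valInfty_monic (monic_X_sub_C (σ α))).1, natDegree_X_sub_C]
    simp
  rw [DVal.res_sub, res_ratBase_infty, hTi, DVal.res, h1, sub_neg_eq_add] at h2
  refine ⟨- (valInfty K).res hm z, ?_⟩
  rw [map_neg]
  have h3 : (0 : KM m L) = KM.map m (algebraMap K L) ((valInfty K).res hm z) +
    ∑ σ : L ≃ₐ[K] L, KM.map m (σ : L →+* L) x := h2
  rw [eq_comm, eq_neg_iff_add_eq_zero, add_comm]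
  exact h3.symm

end trace

end UnrH3
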