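import Pool.Agent.Lib.MP_859dd5_ag.NormF

/-!
# Unramified classes of norm forms of double covers

Let `k` be a field with `2 ≠ 0`, let `g` be a separable polynomial over `k` with roots
`θ 1, …, θ n`, and let `f 1, …, f n` be monic cubics over `k` with `f i = f j` whenever `θ i` and
`θ j` are conjugate. The double cover `w ^ 2 = d * ∏ f j (x j)` of the affine space with
coordinates `s 1, …, s n`, where `x j = ∑ s i * θ j ^ i`, is compared with the split double cover
`w' ^ 2 = d * disc g * ∏ f j (x' j)`: up to bounded exponent both have the same unramified classes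
in the Milnor K-ring modulo an odd integer.
-/

namespace Pool.Agent.Results.MP_859dd5_ag.NormCovers

open UnrH3 Polynomial

universe u

theorem result {m : ℕ} (hm : Odd m) {k L L' M : Type u} [Field k] [Field L] [Field L'] [Field M]
    [Algebra k L] [Algebra k L'] [Algebra k M] [Algebra L M] [IsScalarTower k L M]
    (h2 : (2 : k) ≠ 0) {n : ℕ} (g : k[X]) (hsep : g.Separable) (θ : Fin n → M)
    (hg : g.map (algebraMap k M) = ∏ j, (X - C (θ j)))
    (hθ : IntermediateField.adjoin L (Set.range θ) = ⊤)
    (f : Fin n → k[X]) (hf : ∀ j, (f j).Monic) (hf3 : ∀ j, (f j).natDegree = 3)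
    (hff : ∀ i j, minpoly k (θ i) = minpoly k (θ j) → f i = f j)
    (s : Fin n → L) (hs : AlgebraicIndependent k s)
    (x : Fin n → M) (hx : ∀ j, x j = ∑ i, algebraMap L M (s i) * θ j ^ (i : ℕ))
    (d : k) (hd : d ≠ 0) (w : L)
    (hw : (algebraMap L M w) ^ 2 = algebraMap k M d * ∏ j, aeval (x j) (f j))
    (hL : IntermediateField.adjoin k (insert w (Set.range s)) = ⊤)
    (x' : Fin n → L') (hx' : AlgebraicIndependent k x') (d' : k)
    (hd' : algebraMap k M d' =
      algebraMap k M d * (∏ i, ∏ j ∈ Finset.Ioi i, (θ j - θ i)) ^ 2)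
    (w' : L') (hw' : w' ^ 2 = algebraMap k L' d' * ∏ j, aeval (x' j) (f j))
    (hL' : IntermediateField.adjoin k (insert w' (Set.range x')) = ⊤) (N : ℕ)
    (hN : N = Module.finrank k (IntermediateField.adjoin k (Set.range θ))) :
    ∃ φ : L' →+* M, (∀ c, φ (algebraMap k L' c) = algebraMap k M c) ∧ (∀ j, φ (x' j) = x j) ∧
      (∀ ξ : KM m L, KM.map m (algebraMap L M) ξ = 0 → N • ξ = 0) ∧
      (∀ η : KM m L', KM.map m φ η = 0 → N • η = 0) ∧
      (∀ ξ : KM m L, Unr ξ → ∃ η : KM m L', Unr η ∧
        KM.map m φ η = N ^ 2 • KM.map m (algebraMap L M) ξ) ∧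
      (∀ η : KM m L', Unr η → ∃ ξ : KM m L, Unr ξ ∧
        KM.map m (algebraMap L M) ξ = N ^ 2 • KM.map m φ η) := by
  classical
  have hinj : Function.Injective θ :=
    (exists_perm_of_roots hsep hg (RingHom.id M) (fun _ => rfl)).1
  have hg0 : g ≠ 0 := hsep.ne_zero
  obtain ⟨hxi, -⟩ := norm_algInd hg0 hinj hg hθ hs hL hx hw
  obtain ⟨δ, hδ⟩ : ∃ δ, δ = (Matrix.vandermonde θ).det := ⟨_, rfl⟩
  have hδ0 : δ ≠ 0 := by
    rw [hδ]; exact Matrix.det_vandermonde_ne_zero_iff.mpr hinj
  have hδK : δ ∈ IntermediateField.adjoin k (Set.range θ) := by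
    rw [hδ, Matrix.det_vandermonde]
    refine prod_mem fun i _ => prod_mem fun j _ => sub_mem ?_ ?_ <;>
    exact IntermediateField.subset_adjoin _ _ ⟨_, rfl⟩
  -- the embedding of the split cover
  obtain ⟨φ, hφk, hφx, hφw⟩ : ∃ φ : L' →+* M, (∀ c, φ (algebraMap k L' c) = algebraMap k M c) ∧
      (∀ j, φ (x' j) = x j) ∧ (φ w' = δ * algebraMap L M w ∨ φ w' = -(δ * algebraMap L M w)) := by
    obtain ⟨Λ, hΛ, hΛa, ψ, -⟩ : ∃ (Λ : Type u) (_ : Field Λ) (_ : IsAlgClosed Λ) (ψ : M →+* Λ),
        True := ⟨AlgebraicClosure M, inferInstance, inferInstance, algebraMap _ _, trivial⟩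
    let _ : Algebra k Λ := (ψ.comp (algebraMap k M)).toAlgebra
    have hy : AlgebraicIndependent k (fun j => ψ (x j)) :=
      hxi.map' (f := (⟨ψ, fun _ => rfl⟩ : M →ₐ[k] Λ)) ψ.injective
    have hw'alg : IsAlgebraic (Algebra.adjoin k (Set.range x')) w' := by
      apply IsAlgebraic.of_pow (n := 2) (by norm_num)
      rw [hw']
      have h0 : ∀ j, x' j ∈ Algebra.adjoin k (Set.range x') := fun j =>
        Algebra.subset_adjoin ⟨j, rfl⟩
      have h1 : algebraMap k L' d' * ∏ j, aeval (x' j) (f j) ∈
          Algebra.adjoin k (Set.range x') := by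
        refine mul_mem (algebraMap_mem _ _) (prod_mem fun j _ => ?_)
        rw [aeval_def, eval₂_eq_sum_range]
        exact sum_mem fun i _ => mul_mem (algebraMap_mem _ _) (pow_mem (h0 j) i)
      exact isAlgebraic_algebraMap (⟨_, h1⟩ : Algebra.adjoin k (Set.range x'))
    obtain ⟨φ₀, hφ₀, hφ₀x⟩ := exists_embedding hx' hw'alg hL' hy
    have hφ₀k : ∀ c, φ₀ (algebraMap k L' c) = ψ (algebraMap k M c) := fun c =>
      congrArg (fun h : k →+* Λ => h c) hφ₀
    have hφ₀w : φ₀ w' = ψ (δ * algebraMap L M w) ∨ φ₀ w' = -ψ (δ * algebraMap L M w) := by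
      apply sq_eq_sq_iff_eq_or_eq_neg.mp
      rw [← map_pow, hw', map_mul, hφ₀k, hd', ← map_pow, mul_pow, hw, hδ,
        Matrix.det_vandermonde, map_prod, map_mul, map_mul, map_mul, map_prod]
      have h1 : ∀ j, φ₀ (aeval (x' j) (f j)) = ψ (aeval (x j) (f j)) := by
        intro j
        rw [aeval_monic_cubic (hf j) (hf3 j), aeval_monic_cubic (hf j) (hf3 j)]
        simp only [map_add, map_mul, map_pow, hφ₀k, hφ₀x]
      rw [Finset.prod_congr rfl (fun j _ => h1 j)]
      ring
    have hmem : ∀ z, φ₀ z ∈ ψ.fieldRange := by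
      have h1 : (IntermediateField.adjoin k (insert w' (Set.range x'))).toSubfield ≤
          ψ.fieldRange.comap φ₀ := by
        apply IntermediateField.adjoin_le_subfield
        · rintro _ ⟨c, rfl⟩
          change φ₀ (algebraMap k L' c) ∈ ψ.fieldRange
          rw [hφ₀k]; exact ⟨_, rfl⟩
        · rintro z (rfl | ⟨i, rfl⟩)
          · change φ₀ z ∈ ψ.fieldRange
            rcases hφ₀w with h | h
            · rw [h]; exact ⟨_, rfl⟩
            · rw [h]; exact neg_mem ⟨_, rfl⟩
          · change φ₀ (x' i) ∈ ψ.fieldRange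
            rw [hφ₀x]; exact ⟨_, rfl⟩
      intro z
      exact h1 (show z ∈ IntermediateField.adjoin k (insert w' (Set.range x')) by
        rw [hL']; trivial)
    obtain ⟨φ, hφ⟩ : ∃ φ : L' →+* M, ψ.comp φ = φ₀ := exists_factor _ _ hmem
    have hψφ : ∀ z, ψ (φ z) = φ₀ z := fun z => congrArg (fun h : L' →+* Λ => h z) hφ
    refine ⟨φ, fun c => ψ.injective ?_, fun j => ψ.injective ?_, ?_⟩
    · rw [hψφ, hφ₀k]
    · rw [hψφ, hφ₀x]
    · rcases hφ₀w with h | h
      · left; apply ψ.injective; rw [hψφ, h]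
      · right; apply ψ.injective; rw [hψφ, h, map_neg]
  refine ⟨φ, hφk, hφx, ?_⟩
  let _ : Algebra L' M := φ.toAlgebra
  have hφa : algebraMap L' M = φ := rfl
  have hT : IsScalarTower k L' M := IsScalarTower.of_algebraMap_eq fun c => (hφk c).symm
  -- `M` over the split cover
  have hθ' : IntermediateField.adjoin L' (Set.range θ) = ⊤ := by
    have h1 : (IntermediateField.adjoin L' (Set.range θ)).toSubfield = ⊤ := by
      have hθS : ∀ j, θ j ∈ IntermediateField.adjoin L' (Set.range θ) := fun j =>
        IntermediateField.subset_adjoin _ _ ⟨j, rfl⟩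
      have hkS : ∀ c, algebraMap k M c ∈ IntermediateField.adjoin L' (Set.range θ) := by
        intro c
        rw [← hφk]
        exact (IntermediateField.adjoin L' (Set.range θ)).algebraMap_mem (algebraMap k L' c)
      have hδS : δ ∈ IntermediateField.adjoin L' (Set.range θ) := by
        rw [hδ, Matrix.det_vandermonde]
        exact prod_mem fun i _ => prod_mem fun j _ => sub_mem (hθS _) (hθS _)
      apply norm_gen_top hinj hθ hL hx
      · exact hkS
      · exact hθS
      · intro j
        rw [← hφx]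
        exact (IntermediateField.adjoin L' (Set.range θ)).algebraMap_mem (x' j)
      · have h3 : algebraMap L M w = δ⁻¹ * (δ * algebraMap L M w) := by
          rw [inv_mul_cancel_left₀ hδ0]
        have h4 : δ * algebraMap L M w ∈ IntermediateField.adjoin L' (Set.range θ) := by
          have h5 := (IntermediateField.adjoin L' (Set.range θ)).algebraMap_mem w'
          rw [hφa] at h5
          rcases hφw with h | h
          · rwa [h] at h5
          · rw [h] at h5
            simpa using neg_mem h5
        change algebraMap L M w ∈ IntermediateField.adjoin L' (Set.range θ)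
        rw [h3]
        exact mul_mem (inv_mem hδS) h4
    apply IntermediateField.toSubfield_injective
    rw [h1]; rfl
  obtain ⟨hfin, hgal⟩ := isGalois_of_roots (k := k) (F := L) hsep hg hθ
  obtain ⟨hfin', hgal'⟩ := isGalois_of_roots (k := k) (F := L') hsep hg hθ'
  have hdvd : Module.finrank L M ∣ N := by
    rw [hN]; exact finrank_dvd_of_roots (k := k) (F := L) hsep hg hθ
  have hdvd' : Module.finrank L' M ∣ N := by
    rw [hN]; exact finrank_dvd_of_roots (k := k) (F := L') hsep hg hθ'
  -- the polynomials are constant on the orbits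
  have hfπ : ∀ (σ : M →+* M) (π : Equiv.Perm (Fin n)),
      (∀ c, σ (algebraMap k M c) = algebraMap k M c) → (∀ j, σ (θ j) = θ (π j)) →
      ∀ j, f (π j) = f j := by
    intro σ π hσ hσθ j
    apply hff
    rw [← hσθ]
    exact minpoly.algHom_eq (⟨σ, hσ⟩ : M →ₐ[k] M) σ.injective (θ j)
  have key := fun π hπ => norm_exists_perm (m := m) hm h2 hg0 hinj hg hθ hf hf3 hs hL hx hd hw π hπ
  have hsgn : ∀ π : Equiv.Perm (Fin n), ((Equiv.Perm.sign π : ℤ) : M) *
      ((Equiv.Perm.sign π : ℤ) : M) = 1 := by
    intro π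
    rw [← Int.cast_mul]
    have h1 : ((Equiv.Perm.sign π : ℤ)) * (Equiv.Perm.sign π : ℤ) = 1 := by
      rw [← Units.val_mul, Int.units_mul_self]; rfl
    rw [h1, Int.cast_one]
  -- two homomorphisms out of `L` that agree on the generators
  have extL : ∀ ρ : L →+* M, (∀ c, ρ (algebraMap k L c) = algebraMap k M c) →
      (∀ i, ρ (s i) = algebraMap L M (s i)) → ρ w = algebraMap L M w →
      ∀ z, ρ z = algebraMap L M z := by
    intro ρ h1 h3 h4 z
    have h5 : (IntermediateField.adjoin k (insert w (Set.range s))).toSubfield ≤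
        ρ.eqLocusField (algebraMap L M) := by
      apply IntermediateField.adjoin_le_subfield
      · rintro _ ⟨c, rfl⟩
        change ρ (algebraMap k L c) = algebraMap L M (algebraMap k L c)
        rw [h1, ← IsScalarTower.algebraMap_apply]
      · rintro z (rfl | ⟨i, rfl⟩)
        · exact h4
        · exact h3 i
    exact h5 (show z ∈ IntermediateField.adjoin k (insert w (Set.range s)) by rw [hL]; trivial)
  have extL' : ∀ ρ : L' →+* M, (∀ c, ρ (algebraMap k L' c) = algebraMap k M c) →
      (∀ j, ρ (x' j) = x j) → ρ w' = φ w' → ∀ z, ρ z = φ z := by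
    intro ρ h1 h3 h4 z
    have h5 : (IntermediateField.adjoin k (insert w' (Set.range x'))).toSubfield ≤
        ρ.eqLocusField φ := by
      apply IntermediateField.adjoin_le_subfield
      · rintro _ ⟨c, rfl⟩
        change ρ (algebraMap k L' c) = φ (algebraMap k L' c)
        rw [h1, hφk]
      · rintro z (rfl | ⟨i, rfl⟩)
        · exact h4
        · change ρ (x' i) = φ (x' i)
          rw [h3, hφx]
    exact h5 (show z ∈ IntermediateField.adjoin k (insert w' (Set.range x')) by
      rw [hL']; trivial)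
  -- the action on the Vandermonde determinant
  have hσδ : ∀ (σ : M →+* M) (π : Equiv.Perm (Fin n)), (∀ j, σ (θ j) = θ (π j)) →
      σ δ = ((Equiv.Perm.sign π : ℤ) : M) * δ := by
    intro σ π hσθ
    rw [hδ, ← det_vandermonde_perm, Matrix.det_vandermonde, Matrix.det_vandermonde, map_prod]
    refine Finset.prod_congr rfl fun i _ => ?_
    rw [map_prod]
    refine Finset.prod_congr rfl fun j _ => ?_
    rw [map_sub, hσθ, hσθ]
  refine ⟨fun ξ hξ => ?_, fun η hη => ?_, fun ξ hξ => ?_, fun η hη => ?_⟩
  · obtain ⟨c, hc⟩ := hdvd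
    rw [hc, mul_comm, mul_smul, finrank_smul_eq_zero hm _ rfl hξ, smul_zero]
  · obtain ⟨c, hc⟩ := hdvd'
    rw [hc, mul_comm, mul_smul, finrank_smul_eq_zero (L := M) hm _ rfl hη, smul_zero]
  · refine exists_unr_of_twisted (L₁ := L) (L₂ := L') (M := M) hm hdvd' ?_ hξ
    intro τ
    have hτk : ∀ c, (τ : M →+* M) (algebraMap k M c) = algebraMap k M c := by
      intro c
      rw [IsScalarTower.algebraMap_apply k L' M]
      exact τ.commutes _
    obtain ⟨-, π, hπ⟩ := exists_perm_of_roots hsep hg (τ : M →+* M) hτk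
    obtain ⟨κ, κ1, κ2, κ3, κ4⟩ := key π (hfπ (τ : M →+* M) π hτk hπ)
    have hκθ : ∀ j, κ (θ j) = θ j := fun j =>
      κ1 _ (IntermediateField.subset_adjoin _ _ ⟨j, rfl⟩)
    have hκk : ∀ c, κ (algebraMap k M c) = algebraMap k M c := fun c =>
      κ1 _ ((IntermediateField.adjoin k (Set.range θ)).algebraMap_mem c)
    have hτθ : ∀ j, τ (θ j) = θ (π j) := hπ
    have hτx : ∀ j, τ (x j) = x j := by
      intro j
      rw [← hφx]
      exact τ.commutes (x' j)
    have hτδ : τ δ = ((Equiv.Perm.sign π : ℤ) : M) * δ := hσδ (τ : M →+* M) π hπ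
    have hτw : τ (algebraMap L M w) = ((Equiv.Perm.sign π : ℤ) : M) * algebraMap L M w := by
      have h1 : τ (φ w') = φ w' := τ.commutes w'
      have h3 : τ (δ * algebraMap L M w) = δ * algebraMap L M w := by
        rcases hφw with h | h
        · rwa [h] at h1
        · rw [h, map_neg] at h1
          exact neg_injective h1
      rw [map_mul, hτδ] at h3
      have h4 : δ * τ (algebraMap L M w) =
          δ * (((Equiv.Perm.sign π : ℤ) : M) * algebraMap L M w) := by
        linear_combination ((Equiv.Perm.sign π : ℤ) : M) * h3 -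
          δ * τ (algebraMap L M w) * hsgn π
      exact mul_left_cancel₀ hδ0 h4
    refine ⟨κ, ?_, κ4⟩
    apply extL ((κ.comp (τ : M →+* M)).comp (algebraMap L M))
    · intro c
      change κ (τ (algebraMap L M (algebraMap k L c))) = _
      rw [← IsScalarTower.algebraMap_apply]
      have := hτk c
      change τ (algebraMap k M c) = _ at this
      rw [this, hκk]
    · have h1 : (fun i => κ (τ (algebraMap L M (s i)))) = fun i => algebraMap L M (s i) := by
        apply vandermonde_unique hinj
        intro j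
        obtain ⟨j', rfl⟩ := π.surjective j
        have h3 := congrArg (fun z => κ (τ z)) (hx j')
        simp only [map_sum, map_mul, map_pow, hτθ, hκθ] at h3
        rw [← h3, ← hx, hτx, κ2]
      intro i
      exact congrFun h1 i
    · change κ (τ (algebraMap L M w)) = _
      rw [hτw, map_mul, map_intCast, κ3, ← mul_assoc, hsgn, one_mul]
  · refine exists_unr_of_twisted (L₁ := L') (L₂ := L) (M := M) hm hdvd ?_ hη
    intro τ
    have hτk : ∀ c, (τ : M →+* M) (algebraMap k M c) = algebraMap k M c := by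
      intro c
      rw [IsScalarTower.algebraMap_apply k L M]
      exact τ.commutes _
    obtain ⟨-, π, hπ⟩ := exists_perm_of_roots hsep hg (τ : M →+* M) hτk
    have hfπ' := hfπ (τ : M →+* M) π hτk hπ
    obtain ⟨κ, κ1, κ2, κ3, κ4⟩ := key π⁻¹ (fun j => by
      have h1 := hfπ' (π⁻¹ j)
      rw [show π (π⁻¹ j) = j from π.apply_symm_apply j] at h1
      exact h1.symm)
    have hκθ : ∀ j, κ (θ j) = θ j := fun j =>
      κ1 _ (IntermediateField.subset_adjoin _ _ ⟨j, rfl⟩)
    have hκk : ∀ c, κ (algebraMap k M c) = algebraMap k M c := fun c =>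
      κ1 _ ((IntermediateField.adjoin k (Set.range θ)).algebraMap_mem c)
    have hτθ : ∀ j, τ (θ j) = θ (π j) := hπ
    have hτs : ∀ i, τ (algebraMap L M (s i)) = algebraMap L M (s i) := fun i => τ.commutes _
    have hτw : τ (algebraMap L M w) = algebraMap L M w := τ.commutes _
    have hτx : ∀ j, τ (x j) = x (π j) := by
      intro j
      rw [hx j, hx (π j), map_sum]
      refine Finset.sum_congr rfl fun i _ => ?_
      rw [map_mul, map_pow, hτs, hτθ]
    have hτδ : τ δ = ((Equiv.Perm.sign π : ℤ) : M) * δ := hσδ (τ : M →+* M) π hπ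
    refine ⟨κ, ?_, κ4⟩
    apply extL' ((κ.comp (τ : M →+* M)).comp φ)
    · intro c
      change κ (τ (φ (algebraMap k L' c))) = _
      rw [hφk]
      have := hτk c
      change τ (algebraMap k M c) = _ at this
      rw [this, hκk]
    · intro j
      change κ (τ (φ (x' j))) = _
      rw [hφx, hτx, κ2, show π⁻¹ (π j) = j from π.symm_apply_apply j]
    · change κ (τ (φ w')) = _
      have h1 : κ (τ (δ * algebraMap L M w)) = δ * algebraMap L M w := by
        rw [map_mul, hτδ, hτw, map_mul, map_mul, map_intCast, κ3, κ1 _ hδK,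
          Equiv.Perm.sign_inv]
        rw [show ((Equiv.Perm.sign π : ℤ) : M) * δ *
          (((Equiv.Perm.sign π : ℤ) : M) * algebraMap L M w) =
          (((Equiv.Perm.sign π : ℤ) : M) * ((Equiv.Perm.sign π : ℤ) : M)) *
          (δ * algebraMap L M w) by ring, hsgn, one_mul]
      rcases hφw with h | h
      · rw [h, h1]
      · rw [h, map_neg, map_neg, h1]

end Pool.Agent.Results.MP_859dd5_ag.NormCovers
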