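import Pool.Agent.Lib.MP_859dd5_ag.NormA
import Pool.Agent.Lib.MP_859dd5_ag.NormC
import Pool.Agent.Lib.MP_859dd5_ag.NormD

/-!
# Comparing two subfields of a common Galois extension
-/

namespace UnrH3

universe u v w

open Polynomial
open scoped Classical

variable {m : ℕ}

lemma Unr.nsmul {K : Type u} [Field K] {x : KM m K} (hx : Unr x) (n : ℕ) : Unr (n • x) := by
  rw [← Nat.cast_smul_eq_nsmul (ZMod m)]
  exact hx.smul _

/-- If each automorphism of `M` over `L₂` agrees, up to an endomorphism of `M` that acts trivially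
on unramified classes, with one over `L₁`, then the unramified classes of `L₁` come from those of
`L₂` up to the square of the degree. -/
theorem exists_unr_of_twisted (hm : Odd m) {L₁ L₂ M : Type u} [Field L₁] [Field L₂] [Field M]
    [Algebra L₁ M] [Algebra L₂ M] [FiniteDimensional L₂ M] [IsGalois L₂ M] {N : ℕ}
    (hN : Module.finrank L₂ M ∣ N)
    (h : ∀ τ : M ≃ₐ[L₂] M, ∃ κ : M →+* M,
      (∀ z : L₁, κ (τ (algebraMap L₁ M z)) = algebraMap L₁ M z) ∧
      ∀ ζ : KM m M, Unr ζ → KM.map m κ ζ = ζ) {ξ : KM m L₁} (hξ : Unr ξ) :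
    ∃ η : KM m L₂, Unr η ∧ KM.map m (algebraMap L₂ M) η =
      N ^ 2 • KM.map m (algebraMap L₁ M) ξ := by
  obtain ⟨ζ, hζ⟩ : ∃ ζ, ζ = KM.map m (algebraMap L₁ M) ξ := ⟨_, rfl⟩
  have hζu : Unr ζ := hζ ▸ hξ.map _
  have hinv : ∀ τ : M ≃ₐ[L₂] M, KM.map m (τ : M →+* M) ζ = ζ := by
    intro τ
    obtain ⟨κ, hκ1, hκ2⟩ := h τ
    have h1 : KM.map m κ (KM.map m (τ : M →+* M) ζ) = ζ := by
      rw [hζ, KM.map_map, KM.map_map]
      congr 2
      ext z
      exact hκ1 z
    rw [hκ2 _ (hζu.map _)] at h1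
    exact h1
  obtain ⟨y, hy⟩ := exists_trace (K := L₂) hm ζ
  have hy' : KM.map m (algebraMap L₂ M) y = Module.finrank L₂ M • ζ := by
    rw [hy, Finset.sum_congr rfl (fun τ _ => hinv τ), Finset.sum_const, Finset.card_univ,
      ← Nat.card_eq_fintype_card, IsGalois.card_aut_eq_finrank]
  have hyu : Unr (KM.map m (algebraMap L₂ M) y) := by
    rw [hy']; exact hζu.nsmul _
  have h2 := unr_smul_of_map hm hyu
  obtain ⟨c, hc⟩ := hN
  refine ⟨c ^ 2 • (Module.finrank L₂ M • y), h2.nsmul _, ?_⟩
  rw [map_nsmul, map_nsmul, hy', ← hζ, smul_smul, smul_smul]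
  congr 1
  rw [hc]; ring

section roots

variable {k F M : Type u} [Field k] [Field F] [Field M] [Algebra k F] [Algebra k M] [Algebra F M]
  [IsScalarTower k F M] {n : ℕ} {θ : Fin n → M} {g : k[X]}

/-- A field generated by the roots of a separable polynomial is Galois. -/
lemma isSplittingField_of_roots (hg : g.map (algebraMap k M) = ∏ j, (X - C (θ j)))
    (hθ : IntermediateField.adjoin F (Set.range θ) = ⊤) :
    (g.map (algebraMap k F)).IsSplittingField F M := by
  have hmap : (g.map (algebraMap k F)).map (algebraMap F M) = ∏ j, (X - C (θ j)) := by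
    rw [Polynomial.map_map, ← IsScalarTower.algebraMap_eq, hg]
  have hne : (∏ j, (X - C (θ j))) ≠ 0 := Finset.prod_ne_zero_iff.mpr fun j _ => X_sub_C_ne_zero _
  have hg0 : g.map (algebraMap k F) ≠ 0 := by
    intro h
    rw [h, Polynomial.map_zero] at hmap
    exact hne hmap.symm
  have hroot : (g.map (algebraMap k F)).rootSet M = Set.range θ := by
    ext z
    rw [mem_rootSet_of_ne hg0, aeval_def, ← eval_map, hmap, eval_prod, Finset.prod_eq_zero_iff]
    simp only [Finset.mem_univ, true_and, eval_sub, eval_X, eval_C, sub_eq_zero, Set.mem_range]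
    exact ⟨fun ⟨j, h⟩ => ⟨j, h.symm⟩, fun ⟨j, h⟩ => ⟨j, h.symm⟩⟩
  rw [isSplittingField_iff_intermediateField, hroot]
  refine ⟨?_, hθ⟩
  rw [hmap]
  exact Splits.prod fun j _ => Splits.X_sub_C _

lemma isGalois_of_roots (hsep : g.Separable) (hg : g.map (algebraMap k M) = ∏ j, (X - C (θ j)))
    (hθ : IntermediateField.adjoin F (Set.range θ) = ⊤) :
    FiniteDimensional F M ∧ IsGalois F M := by
  have h1 := isSplittingField_of_roots (k := k) hg hθ
  exact ⟨IsSplittingField.finiteDimensional M (g.map (algebraMap k F)),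
    IsGalois.of_separable_splitting_field (p := g.map (algebraMap k F)) hsep.map⟩

/-- An automorphism fixing `F` and the roots is trivial. -/
lemma algEquiv_eq_one_of_roots (hθ : IntermediateField.adjoin F (Set.range θ) = ⊤)
    {σ : M ≃ₐ[F] M} (h : ∀ j, σ (θ j) = θ j) : σ = 1 := by
  have h1 : IntermediateField.adjoin F (Set.range θ) ≤
      IntermediateField.fixedField (Subgroup.zpowers σ) := by
    rw [IntermediateField.adjoin_le_iff]
    rintro _ ⟨j, rfl⟩
    rintro ⟨_, l, rfl⟩
    have h2 : θ j ∈ IntermediateField.fixedField (Subgroup.zpowers σ) := by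
      rw [IntermediateField.mem_fixedField_iff]
      intro τ hτ
      obtain ⟨l, rfl⟩ := hτ
      have h3 : ∀ (τ : M ≃ₐ[F] M), τ ∈ MulAction.stabilizer (M ≃ₐ[F] M) (θ j) → τ (θ j) = θ j :=
        fun τ hτ => hτ
      apply h3
      exact zpow_mem (show σ ∈ MulAction.stabilizer (M ≃ₐ[F] M) (θ j) from h j) l
    exact h2 ⟨_, l, rfl⟩
  rw [hθ, top_le_iff] at h1
  ext z
  have h2 : z ∈ IntermediateField.fixedField (Subgroup.zpowers σ) := by rw [h1]; trivial
  exact h2 ⟨σ, Subgroup.mem_zpowers σ⟩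

/-- The degree over a larger field divides the degree over the ground field. -/
lemma finrank_dvd_of_roots (hsep : g.Separable)
    (hg : g.map (algebraMap k M) = ∏ j, (X - C (θ j)))
    (hθ : IntermediateField.adjoin F (Set.range θ) = ⊤) :
    Module.finrank F M ∣ Module.finrank k (IntermediateField.adjoin k (Set.range θ)) := by
  obtain ⟨h1, h2⟩ := isGalois_of_roots hsep hg hθ
  obtain ⟨K₀, hK₀⟩ : ∃ K₀, K₀ = IntermediateField.adjoin k (Set.range θ) := ⟨_, rfl⟩
  rw [← hK₀]
  have hmem : ∀ j, θ j ∈ K₀ := fun j => by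
    rw [hK₀]; exact IntermediateField.subset_adjoin _ _ ⟨j, rfl⟩
  have hg' : g.map (algebraMap k K₀) = ∏ j, (X - C (⟨θ j, hmem j⟩ : K₀)) := by
    apply Polynomial.map_injective (algebraMap K₀ M) (algebraMap K₀ M).injective
    rw [Polynomial.map_map, ← IsScalarTower.algebraMap_eq, hg, Polynomial.map_prod]
    refine Finset.prod_congr rfl fun j _ => ?_
    rw [Polynomial.map_sub, Polynomial.map_X, Polynomial.map_C]
    rfl
  have hθ' : IntermediateField.adjoin k (Set.range fun j => (⟨θ j, hmem j⟩ : K₀)) = ⊤ := by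
    apply IntermediateField.map_injective K₀.val
    rw [IntermediateField.adjoin_map, ← AlgHom.fieldRange_eq_map, IntermediateField.fieldRange_val,
      ← Set.range_comp]
    exact hK₀.symm
  obtain ⟨h3, h4⟩ := isGalois_of_roots (F := k) (k := k) hsep hg' hθ'
  have h5 := IsGalois.card_aut_eq_finrank k K₀
  have h6 := IsGalois.card_aut_eq_finrank F M
  rw [← h5, ← h6]
  let f : (M ≃ₐ[F] M) →* (K₀ ≃ₐ[k] K₀) :=
    (AlgEquiv.restrictNormalHom K₀).comp (AlgEquiv.restrictScalarsHom k)
  apply Subgroup.card_dvd_of_injective f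
  rw [injective_iff_map_eq_one]
  intro σ hσ
  apply algEquiv_eq_one_of_roots hθ
  intro j
  have h7 := AlgEquiv.restrictNormal_commutes (AlgEquiv.restrictScalars k σ) K₀ ⟨θ j, hmem j⟩
  have h8 : (AlgEquiv.restrictScalars k σ).restrictNormal K₀ = 1 := hσ
  rw [h8] at h7
  exact h7.symm

/-- A field endomorphism over `k` permutes the roots. -/
lemma exists_perm_of_roots (hsep : g.Separable)
    (hg : g.map (algebraMap k M) = ∏ j, (X - C (θ j))) (σ : M →+* M)
    (hσ : ∀ c, σ (algebraMap k M c) = algebraMap k M c) :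
    Function.Injective θ ∧ ∃ π : Equiv.Perm (Fin n), ∀ j, σ (θ j) = θ (π j) := by
  have hinj : Function.Injective θ := by
    have h1 : (∏ j, (X - C (θ j))).Separable := by
      rw [← hg]; exact hsep.map
    exact h1.injective_of_prod_X_sub_C
  refine ⟨hinj, ?_⟩
  have h2 : ∀ j, ∃ i, σ (θ j) = θ i := by
    intro j
    have h3 : (g.map (algebraMap k M)).eval (σ (θ j)) = 0 := by
      have h4 : g.eval₂ (algebraMap k M) (θ j) = 0 := by
        rw [← eval_map, hg, eval_prod, Finset.prod_eq_zero_iff]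
        exact ⟨j, Finset.mem_univ j, by simp⟩
      have h5 := congrArg σ h4
      rw [hom_eval₂, map_zero] at h5
      rw [eval_map]
      have h6 : σ.comp (algebraMap k M) = algebraMap k M := RingHom.ext hσ
      rw [h6] at h5
      exact h5
    rw [hg, eval_prod, Finset.prod_eq_zero_iff] at h3
    obtain ⟨i, _, hi⟩ := h3
    rw [eval_sub, eval_X, eval_C, sub_eq_zero] at hi
    exact ⟨i, hi⟩
  choose p hp using h2
  have hpi : Function.Injective p := by
    intro i j hij
    apply hinj
    apply σ.injective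
    rw [hp, hp, hij]
  exact ⟨Equiv.ofBijective p (Finite.injective_iff_bijective.mp hpi), hp⟩

/-- The Vandermonde determinant of a permuted family. -/
lemma det_vandermonde_perm (π : Equiv.Perm (Fin n)) :
    (Matrix.vandermonde (fun j => θ (π j))).det =
      ((Equiv.Perm.sign π : ℤ) : M) * (Matrix.vandermonde θ).det := by
  rw [← Matrix.det_permute]
  rfl

/-- Solving a Vandermonde system. -/
lemma vandermonde_unique (hinj : Function.Injective θ) {s t : Fin n → M}
    (h : ∀ j, ∑ i, s i * θ j ^ (i : ℕ) = ∑ i, t i * θ j ^ (i : ℕ)) : s = t := by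
  rw [← sub_eq_zero]
  apply Matrix.eq_zero_of_forall_index_sum_mul_pow_eq_zero hinj
  intro j
  rw [← sub_eq_zero.mpr (h j), ← Finset.sum_sub_distrib]
  exact Finset.sum_congr rfl fun i _ => sub_mul _ _ _

/-- The solution of a Vandermonde system lies in each subfield that contains the data. -/
lemma vandermonde_mem (hinj : Function.Injective θ) {s : Fin n → M} {S : Subfield M}
    (hθ : ∀ j, θ j ∈ S) (h : ∀ j, ∑ i, s i * θ j ^ (i : ℕ) ∈ S) (i : Fin n) : s i ∈ S := by
  have h3 : (Matrix.vandermonde (fun j => (⟨θ j, hθ j⟩ : S))).det ≠ 0 := by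
    rw [Matrix.det_vandermonde_ne_zero_iff]
    intro i j hij
    exact hinj (congrArg Subtype.val hij)
  obtain ⟨t, ht⟩ : ∃ t : Fin n → S, (Matrix.vandermonde (fun j => (⟨θ j, hθ j⟩ : S))).mulVec t =
      fun j => ⟨_, h j⟩ := by
    refine ⟨(Matrix.vandermonde (fun j => (⟨θ j, hθ j⟩ : S)))⁻¹.mulVec (fun j => ⟨_, h j⟩), ?_⟩
    rw [Matrix.mulVec_mulVec, Matrix.mul_nonsing_inv _ (isUnit_iff_ne_zero.mpr h3),
      Matrix.one_mulVec]
  have h5 : s = fun i => (t i : M) := by
    apply vandermonde_unique hinj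
    intro j
    have h6 := congrArg Subtype.val (congrFun ht j)
    simp only [Matrix.mulVec, dotProduct, Matrix.vandermonde_apply] at h6
    rw [← h6]
    push_cast
    exact Finset.sum_congr rfl fun i _ => mul_comm _ _
  rw [h5]
  exact (t i).2

end roots

end UnrH3
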