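import Pool.Agent.Lib.MP_859dd5_ag.Mg.G064

/-!
# The Frobenius on unramified classes of constant twisted covers

Let `p` be a prime congruent to `1` modulo `4`. On the unramified classes of degree at least two
of the Milnor K-ring modulo an odd integer of the variety
`w ^ 2 = d * (x_1 ^ 3 - a_1 x_1) * ... * (x_n ^ 3 - a_n x_n)` over a rational function field, with
`d ^ 2 * a_1 * ... * a_n` a fourth power, the Frobenius satisfies an explicit quadratic equation.
-/

namespace Pool.Agent.Results.MP_859dd5_ag.OrdinaryCM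

open UnrH3

universe u

theorem result {p m : ℕ} [Fact p.Prime] (hp4 : p % 4 = 1) (hm : Odd m) (hpm : p.Coprime m)
    {F E : Type u} [Field F] [Field E] [Algebra (ZMod p) F] [Algebra.IsAlgebraic (ZMod p) F]
    [Algebra F E] {ι : F} (hι : ι ^ 2 = -1) {ϖ : GaussianInt} (hϖ : ϖ.norm = p)
    (hϖ1 : (⟨2, 2⟩ : GaussianInt) ∣ ϖ - 1) (hϖι : (ϖ.re : F) + ϖ.im * ι = 0)
    {r n : ℕ} (hn : 0 < n) (t : Fin r → E) (x : Fin n → E)
    (htx : AlgebraicIndependent F (Sum.elim t x)) (a : Fin n → E)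
    (ha : ∀ i, a i ∈ IntermediateField.adjoin F (Set.range t)) (ha0 : ∀ i, a i ≠ 0)
    (d : E) (hd : d ∈ IntermediateField.adjoin F (Set.range t)) (hd0 : d ≠ 0)
    (c : E) (hc : c ∈ IntermediateField.adjoin F (Set.range t))
    (hc4 : c ^ 4 = d ^ 2 * ∏ i, a i) (w : E)
    (hw : w ^ 2 = d * ∏ i, (x i ^ 3 - a i * x i))
    (hE : IntermediateField.adjoin F (Set.range t ∪ insert w (Set.range x)) = ⊤)
    {s b : ℕ} (hs : 0 < s) (σ : E →+* E)
    (σF : ∀ z : F, σ (algebraMap F E z) = algebraMap F E z ^ p ^ s)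
    (σt : ∀ i, σ (t i) = t i) (σx : ∀ i, σ (x i) = x i) (σw : σ w = w)
    (σa : ∀ i, σ (a i) = a i) (σd : σ d = d) (σc : σ c = algebraMap F E ι ^ b * c)
    {z : GaussianInt} (hz : z = ⟨0, 1⟩ ^ (3 * b) * ϖ ^ (s * n)) :
    (∀ j ≥ 2, ∀ ξ ∈ KM.deg m E j, Unr ξ →
      (p : ℤ) ^ (2 * s * j) • ξ - (2 * z.re * (p : ℤ) ^ (s * j)) • KM.map m σ ξ +
        (p : ℤ) ^ (s * n) • KM.map m σ (KM.map m σ ξ) = 0) ∧
    (z - (p : GaussianInt) ^ (2 * s)).norm ≠ 0 ∧
    ∀ ξ ∈ KM.deg m E 3, Unr ξ → KM.map m σ ξ = (p : ℤ) ^ s • ξ →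
      (z - (p : GaussianInt) ^ (2 * s)).norm • ξ = 0 := by
  classical
  have hpF : CharP F p := charP_of_injective_algebraMap (algebraMap (ZMod p) F).injective p
  have hp2 : p ≠ 2 := by
    rintro rfl
    exact absurd hp4 (by norm_num)
  have h2F : (2 : F) ≠ 0 := by
    intro h
    have h1 : ((2 : ℕ) : F) = 0 := by exact_mod_cast h
    rw [CharP.cast_eq_zero_iff F p] at h1
    have h3 := Nat.le_of_dvd (by norm_num) h1
    have h4 := (Fact.out : p.Prime).two_le
    omega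
  have hznorm : z.norm = (p : ℤ) ^ (s * n) := by
    have hu : (⟨0, 1⟩ : GaussianInt).norm = 1 := by decide
    have hpow : ∀ (y : GaussianInt) (k : ℕ), (y ^ k).norm = y.norm ^ k := fun y k =>
      map_pow (Zsqrtd.normMonoidHom (d := -1)) y k
    rw [hz, Zsqrtd.norm_mul, hpow, hpow, hu, hϖ, one_pow, one_mul]
  -- the first assertion
  have hmain : ∀ j ≥ 2, ∀ ξ ∈ KM.deg m E j, Unr ξ →
      (p : ℤ) ^ (2 * s * j) • ξ - (2 * z.re * (p : ℤ) ^ (s * j)) • KM.map m σ ξ +
        (p : ℤ) ^ (s * n) • KM.map m σ (KM.map m σ ξ) = 0 := by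
    intro j hj ξ hξj hξ
    obtain ⟨Λ, hΛ, hΛa, φ, hφ⟩ : ∃ (Λ : Type u) (_ : Field Λ) (_ : IsAlgClosed Λ) (φ : E →+* Λ),
        True := ⟨AlgebraicClosure E, inferInstance, inferInstance, algebraMap _ _, trivial⟩
    let _ : Algebra F Λ := (φ.comp (algebraMap F E)).toAlgebra
    have halg : algebraMap F Λ = φ.comp (algebraMap F E) := rfl
    have hpΛ : CharP Λ p := charP_of_injective_algebraMap (algebraMap F Λ).injective p
    obtain ⟨F₀, hF₀⟩ : ∃ F₀, F₀ = (φ.comp (algebraMap F E)).fieldRange := ⟨_, rfl⟩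
    have hFF : ∀ b : F, φ (algebraMap F E b) ∈ F₀ := fun b => by rw [hF₀]; exact ⟨b, rfl⟩
    have hFmem : ∀ z ∈ F₀, ∃ b : F, φ (algebraMap F E b) = z := fun z hz => by
      rw [hF₀] at hz; exact hz
    have h2 : (2 : Λ) ≠ 0 := by
      intro h
      apply h2F
      apply (algebraMap F Λ).injective
      rw [map_ofNat, map_zero]; exact h
    obtain ⟨ι', hι'⟩ : ∃ ι' : Λ, ι' = φ (algebraMap F E ι) := ⟨_, rfl⟩
    have hι'2 : ι' ^ 2 = -1 := by rw [hι', ← map_pow, ← map_pow, hι]; simp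
    have hϖι' : (ϖ.re : Λ) + ϖ.im * ι' = 0 := by
      have h1 := congrArg (algebraMap F Λ) hϖι
      rw [map_add, map_mul, map_intCast, map_intCast, map_zero] at h1
      rw [hι']; exact h1
    have hind : AlgebraicIndependent F (Sum.elim (fun i => φ (t i)) (fun i => φ (x i))) := by
      have h1 : AlgebraicIndependent F ((⟨φ, fun _ => rfl⟩ : E →ₐ[F] Λ) ∘ Sum.elim t x) :=
        htx.map' φ.injective
      rwa [Sum.comp_elim] at h1
    have ht := indSet_of_sum hind
    have hx := indFam_of_sum hind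
    rw [halg, ← hF₀] at ht hx
    obtain ⟨k, hk⟩ : ∃ k, k = adj F₀ (Set.range (fun i => φ (t i))) := ⟨_, rfl⟩
    rw [← hk] at hx
    have hFk : F₀ ≤ k := by rw [hk]; exact le_adj _ _
    have hmemk : ∀ y ∈ IntermediateField.adjoin F (Set.range t), φ y ∈ k := by
      have h1 : (IntermediateField.adjoin F (Set.range t)).toSubfield ≤ k.comap φ := by
        apply IntermediateField.adjoin_le_subfield
        · rintro _ ⟨y, rfl⟩
          exact hFk (hFF y)
        · rintro _ ⟨i, rfl⟩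
          change φ (t i) ∈ k
          rw [hk]
          exact subset_adj _ _ ⟨i, rfl⟩
      exact fun y hy => h1 hy
    have htors : ∀ z ∈ F₀, z ≠ 0 → ∃ l > 0, z ^ l = 1 := by
      intro z hz hz0
      obtain ⟨y, rfl⟩ := hFmem z hz
      have hy : y ≠ 0 := by
        rintro rfl
        exact hz0 (by rw [map_zero, map_zero])
      obtain ⟨l, hl, h1⟩ := torsion_of_algebraic (p := p) hy
      exact ⟨l, hl, by rw [← map_pow, ← map_pow, h1, map_one, map_one]⟩
    -- the constants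
    have ha4 : ∀ i, ∃ z : Λ, z ^ 4 = φ (a i) := fun i =>
      IsAlgClosed.exists_pow_nat_eq _ (by norm_num)
    choose s' hs' using ha4
    have hs'0 : ∀ i, s' i ≠ 0 := by
      intro i h
      have h1 := hs' i
      rw [h, zero_pow (by norm_num)] at h1
      exact ha0 i (by simpa using h1.symm)
    obtain ⟨X, hX⟩ : ∃ X : Fin n → Λ, X = fun i => φ (x i) / s' i ^ 2 := ⟨_, rfl⟩
    have hxX : ∀ i, φ (x i) = s' i ^ 2 * X i := by
      intro i
      rw [hX]
      exact (mul_div_cancel₀ _ (pow_ne_zero 2 (hs'0 i))).symm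
    have hXnot : ∀ i, X i ∉ cl (k : Set Λ) := by
      intro i h
      apply hx i
      refine cl_mono Set.subset_union_left ?_
      change φ (x i) ∈ cl (k : Set Λ)
      rw [hxX]
      refine mul_mem (pow_mem ?_ 2) h
      apply mem_cl_of_pow (n := 4) (by norm_num)
      rw [hs']; exact subset_cl _ (hmemk _ (ha i))
    have hYex : ∀ i, ∃ z : Λ, z ^ 2 = X i ^ 3 - X i := fun i =>
      IsAlgClosed.exists_pow_nat_eq _ (by norm_num)
    choose Y hY using hYex
    have hY0 : ∀ i, Y i ≠ 0 := by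
      intro i h
      apply cube_sub_ne_zero (hXnot i)
      rw [← hY, h]; simp
    have hPY : ∏ i, Y i ≠ 0 := Finset.prod_ne_zero_iff.mpr fun i _ => hY0 i
    have hcube : ∏ i, ((s' i ^ 2 * X i) ^ 3 - φ (a i) * (s' i ^ 2 * X i)) =
        (∏ i, s' i ^ 3) ^ 2 * (∏ i, Y i) ^ 2 := by
      rw [← Finset.prod_pow, ← Finset.prod_pow, ← Finset.prod_mul_distrib]
      refine Finset.prod_congr rfl fun i _ => ?_
      rw [hY, ← hs']; ring
    obtain ⟨δ, hδ⟩ : ∃ δ, δ = φ w / ((∏ i, s' i ^ 3) * ∏ i, Y i) := ⟨_, rfl⟩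
    have hden : ((∏ i, s' i ^ 3) * ∏ i, Y i) ≠ 0 := by
      refine mul_ne_zero ?_ hPY
      exact Finset.prod_ne_zero_iff.mpr fun i _ => pow_ne_zero 3 (hs'0 i)
    have hδw : φ w = δ * (∏ i, s' i ^ 3) * ∏ i, Y i := by
      rw [hδ, mul_assoc, div_mul_cancel₀ _ hden]
    have hδ2 : δ ^ 2 = φ d := by
      have h1 : φ w ^ 2 = φ d * ((∏ i, s' i ^ 3) * ∏ i, Y i) ^ 2 := by
        rw [← map_pow, hw, map_mul, map_prod]
        congr 1
        rw [mul_pow, ← hcube]
        refine Finset.prod_congr rfl fun i _ => ?_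
        rw [map_sub, map_pow, map_mul, hxX]
      rw [hδ, div_pow, h1, mul_div_cancel_right₀ _ (pow_ne_zero 2 hden)]
    obtain ⟨S, hS⟩ : ∃ S : Set Λ, S = insert δ (Set.range s') := ⟨_, rfl⟩
    have hSfin : S.Finite := by rw [hS]; exact Set.toFinite _
    have hS4 : ∀ z ∈ S, z ^ 4 ∈ k := by
      intro z hz
      rw [hS] at hz
      rcases hz with rfl | ⟨i, rfl⟩
      · have : z ^ 4 = (z ^ 2) ^ 2 := by ring
        rw [this, hδ2]; exact pow_mem (hmemk _ hd) 2
      · rw [hs']; exact hmemk _ (ha i)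
    obtain ⟨C, hC⟩ : ∃ C, C = adj k S := ⟨_, rfl⟩
    have hSC : S ⊆ C := by rw [hC]; exact subset_adj _ _
    have hkC : k ≤ C := by rw [hC]; exact le_adj _ _
    obtain ⟨M, hM⟩ : ∃ M, M = adj C (Set.range X ∪ Set.range Y) := ⟨_, rfl⟩
    have T : Tw k C X Y (fun i => φ (x i)) (fun i => φ (a i)) s' (φ d) δ (φ w) :=
      { ha := fun i => hmemk _ (ha i)
        hd := hmemk _ hd
        hd0 := by simpa using hd0
        hs := hs'
        hs0 := hs'0
        hsC := fun i => hSC (by rw [hS]; exact Or.inr ⟨i, rfl⟩)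
        hδ := hδ2
        hδC := hSC (by rw [hS]; exact Or.inl rfl)
        hx := hxX
        hw := hδw }
    have hCcl : (C : Set Λ) ⊆ cl (k : Set Λ) := by
      rw [hC]
      exact (QTower.of_pow_four hSfin hS4).subset_cl
    have hXind : IndFam C X := by
      intro i h
      apply hx i
      have hk' : ∀ z ∈ cl (k : Set Λ), z ∈ cl ((k : Set Λ) ∪ (fun i => φ (x i)) '' {l | l ≠ i}) :=
        fun z hz => cl_mono Set.subset_union_left hz
      have h1 : X i ∈ cl ((k : Set Λ) ∪ (fun i => φ (x i)) '' {l | l ≠ i}) := by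
        refine cl_le ?_ h
        rintro z (hz | ⟨l, hl, rfl⟩)
        · exact hk' _ (hCcl hz)
        · rw [hX]
          exact div_mem (subset_cl _ (Or.inr ⟨l, hl, rfl⟩)) (pow_mem (hk' _ (hCcl (T.hsC l))) 2)
      change φ (x i) ∈ _
      rw [hxX]
      exact mul_mem (pow_mem (hk' _ (hCcl (T.hsC i))) 2) h1
    have hL : twF k (fun i => φ (x i)) (φ w) ≤ M := T.le hkC hM
    have hR : φ.fieldRange = twF k (fun i => φ (x i)) (φ w) := by
      rw [fieldRange_eq_adj φ hE, twF, hk, adj_adj, Set.image_union, Set.image_insert_eq,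
        ← Set.range_comp, ← Set.range_comp, hF₀]
      rfl
    -- transport
    obtain ⟨f, hf⟩ : ∃ f : E →+* twF k (fun i => φ (x i)) (φ w), ∀ y, (f y : Λ) = φ y :=
      ⟨(Subfield.inclusion hR.le).comp (toRange φ), fun y => rfl⟩
    obtain ⟨g, hg⟩ : ∃ g : twF k (fun i => φ (x i)) (φ w) →+* E, φ.comp g =
        (twF k (fun i => φ (x i)) (φ w)).subtype := exists_factor _ _ (fun y => hR.ge y.2)
    have hφg : ∀ y, φ (g y) = y := fun y => congrArg (fun h : _ →+* Λ => h y) hg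
    have hgf : g.comp f = RingHom.id E := by
      ext y
      apply φ.injective
      rw [RingHom.comp_apply, hφg, hf]; rfl
    have gof : ∀ (y : twF k (fun i => φ (x i)) (φ w)) (y' : E), (y : Λ) = φ y' → g y = y' :=
      fun y y' h => φ.injective (by rw [hφg, h])
    have fix : ∀ (y' : E), σ y' = y' → ∀ y : twF k (fun i => φ (x i)) (φ w), (y : Λ) = φ y' →
        (f.comp (σ.comp g)) y = y := by
      intro y' hy' y hy
      apply Subtype.ext
      change (f (σ (g y)) : Λ) = y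
      rw [hf, gof y y' hy, hy', hy]
    have key := T.frob_char (m := m) (p := p) hm h2 hp4 hι'2 (by rw [hι']; exact hFF ι) hk ht
      htors hS hC hXind hY hM (hmemk c hc) (by
        rw [← map_pow, hc4, map_mul, map_pow, map_prod]) hL ⟨0, hn⟩ s b (f.comp (σ.comp g))
      (by
        intro y hy
        obtain ⟨y', hy'⟩ := hFmem _ hy
        apply Subtype.ext
        change (f (σ (g y)) : Λ) = (y : Λ) ^ p ^ s
        rw [hf, gof y _ hy'.symm, σF, map_pow, hy'])
      (fun i => fix (t i) (σt i)) (fun i => fix (x i) (σx i)) (fix w σw)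
      (fun i => fix (a i) (σa i)) (fix d σd)
      (by
        intro y hy
        change (f (σ (g y)) : Λ) = ι' ^ b * y
        rw [hf, gof y c hy, σc, map_mul, map_pow, ← hι', hy])
      hj (hξ.map f) (KM.deg_map f hξj) hϖ hϖ1 hϖι' (z := z) (by rw [hz, mul_comm s n])
    have h1 := congrArg (KM.map m g) key
    have e1 : ∀ η : KM m E, KM.map m g (KM.map m f η) = η := by
      intro η
      rw [KM.map_map, hgf, KM.map_id]; rfl
    have e2 : ∀ η : KM m E, KM.map m (f.comp (σ.comp g)) (KM.map m f η) =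
        KM.map m f (KM.map m σ η) := by
      intro η
      rw [KM.map_map, KM.map_map, RingHom.comp_assoc, RingHom.comp_assoc, hgf, RingHom.comp_id]
    rw [map_add, map_sub, map_zsmul, map_zsmul, map_zsmul, map_zero, e2, e2, e1, e1, e1,
      hznorm] at h1
    have e3 : (p : ℤ) ^ (2 * s * j) = ((p ^ s : ℕ) : ℤ) ^ j * ((p ^ s : ℕ) : ℤ) ^ j := by
      push_cast
      ring
    have e4 : (p : ℤ) ^ (s * j) = ((p ^ s : ℕ) : ℤ) ^ j := by
      push_cast
      ring
    rw [e3, e4]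
    exact h1
  refine ⟨hmain, ?_, ?_⟩
  · rw [hz]
    exact gauss_norm_ne_zero h2F hι hϖ hϖι (by omega)
  · intro ξ hξ3 hξ hσξ
    have h1 := hmain 3 (by norm_num) ξ hξ3 hξ
    rw [hσξ, map_zsmul, hσξ, smul_smul, smul_smul, smul_smul, ← sub_smul, ← add_smul] at h1
    have hN : (z - (p : GaussianInt) ^ (2 * s)).norm =
        (p : ℤ) ^ (s * n) - 2 * z.re * (p : ℤ) ^ (2 * s) + (p : ℤ) ^ (4 * s) := by
      have h3 : ((p : GaussianInt) ^ (2 * s)) = (((p : ℤ) ^ (2 * s) : ℤ) : GaussianInt) := by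
        push_cast; rfl
      rw [← hznorm, h3, Zsqrtd.norm_def, Zsqrtd.norm_def]
      simp only [Zsqrtd.re_sub, Zsqrtd.im_sub, Zsqrtd.re_intCast, Zsqrtd.im_intCast]
      ring
    have h3 : (p : ℤ) ^ (2 * s * 3) - 2 * z.re * (p : ℤ) ^ (s * 3) * (p : ℤ) ^ s +
        (p : ℤ) ^ (s * n) * (p : ℤ) ^ s * (p : ℤ) ^ s =
        ((p ^ (2 * s) : ℕ) : ℤ) * (z - (p : GaussianInt) ^ (2 * s)).norm := by
      rw [hN]
      push_cast
      ring
    rw [h3, mul_smul, natCast_zsmul] at h1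
    exact smul_eq_zero_of_coprime (Nat.Coprime.pow_left _ hpm) h1

end Pool.Agent.Results.MP_859dd5_ag.OrdinaryCM
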