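import Pool.Agent.Lib.MP_859dd5_ag.PF.I3

/-!
# Unramified classes of degree three on varieties dominated by diagonal fourfolds of prime degree
-/

namespace Pool.Agent.Lib.MP_859dd5_ag.PrimeFourfoldsKept

open UnrG

universe u

theorem result (𝔽 : Type) [Field 𝔽] [Fintype 𝔽] (p : ℕ) [Fact p.Prime] [CharP 𝔽 p] (N : ℕ)
    (hN : N.Prime) (hp : N ≠ p) :
    ∃ E s : ℕ, 0 < E ∧ 0 < s ∧ ∀ (m : ℕ) (F K L : Type u) [Field F] [Field K] [Field L]
      [Algebra 𝔽 F] [Algebra.IsAlgebraic 𝔽 F] [Algebra F L] [Algebra K L]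
      [FiniteDimensional K L] (ω : F) (_ : IsPrimitiveRoot ω (Fintype.card 𝔽 ^ s - 1)) (r : ℕ) (t : Fin r → L) (a x : Fin 6 → L)
      (_ : IsDiagonalHypersurface (n := 4) N (F := F) t a x)
      (σ : L →+* L) (_ : ∀ c : F, σ (algebraMap F L c) = algebraMap F L c ^ Fintype.card 𝔽)
      (_ : ∀ i, σ (t i) = t i) (_ : ∀ i, σ (a i) = a i) (_ : ∀ i, σ (x i) = x i)
      (σK : K →+* K) (_ : ∀ z : K, σ (algebraMap K L z) = algebraMap K L (σK z))
      (ζ : F) (_ : IsPrimitiveRoot ζ N)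
      (_ : ∀ α : Fin 6 → ZMod N, IsMinimalZeroSum α → ¬ TwistedPairs p α →
        (∀ (h : Fin 6 → ZMod N) (f : L →+* L),
          (∀ c : F, f (algebraMap F L c) = algebraMap F L c) → (∀ i, f (t i) = t i) →
          (∀ i, f (x i) = algebraMap F L ζ ^ (h i).val * x i) →
          (∀ z : K, f (algebraMap K L z) = algebraMap K L z) → ∑ i, α i * h i = 0) →
        ∃ β ∈ IntermediateField.adjoin F (Set.range t), ∏ i, a i ^ (α i).val = β ^ N)
      (ξ : MK m K) (_ : MK.Unr ξ) (_ : ξ ∈ MK.deg m K 3)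
      (_ : MK.map m σK ξ = Fintype.card 𝔽 • ξ), (E * Module.finrank K L) • ξ = 0 :=
  main_prime_ext 𝔽 p N hN hp

end Pool.Agent.Lib.MP_859dd5_ag.PrimeFourfoldsKept
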