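import Pool.Agent.Lib.MP_859dd5_ag.Equi

/-!
# Unramified classes and quartic twists

Over a field `k` that contains a square root of `-1` and whose characteristic is not `2`, the
unramified classes of the Milnor K-ring modulo an odd integer of the variety
`w ^ 2 = d * (x_1 ^ 3 - a_1 x_1) * ... * (x_n ^ 3 - a_n x_n)` depend only on the class of
`d ^ 2 * a_1 * ... * a_n` modulo fourth powers.
-/

namespace Pool.Agent.Results.MP_859dd5_ag.QuarticTwists

open UnrH3

universe u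

theorem result {m : ℕ} (hm : Odd m) {k L L' : Type u} [Field k] [Field L] [Field L']
    [Algebra k L] [Algebra k L'] (h2 : (2 : k) ≠ 0) {ι : k} (hι : ι ^ 2 = -1) {n : ℕ}
    (x : Fin n → L) (hx : AlgebraicIndependent k x) (a : Fin n → k) (ha : ∀ j, a j ≠ 0)
    (d : k) (hd : d ≠ 0) (w : L)
    (hw : w ^ 2 = algebraMap k L d * ∏ j, (x j ^ 3 - algebraMap k L (a j) * x j))
    (hL : IntermediateField.adjoin k (insert w (Set.range x)) = ⊤)
    (x' : Fin n → L') (hx' : AlgebraicIndependent k x') (a' : Fin n → k) (ha' : ∀ j, a' j ≠ 0)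
    (d' : k) (hd' : d' ≠ 0) (w' : L')
    (hw' : w' ^ 2 = algebraMap k L' d' * ∏ j, (x' j ^ 3 - algebraMap k L' (a' j) * x' j))
    (hL' : IntermediateField.adjoin k (insert w' (Set.range x')) = ⊤)
    (c : k) (hc : d' ^ 2 * ∏ j, a' j = c ^ 4 * (d ^ 2 * ∏ j, a j)) :
    ∃ (Ω : Type u) (_ : Field Ω) (f : L →+* Ω) (f' : L' →+* Ω),
      f.comp (algebraMap k L) = f'.comp (algebraMap k L') ∧
      Function.Injective (KM.map m f) ∧ Function.Injective (KM.map m f') ∧
      (∀ ζ : KM m Ω, (∃ ξ : KM m L, Unr ξ ∧ KM.map m f ξ = ζ) ↔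
        ∃ ξ' : KM m L', Unr ξ' ∧ KM.map m f' ξ' = ζ) ∧
      ∀ (σ : k →+* k) (σL : L →+* L) (σL' : L' →+* L'),
        σ ι = ι → σ c = c → σ d = d → σ d' = d' → (∀ j, σ (a j) = a j) →
        (∀ j, σ (a' j) = a' j) →
        (∀ b, σL (algebraMap k L b) = algebraMap k L (σ b)) → (∀ j, σL (x j) = x j) →
        σL w = w → (∀ b, σL' (algebraMap k L' b) = algebraMap k L' (σ b)) →
        (∀ j, σL' (x' j) = x' j) → σL' w' = w' →
        ∀ (ξ : KM m L) (ξ' : KM m L'), Unr ξ → Unr ξ' → KM.map m f ξ = KM.map m f' ξ' →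
          KM.map m f (KM.map m σL ξ) = KM.map m f' (KM.map m σL' ξ') := by
  classical
  set Λ := AlgebraicClosure L with hΛ
  set φ : L →+* Λ := algebraMap L Λ with hφ
  obtain ⟨k₀, hk₀⟩ : ∃ k₀, k₀ = (φ.comp (algebraMap k L)).fieldRange := ⟨_, rfl⟩
  have hkk : ∀ b : k, φ (algebraMap k L b) ∈ k₀ := fun b => by rw [hk₀]; exact ⟨b, rfl⟩
  have hk₀mem : ∀ z ∈ k₀, ∃ b : k, φ (algebraMap k L b) = z := fun z hz => by
    rw [hk₀] at hz; exact hz
  have halg : algebraMap k Λ = φ.comp (algebraMap k L) := IsScalarTower.algebraMap_eq k L Λ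
  have h2' : (2 : Λ) ≠ 0 := by
    intro h
    apply h2
    apply (algebraMap k Λ).injective
    rw [map_ofNat, map_zero]; exact h
  set ι' : Λ := φ (algebraMap k L ι) with hι'
  have hι'2 : ι' ^ 2 = -1 := by rw [hι', ← map_pow, ← map_pow, hι]; simp
  have hind : IndFam k₀ (fun j => φ (x j)) := by
    have h1 : AlgebraicIndependent k (fun j => φ (x j)) :=
      hx.map' (f := IsScalarTower.toAlgHom k L Λ) φ.injective
    have h3 := indFam_of_algInd h1
    rwa [halg, ← hk₀] at h3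
  -- the constants
  have ha4 : ∀ j, ∃ z : Λ, z ^ 4 = φ (algebraMap k L (a j)) := fun j =>
    IsAlgClosed.exists_pow_nat_eq _ (by norm_num)
  have ha4' : ∀ j, ∃ z : Λ, z ^ 4 = φ (algebraMap k L (a' j)) := fun j =>
    IsAlgClosed.exists_pow_nat_eq _ (by norm_num)
  choose s hs using ha4
  choose s' hs' using ha4'
  have hs0 : ∀ j, s j ≠ 0 := by
    intro j h
    have h1 := hs j
    rw [h, zero_pow (by norm_num)] at h1
    exact ha j (by simpa using h1.symm)
  have hs'0 : ∀ j, s' j ≠ 0 := by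
    intro j h
    have h1 := hs' j
    rw [h, zero_pow (by norm_num)] at h1
    exact ha' j (by simpa using h1.symm)
  obtain ⟨X, hX⟩ : ∃ X : Fin n → Λ, X = fun j => φ (x j) / s j ^ 2 := ⟨_, rfl⟩
  have hxX : ∀ j, φ (x j) = s j ^ 2 * X j := by
    intro j
    rw [hX]
    exact (mul_div_cancel₀ _ (pow_ne_zero 2 (hs0 j))).symm
  have hXnot : ∀ j, X j ∉ cl (k₀ : Set Λ) := by
    intro j h
    apply hind j
    refine cl_mono Set.subset_union_left ?_
    change φ (x j) ∈ cl (k₀ : Set Λ)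
    rw [hxX]
    refine mul_mem (pow_mem ?_ 2) h
    apply mem_cl_of_pow (n := 4) (by norm_num)
    rw [hs]; exact subset_cl _ (hkk _)
  have hYex : ∀ j, ∃ z : Λ, z ^ 2 = X j ^ 3 - X j := fun j =>
    IsAlgClosed.exists_pow_nat_eq _ (by norm_num)
  choose Y hY using hYex
  have hY0 : ∀ j, Y j ≠ 0 := by
    intro j h
    apply cube_sub_ne_zero (hXnot j)
    rw [← hY, h]; simp
  have hPY : ∏ j, Y j ≠ 0 := Finset.prod_ne_zero_iff.mpr fun j _ => hY0 j
  have hPs : ∏ j, s j ≠ 0 := Finset.prod_ne_zero_iff.mpr fun j _ => hs0 j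
  have hPs' : ∏ j, s' j ≠ 0 := Finset.prod_ne_zero_iff.mpr fun j _ => hs'0 j
  have hcube : ∀ (t b : Fin n → Λ) (_ : ∀ j, t j ^ 4 = b j),
      ∏ j, ((t j ^ 2 * X j) ^ 3 - b j * (t j ^ 2 * X j)) = (∏ j, t j ^ 3) ^ 2 * (∏ j, Y j) ^ 2 := by
    intro t b ht
    rw [← Finset.prod_pow, ← Finset.prod_pow, ← Finset.prod_mul_distrib]
    refine Finset.prod_congr rfl fun j _ => ?_
    rw [hY, ← ht]; ring
  -- the first cover
  obtain ⟨δ, hδ⟩ : ∃ δ, δ = φ w / ((∏ j, s j ^ 3) * ∏ j, Y j) := ⟨_, rfl⟩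
  have hden : ((∏ j, s j ^ 3) * ∏ j, Y j) ≠ 0 := by
    refine mul_ne_zero ?_ hPY
    exact Finset.prod_ne_zero_iff.mpr fun j _ => pow_ne_zero 3 (hs0 j)
  have hδw : φ w = δ * (∏ j, s j ^ 3) * ∏ j, Y j := by
    rw [hδ, mul_assoc, div_mul_cancel₀ _ hden]
  have hδ2 : δ ^ 2 = φ (algebraMap k L d) := by
    have h1 : φ w ^ 2 = φ (algebraMap k L d) * ((∏ j, s j ^ 3) * ∏ j, Y j) ^ 2 := by
      rw [← map_pow, hw, map_mul, map_prod]
      congr 1
      rw [mul_pow, ← hcube s (fun j => φ (algebraMap k L (a j))) hs]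
      refine Finset.prod_congr rfl fun j _ => ?_
      rw [map_sub, map_pow, map_mul, hxX]
    rw [hδ, div_pow, h1, mul_div_cancel_right₀ _ (pow_ne_zero 2 hden)]
  have hδ0 : δ ≠ 0 := by
    intro h
    rw [h, zero_pow (by norm_num)] at hδ2
    exact hd (by simpa using hδ2.symm)
  -- the second cover
  have hind' : IndFam k₀ (fun j => s' j ^ 2 * X j) := by
    intro j h
    apply hind j
    have hk : ∀ z ∈ cl (k₀ : Set Λ), z ∈ cl ((k₀ : Set Λ) ∪ (fun j => φ (x j)) '' {l | l ≠ j}) :=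
      fun z hz => cl_mono Set.subset_union_left hz
    have hs4 : ∀ i, s i ∈ cl (k₀ : Set Λ) := fun i =>
      mem_cl_of_pow (n := 4) (by norm_num) (by rw [hs]; exact subset_cl _ (hkk _))
    have hs4' : ∀ i, s' i ∈ cl (k₀ : Set Λ) := fun i =>
      mem_cl_of_pow (n := 4) (by norm_num) (by rw [hs']; exact subset_cl _ (hkk _))
    have h1 : s' j ^ 2 * X j ∈ cl ((k₀ : Set Λ) ∪ (fun j => φ (x j)) '' {l | l ≠ j}) := by
      refine cl_le ?_ h
      rintro z (hz | ⟨i, hi, rfl⟩)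
      · exact subset_cl _ (Or.inl hz)
      · refine mul_mem (pow_mem (hk _ (hs4' i)) 2) ?_
        rw [hX]
        exact div_mem (subset_cl _ (Or.inr ⟨i, hi, rfl⟩)) (pow_mem (hk _ (hs4 i)) 2)
    have h3 : φ (x j) = s j ^ 2 * ((s' j ^ 2 * X j) / s' j ^ 2) := by
      rw [mul_div_cancel_left₀ _ (pow_ne_zero 2 (hs'0 j)), hxX]
    change φ (x j) ∈ _
    rw [h3]
    exact mul_mem (pow_mem (hk _ (hs4 j)) 2) (div_mem h1 (pow_mem (hk _ (hs4' j)) 2))
  have halgind' : AlgebraicIndependent k (fun j => s' j ^ 2 * X j) := by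
    apply algInd_of_indFam
    rw [halg, ← hk₀]; exact hind'
  have hw'alg : IsAlgebraic (Algebra.adjoin k (Set.range x')) w' := by
    have h1 : ∀ j, x' j ∈ Algebra.adjoin k (Set.range x') := fun j =>
      Algebra.subset_adjoin ⟨j, rfl⟩
    have h3 : w' ^ 2 ∈ Algebra.adjoin k (Set.range x') := by
      rw [hw']
      exact mul_mem (Subalgebra.algebraMap_mem _ _) (prod_mem fun j _ =>
        sub_mem (pow_mem (h1 j) 3) (mul_mem (Subalgebra.algebraMap_mem _ _) (h1 j)))
    refine ⟨Polynomial.X ^ 2 - Polynomial.C (⟨w' ^ 2, h3⟩ : Algebra.adjoin k (Set.range x')),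
      Polynomial.X_pow_sub_C_ne_zero (by norm_num) _, ?_⟩
    simp only [map_sub, map_pow, Polynomial.aeval_X, Polynomial.aeval_C]
    exact sub_self _
  obtain ⟨φ', hφ'k, hφ'x⟩ := exists_embedding hx' hw'alg hL' halgind'
  have hkeq : ∀ b : k, φ' (algebraMap k L' b) = φ (algebraMap k L b) := fun b => by
    have h1 := congrArg (fun f : k →+* Λ => f b) hφ'k
    have h3 := congrArg (fun f : k →+* Λ => f b) halg
    exact h1.trans h3
  obtain ⟨δ', hδ'⟩ : ∃ δ', δ' = φ' w' / ((∏ j, s' j ^ 3) * ∏ j, Y j) := ⟨_, rfl⟩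
  have hden' : ((∏ j, s' j ^ 3) * ∏ j, Y j) ≠ 0 := by
    refine mul_ne_zero ?_ hPY
    exact Finset.prod_ne_zero_iff.mpr fun j _ => pow_ne_zero 3 (hs'0 j)
  have hδ'w : φ' w' = δ' * (∏ j, s' j ^ 3) * ∏ j, Y j := by
    rw [hδ', mul_assoc, div_mul_cancel₀ _ hden']
  have hδ'2 : δ' ^ 2 = φ (algebraMap k L d') := by
    have h1 : φ' w' ^ 2 = φ (algebraMap k L d') * ((∏ j, s' j ^ 3) * ∏ j, Y j) ^ 2 := by
      rw [← map_pow, hw', map_mul, map_prod, hkeq]
      congr 1
      rw [mul_pow, ← hcube s' (fun j => φ (algebraMap k L (a' j))) hs']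
      refine Finset.prod_congr rfl fun j _ => ?_
      rw [map_sub, map_pow, map_mul, hkeq, hφ'x]
    rw [hδ', div_pow, h1, mul_div_cancel_right₀ _ (pow_ne_zero 2 hden')]
  have hδ'0 : δ' ≠ 0 := by
    intro h
    rw [h, zero_pow (by norm_num)] at hδ'2
    exact hd' (by simpa using hδ'2.symm)
  -- the comparison constant
  obtain ⟨ρ, hρ, hρ0, hρ', hρc⟩ : ∃ ρ ∈ k₀, ρ ≠ 0 ∧ δ' * ∏ j, s' j = ρ * (δ * ∏ j, s j) ∧
      ∀ F : Subfield Λ, φ (algebraMap k L c) ∈ F → ι' ∈ F → ρ ∈ F := by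
    set c' : Λ := φ (algebraMap k L c) with hc'
    have hc'k : c' ∈ k₀ := hkk c
    have hι'k : ι' ∈ k₀ := hkk ι
    have h4 : (δ' * ∏ j, s' j) ^ 4 = (c' * (δ * ∏ j, s j)) ^ 4 := by
      have e1 : (δ' * ∏ j, s' j) ^ 4 = (δ' ^ 2) ^ 2 * ∏ j, s' j ^ 4 := by
        rw [Finset.prod_pow]; ring
      have e2 : (c' * (δ * ∏ j, s j)) ^ 4 = c' ^ 4 * ((δ ^ 2) ^ 2 * ∏ j, s j ^ 4) := by
        rw [Finset.prod_pow]; ring
      rw [e1, e2, hδ'2, hδ2]
      simp only [hs, hs', hc']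
      have h5 := congrArg (fun z => φ (algebraMap k L z)) hc
      simpa only [map_mul, map_pow, map_prod] using h5
    have h0 : ∀ ρ, δ' * ∏ j, s' j = ρ * (δ * ∏ j, s j) → ρ ≠ 0 := by
      rintro ρ h rfl
      rw [zero_mul] at h
      exact mul_ne_zero hδ'0 hPs' h
    rcases eq_of_pow_four hι'2 h4 with h | h | h | h
    · exact ⟨c', hc'k, h0 _ h, h, fun F h1 h3 => h1⟩
    · have h' : δ' * ∏ j, s' j = (-c') * (δ * ∏ j, s j) := by rw [h]; ring
      exact ⟨-c', neg_mem hc'k, h0 _ h', h', fun F h1 h3 => neg_mem h1⟩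
    · have h' : δ' * ∏ j, s' j = (ι' * c') * (δ * ∏ j, s j) := by rw [h]; ring
      exact ⟨ι' * c', mul_mem hι'k hc'k, h0 _ h', h', fun F h1 h3 => mul_mem h3 h1⟩
    · have h' : δ' * ∏ j, s' j = (-(ι' * c')) * (δ * ∏ j, s j) := by rw [h]; ring
      exact ⟨-(ι' * c'), neg_mem (mul_mem hι'k hc'k), h0 _ h', h',
        fun F h1 h3 => neg_mem (mul_mem h3 h1)⟩
  obtain ⟨S, hS⟩ : ∃ S : Set Λ, S = Set.range s ∪ Set.range s' ∪ {δ, δ'} := ⟨_, rfl⟩
  have hSfin : S.Finite := by rw [hS]; exact Set.toFinite _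
  have hS4 : ∀ z ∈ S, z ^ 4 ∈ k₀ := by
    intro z hz
    rw [hS] at hz
    rcases hz with (⟨j, rfl⟩ | ⟨j, rfl⟩) | (rfl | rfl)
    · rw [hs]; exact hkk _
    · rw [hs']; exact hkk _
    · have : z ^ 4 = (z ^ 2) ^ 2 := by ring
      rw [this, hδ2]; exact pow_mem (hkk _) 2
    · have : z ^ 4 = (z ^ 2) ^ 2 := by ring
      rw [this, hδ'2]; exact pow_mem (hkk _) 2
  obtain ⟨C, hC⟩ : ∃ C, C = adj k₀ S := ⟨_, rfl⟩
  have hSC : S ⊆ C := by rw [hC]; exact subset_adj _ _
  obtain ⟨M, hM⟩ : ∃ M, M = adj C (Set.range X ∪ Set.range Y) := ⟨_, rfl⟩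
  have T : Tw k₀ C X Y (fun j => φ (x j)) (fun j => φ (algebraMap k L (a j))) s
      (φ (algebraMap k L d)) δ (φ w) :=
    { ha := fun j => hkk _
      hd := hkk _
      hd0 := by simpa using hd
      hs := hs
      hs0 := hs0
      hsC := fun j => hSC (by rw [hS]; exact Or.inl (Or.inl ⟨j, rfl⟩))
      hδ := hδ2
      hδC := hSC (by rw [hS]; exact Or.inr (Or.inl rfl))
      hx := hxX
      hw := hδw }
  have T' : Tw k₀ C X Y (fun j => s' j ^ 2 * X j) (fun j => φ (algebraMap k L (a' j))) s'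
      (φ (algebraMap k L d')) δ' (φ' w') :=
    { ha := fun j => hkk _
      hd := hkk _
      hd0 := by simpa using hd'
      hs := hs'
      hs0 := hs'0
      hsC := fun j => hSC (by rw [hS]; exact Or.inl (Or.inr ⟨j, rfl⟩))
      hδ := hδ'2
      hδC := hSC (by rw [hS]; exact Or.inr (Or.inr rfl))
      hx := fun j => rfl
      hw := hδ'w }
  have hkC : k₀ ≤ C := by rw [hC]; exact le_adj _ _
  have hCcl : (C : Set Λ) ⊆ cl (k₀ : Set Λ) := by
    rw [hC]
    exact (QTower.of_pow_four hSfin hS4).subset_cl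
  have hXind : IndFam C X := by
    intro j h
    apply hind j
    have hk : ∀ z ∈ cl (k₀ : Set Λ), z ∈ cl ((k₀ : Set Λ) ∪ (fun j => φ (x j)) '' {l | l ≠ j}) :=
      fun z hz => cl_mono Set.subset_union_left hz
    have h1 : X j ∈ cl ((k₀ : Set Λ) ∪ (fun j => φ (x j)) '' {l | l ≠ j}) := by
      refine cl_le ?_ h
      rintro z (hz | ⟨i, hi, rfl⟩)
      · exact hk _ (hCcl hz)
      · rw [hX]
        exact div_mem (subset_cl _ (Or.inr ⟨i, hi, rfl⟩)) (pow_mem (hk _ (hCcl (T.hsC i))) 2)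
    change φ (x j) ∈ _
    rw [hxX]
    exact mul_mem (pow_mem (hk _ (hCcl (T.hsC j))) 2) h1
  have hLM : twF k₀ (fun j => φ (x j)) (φ w) ≤ M := T.le hkC hM
  have hLM' : twF k₀ (fun j => s' j ^ 2 * X j) (φ' w') ≤ M := T'.le hkC hM
  have hR : φ.fieldRange = twF k₀ (fun j => φ (x j)) (φ w) := by
    rw [fieldRange_eq_adj φ hL, twF, Set.image_insert_eq, ← Set.range_comp, hk₀]
    rfl
  have hR' : φ'.fieldRange = twF k₀ (fun j => s' j ^ 2 * X j) (φ' w') := by
    rw [fieldRange_eq_adj φ' hL', twF, Set.image_insert_eq, ← Set.range_comp, hφ'k, halg, ← hk₀]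
    congr 2
    exact congrArg Set.range (funext hφ'x)
  have hRM : φ.fieldRange ≤ M := hR.le.trans hLM
  have hRM' : φ'.fieldRange ≤ M := hR'.le.trans hLM'
  have htow := T.tower hSfin hS4 hC hY hM
  have htow' := T'.tower hSfin hS4 hC hY hM
  have hcomp : ∀ ξ : KM m φ.fieldRange, Unr ξ → From φ'.fieldRange M (up m hRM ξ) := by
    intro ξ hξ
    have h1 := T.compare hm h2' hι'2 (hkk ι) hSfin hS4 hC T' hρ hρ' hXind hY hM hLM
      (up m hR.le ξ) (hξ.map _)
    rw [up_up] at h1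
    obtain ⟨_, η, hη, e⟩ := h1
    exact ⟨hRM', up m hR'.ge η, hη.map _, by rw [up_up]; exact e⟩
  have hcomp' : ∀ ξ : KM m φ'.fieldRange, Unr ξ → From φ.fieldRange M (up m hRM' ξ) := by
    intro ξ hξ
    have h1 := T'.compare hm h2' hι'2 (hkk ι) hSfin hS4 hC T (inv_mem hρ)
      (by rw [hρ', ← mul_assoc, inv_mul_cancel₀ hρ0, one_mul]) hXind hY hM hLM'
      (up m hR'.le ξ) (hξ.map _)
    rw [up_up] at h1
    obtain ⟨_, η, hη, e⟩ := h1
    exact ⟨hRM, up m hR.ge η, hη.map _, by rw [up_up]; exact e⟩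
  have hinj : Function.Injective (up m hRM) := by
    intro z₁ z₂ hz
    have h1 := htow.up_injective (m := m) hm hLM
    have h3 : up m hR.le z₁ = up m hR.le z₂ := h1 (by rw [up_up, up_up]; exact hz)
    have h4 := congrArg (up m hR.ge) h3
    rwa [up_up, up_up, up_refl, up_refl] at h4
  have hinj' : Function.Injective (up m hRM') := by
    intro z₁ z₂ hz
    have h1 := htow'.up_injective (m := m) hm hLM'
    have h3 : up m hR'.le z₁ = up m hR'.le z₂ := h1 (by rw [up_up, up_up]; exact hz)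
    have h4 := congrArg (up m hR'.ge) h3
    rwa [up_up, up_up, up_refl, up_refl] at h4
  have hsurj : ∀ {E : Type u} [Field E] (ψ : E →+* Λ) (η : KM m ψ.fieldRange), Unr η →
      ∃ η' : KM m E, Unr η' ∧ KM.map m (toRange ψ) η' = η := by
    intro E _ ψ η hη
    exact transfer_from_mem ψ (RingHom.id E) (A := ψ.fieldRange) (ζ := η)
      (by rw [RingHom.comp_id]) ⟨le_rfl, η, hη, up_refl _ _⟩
  refine ⟨M, inferInstance, (Subfield.inclusion hRM).comp (toRange φ),
    (Subfield.inclusion hRM').comp (toRange φ'), ?_, ?_, ?_, ?_, ?_⟩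
  · ext b
    exact (hkeq b).symm
  · intro z₁ z₂ hz
    rw [← KM.map_map, ← KM.map_map] at hz
    exact toRange_map_injective φ (hinj hz)
  · intro z₁ z₂ hz
    rw [← KM.map_map, ← KM.map_map] at hz
    exact toRange_map_injective φ' (hinj' hz)
  · intro ζ
    constructor
    · rintro ⟨ξ, hξ, rfl⟩
      obtain ⟨_, η, hη, e⟩ := hcomp (KM.map m (toRange φ) ξ) (hξ.map _)
      obtain ⟨η', hη', e'⟩ := hsurj φ' η hη
      exact ⟨η', hη', by rw [← KM.map_map, ← KM.map_map, e']; exact e⟩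
    · rintro ⟨ξ, hξ, rfl⟩
      obtain ⟨_, η, hη, e⟩ := hcomp' (KM.map m (toRange φ') ξ) (hξ.map _)
      obtain ⟨η', hη', e'⟩ := hsurj φ η hη
      exact ⟨η', hη', by rw [← KM.map_map, ← KM.map_map, e']; exact e⟩
  · intro σ σL σL' hσι hσc hσd hσd' hσa hσa' hLb hLx hLw hLb' hLx' hLw' ξ ξ' hξ hξ' hff
    -- the field fixed by `σ`
    obtain ⟨k₁, hk₁⟩ : ∃ k₁ : Subfield Λ, k₁ =
        (RingHom.eqLocusField σ (RingHom.id k)).map (φ.comp (algebraMap k L)) := ⟨_, rfl⟩
    have hk₁mem : ∀ b : k, σ b = b → φ (algebraMap k L b) ∈ k₁ := by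
      intro b hb
      rw [hk₁]; exact ⟨b, hb, rfl⟩
    have hk₁k : k₁ ≤ k₀ := by
      rw [hk₁]
      rintro _ ⟨b, _, rfl⟩
      exact hkk b
    have hS4₁ : ∀ z ∈ S, z ^ 4 ∈ k₁ := by
      intro z hz
      rw [hS] at hz
      rcases hz with (⟨j, rfl⟩ | ⟨j, rfl⟩) | (rfl | rfl)
      · rw [hs]; exact hk₁mem _ (hσa j)
      · rw [hs']; exact hk₁mem _ (hσa' j)
      · have : z ^ 4 = (z ^ 2) ^ 2 := by ring
        rw [this, hδ2]; exact pow_mem (hk₁mem _ hσd) 2
      · have : z ^ 4 = (z ^ 2) ^ 2 := by ring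
        rw [this, hδ'2]; exact pow_mem (hk₁mem _ hσd') 2
    -- transport of the endomorphisms
    obtain ⟨t, ht⟩ : ∃ t : L →+* twF k₀ (fun j => φ (x j)) (φ w), ∀ z, (t z : Λ) = φ z :=
      ⟨(Subfield.inclusion hR.le).comp (toRange φ), fun z => rfl⟩
    obtain ⟨t', ht'⟩ : ∃ t' : L' →+* twF k₀ (fun j => s' j ^ 2 * X j) (φ' w'),
        ∀ z, (t' z : Λ) = φ' z :=
      ⟨(Subfield.inclusion hR'.le).comp (toRange φ'), fun z => rfl⟩
    obtain ⟨e, he⟩ : ∃ e : twF k₀ (fun j => φ (x j)) (φ w) →+* L, φ.comp e =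
        (twF k₀ (fun j => φ (x j)) (φ w)).subtype := exists_factor _ _ (fun z => hR.ge z.2)
    obtain ⟨e', he'⟩ : ∃ e' : twF k₀ (fun j => s' j ^ 2 * X j) (φ' w') →+* L', φ'.comp e' =
        (twF k₀ (fun j => s' j ^ 2 * X j) (φ' w')).subtype :=
      exists_factor _ _ (fun z => hR'.ge z.2)
    have he1 : ∀ z, φ (e z) = z := fun z => congrArg (fun f : _ →+* Λ => f z) he
    have he1' : ∀ z, φ' (e' z) = z := fun z => congrArg (fun f : _ →+* Λ => f z) he'
    have het : ∀ z, e (t z) = z := fun z => φ.injective (by rw [he1, ht])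
    have het' : ∀ z, e' (t' z) = z := fun z => φ'.injective (by rw [he1', ht'])
    obtain ⟨g, hg1, hg2⟩ := T.equi (m := m) hm h2' hι'2 hk₁k (hk₁mem ι hσι) hSfin hS4₁ hC T'
      (fun j => hk₁mem _ (hσa j)) (fun j => hk₁mem _ (hσa' j)) (hk₁mem _ hσd) (hk₁mem _ hσd')
      (hρc k₁ (hk₁mem _ hσc) (hk₁mem _ hσι)) hρ' hXind hY hM hLM hLM'
      (t.comp (σL.comp e)) (t'.comp (σL'.comp e'))
      (by
        intro z hz
        obtain ⟨b, hb⟩ := hk₀mem _ hz
        have h1 : e z = algebraMap k L b := φ.injective (by rw [he1]; exact hb.symm)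
        change (t (σL (e z)) : Λ) ∈ k₀
        rw [ht, h1, hLb]
        exact hkk _)
      (by
        intro z z' hzz hz
        obtain ⟨b, hb⟩ := hk₀mem _ hz
        have h1 : e z = algebraMap k L b := φ.injective (by rw [he1]; exact hb.symm)
        have h3 : e' z' = algebraMap k L' b := φ'.injective (by
          rw [he1', ← hzz, hkeq]; exact hb.symm)
        change (t' (σL' (e' z')) : Λ) = t (σL (e z))
        rw [ht, ht', h1, h3, hLb, hLb', hkeq])
      (by
        intro z hz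
        rw [hk₁] at hz
        obtain ⟨b, hb1, hb⟩ := hz
        have h1 : e z = algebraMap k L b := φ.injective (by rw [he1]; exact hb.symm)
        apply Subtype.ext
        change (t (σL (e z)) : Λ) = z
        have h3 : σ b = b := hb1
        rw [ht, h1, hLb, h3]
        exact hb)
      (by
        intro j z hz
        have h1 : e z = x j := φ.injective (by rw [he1]; exact hz)
        apply Subtype.ext
        change (t (σL (e z)) : Λ) = z
        rw [ht, h1, hLx, hz])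
      (by
        intro z hz
        have h1 : e z = w := φ.injective (by rw [he1]; exact hz)
        apply Subtype.ext
        change (t (σL (e z)) : Λ) = z
        rw [ht, h1, hLw, hz])
      (by
        intro j z hz
        have h1 : e' z = x' j := φ'.injective (by rw [he1', hφ'x]; exact hz)
        apply Subtype.ext
        change (t' (σL' (e' z)) : Λ) = z
        rw [ht', h1, hLx', hφ'x, hz])
      (by
        intro z hz
        have h1 : e' z = w' := φ'.injective (by rw [he1']; exact hz)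
        apply Subtype.ext
        change (t' (σL' (e' z)) : Λ) = z
        rw [ht', h1, hLw', hz])
    have hft : (Subfield.inclusion hRM).comp (toRange φ) =
        (Subfield.inclusion hLM).comp t := by
      ext z
      exact (ht z).symm
    have hft' : (Subfield.inclusion hRM').comp (toRange φ') =
        (Subfield.inclusion hLM').comp t' := by
      ext z
      exact (ht' z).symm
    have h3 : KM.map m ((Subfield.inclusion hRM).comp (toRange φ)) (KM.map m σL ξ) =
        KM.map m g (KM.map m ((Subfield.inclusion hRM).comp (toRange φ)) ξ) := by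
      have h4 := hg2 (KM.map m t ξ) (hξ.map _)
      rw [hft, ← KM.map_map, ← KM.map_map]
      refine Eq.trans ?_ h4.symm
      change up m hLM (KM.map m t (KM.map m σL ξ)) = _
      congr 1
      rw [KM.map_map, KM.map_map]
      congr 2
      ext z
      simp only [RingHom.comp_apply, het]
    have h5 : KM.map m ((Subfield.inclusion hRM').comp (toRange φ')) (KM.map m σL' ξ') =
        KM.map m g (KM.map m ((Subfield.inclusion hRM').comp (toRange φ')) ξ') := by
      rw [hft', KM.map_map, KM.map_map]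
      congr 2
      ext1 z
      change Subfield.inclusion hLM' (t' (σL' z)) = g (Subfield.inclusion hLM' (t' z))
      rw [hg1]
      simp only [RingHom.comp_apply, het']
    rw [h3, h5, hff]

end Pool.Agent.Results.MP_859dd5_ag.QuarticTwists
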