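import Pool.Agent.Lib.MP_859dd5_ag.HasseJ
import Pool.Agent.Lib.MP_859dd5_ag.Mg.G066

/-!
# The characteristic equation of substitutions in one variable
-/

namespace UnrH3

universe u v w

open Polynomial WeierstrassCurve
open scoped Classical

variable {m : ℕ} {Λ : Type u} [Field Λ]
variable {K M : Subfield Λ} {x₁ y₁ : Λ} {p : ℕ} [hp : Fact p.Prime] [CharP Λ p]

/-- The characteristic equation of the substitution `I ^ a F ^ k`. -/
theorem single_char (hm : Odd m) (hp4 : p % 4 = 1) (h2 : (2 : Λ) ≠ 0) {ι : Λ} (hι : ι ^ 2 = -1)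
    (hιK : ι ∈ K) (hx₁ : x₁ ∉ cl (K : Set Λ)) (h₁ : y₁ ^ 2 = x₁ ^ 3 - x₁)
    (hM : M = adj K {x₁, y₁}) {γ : KM m M} (hu : Unr γ) (ho : OddAt K y₁ {x₁} γ) (a k : ℕ)
    (g : M →+* M) (g1 : ∀ z : M, (z : Λ) ∈ K → g z = z)
    (g2 : ∀ z : M, (z : Λ) = x₁ → (g z : Λ) = (-1) ^ a * (z : Λ) ^ p ^ k)
    (g3 : ∀ z : M, (z : Λ) = y₁ → (g z : Λ) = ι ^ a * (z : Λ) ^ p ^ k)
    {ϖ : GaussianInt} (hϖ : ϖ.norm = p) (hϖ1 : (⟨2, 2⟩ : GaussianInt) ∣ ϖ - 1)
    (hϖι : (ϖ.re : Λ) + ϖ.im * ι = 0) :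
    KM.map m g (KM.map m g γ) - (2 * (⟨0, 1⟩ ^ a * ϖ ^ k : GaussianInt).re) • KM.map m g γ +
      (⟨0, 1⟩ ^ a * ϖ ^ k : GaussianInt).norm • γ = 0 := by
  have h2K : (2 : K) ≠ 0 := fun h => h2 (by
    have := congrArg K.subtype h
    rwa [map_ofNat, map_zero] at this)
  have : GoodW (Wi K) := Wi_good' h2K
  have hpc : CharP K p := K.subtype.charP K.subtype.injective p
  obtain ⟨fM, e, hef, hfe, hb, hx, hy⟩ := exists_single_iso h2 hx₁ h₁ hM
  obtain ⟨ι', hι'⟩ : ∃ ι' : K, ι' = ⟨ι, hιK⟩ := ⟨_, rfl⟩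
  have hι'2 : ι' ^ 2 = -1 := by rw [hι']; exact Subtype.ext hι
  have hϖι' : (ϖ.re : K) + ϖ.im * ι' = 0 := by
    apply K.subtype.injective
    rw [map_add, map_mul, map_intCast, map_intCast, map_zero, hι']
    exact hϖι
  have hinj : Function.Injective (KM.map m e) := by
    intro a b hab
    have := congrArg (KM.map m fM) hab
    rwa [KM.map_map, KM.map_map, hfe, KM.map_id] at this
  have hodd : OddCl (KM.map m e γ) := by
    obtain ⟨g', g'1, g'2, g'3⟩ := single_exists fM e hef hb hx hy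
      (A := -gpt (Wi K) K) gen_gpt.neg
    have hs := single_spec fM e hef hfe hb hx hy hM gen_gpt.neg g' g'1 g'2 g'3
    have hg' : KM.map m g' γ = -γ := by
      apply ho g' g'1
      · intro z hz
        apply Subtype.ext
        rw [g'2 z hz, ptX_neg, ptX_gpt, hx]
        exact (Set.mem_singleton_iff.mp hz).symm
      · intro z hz
        apply Subtype.ext
        rw [g'3 z hz, Wi_ptY_neg, ptY_gpt, map_neg]
        push_cast
        rw [hy, hz]
    unfold OddCl nu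
    rw [KM.map_map, ← hs, ← KM.map_map, hg', map_neg]
  obtain ⟨A, hA⟩ : ∃ A : PtF K K, A = (cmPow hι'2 a).toFun _ ((frW K p k).toFun _
      (gpt (Wi K) K)) := ⟨_, rfl⟩
  have hgen : Gen (base (Wi K) K) A := by
    intro h'
    rw [hA] at h'
    exact gen_gpt (((frW K p k).inCl _ _ (range_in_cl _) _).mp
      (((cmPow hι'2 a).inCl _ _ (range_in_cl _) _).mp h'))
  have hAx : (fM (ptX A) : Λ) = (-1) ^ a * x₁ ^ p ^ k := by
    rw [hA, cmPow_ptX, frW_ptX, ptX_gpt, map_mul, map_pow, map_pow, map_neg, map_one]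
    push_cast
    rw [hx]
  have hAy : (fM (ptY A) : Λ) = ι ^ a * y₁ ^ p ^ k := by
    rw [hA, cmPow_ptY, frW_ptY, ptY_gpt, map_mul, map_pow, map_pow]
    push_cast
    rw [hy]
    have h3 : (fM (algebraMap K (FF (Wi K) K) ι') : Λ) = ι' := hb ι'
    rw [hι'] at h3
    rw [hι']
    congr 2
  have hs := single_spec fM e hef hfe hb hx hy hM hgen g g1
    (fun z hz => by rw [g2 z hz, hAx, hz]) (fun z hz => by rw [g3 z hz, hAy, hz])
  have hev : ∀ δ : KM m M, KM.map m e (KM.map m g δ) = ev (base (Wi K) K) A (KM.map m e δ) := by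
    intro δ
    rw [ev_of_gen hgen, KM.map_map, hs, ← KM.map_map]
  have key := one_var_char hι'2 hϖ hϖ1 hϖι' hm hp4 K a k (KM.map m e γ) (hu.map _) hodd hA
  apply hinj
  rw [map_add, map_sub, map_zsmul, map_zsmul, map_zero, hev, hev]
  exact key

end UnrH3
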