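import Pool.Agent.Lib.MP_859dd5_ag.Mg.G064

/-!
# Unramified classes of multiquadratic covers attached to supersingular curves

For a prime `p` congruent to `3` modulo `4` we consider the function field `L` of a multiquadratic
cover of affine space over a field `k` of characteristic `p`, given by square roots of products
of the polynomials `x_j ^ 3 - a_j x_j`. Every unramified class of the Milnor K-ring of `L` modulo
`m` (`m` odd and prime to `p`) is a sum of unramified classes coming from the subfields of `L`
generated by a single square root that involves at most one variable, and this variable.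
-/

namespace Pool.Agent.Results.MP_859dd5_ag.SupersingularCovers

open UnrH3

universe u

/-- The number of products with index in `I` that involve the variable `j`. -/
def mult {n r : ℕ} (S : Fin r → Finset (Fin n)) (I : Finset (Fin r)) (j : Fin n) : ℕ :=
  (I.filter fun i => j ∈ S i).card

/-- The variables that occur in an odd number of the products with index in `I`. -/
def oddVars {n r : ℕ} (S : Fin r → Finset (Fin n)) (I : Finset (Fin r)) : Finset (Fin n) :=
  Finset.univ.filter fun j => Odd (mult S I j)

section defs

variable {k L : Type u} [Field k] [Field L] [Algebra k L] {n r : ℕ}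
  (x : Fin n → L) (a : Fin n → k) (S : Fin r → Finset (Fin n)) (w : Fin r → L)

/-- The product of the `w_i`, `i` in `I`, divided by the largest possible product of the
`x_j ^ 3 - a_j x_j`. -/
noncomputable def root (I : Finset (Fin r)) : L :=
  (∏ i ∈ I, w i) * (∏ j, (x j ^ 3 - algebraMap k L (a j) * x j) ^ (mult S I j / 2))⁻¹

/-- The subfield of `L` generated over `k` by `root x a S w I` and the variables in
`oddVars S I`. -/
noncomputable def piece (I : Finset (Fin r)) : IntermediateField k L :=
  IntermediateField.adjoin k (insert (root x a S w I) (x '' (oddVars S I : Set (Fin n))))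

end defs

theorem result {p : ℕ} [Fact p.Prime] (hp : p % 4 = 3) {m : ℕ} (hm : Odd m)
    (hpm : p.Coprime m) {k L : Type u} [Field k] [CharP k p] [Field L] [Algebra k L]
    {n r : ℕ} (x : Fin n → L) (hx : AlgebraicIndependent k x)
    (a : Fin n → k) (ha : ∀ j, a j ≠ 0) (d : Fin r → k) (hd : ∀ i, d i ≠ 0)
    (S : Fin r → Finset (Fin n)) (w : Fin r → L)
    (hw : ∀ i, w i ^ 2 =
      algebraMap k L (d i) * ∏ j ∈ S i, (x j ^ 3 - algebraMap k L (a j) * x j))
    (hL : IntermediateField.adjoin k (Set.range x ∪ Set.range w) = ⊤)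
    (ξ : KM m L) (hξ : Unr ξ) :
    ∃ η : (I : Finset (Fin r)) → KM m (piece x a S w I), (∀ I, Unr (η I)) ∧
      ξ = ∑ I with (oddVars S I).card ≤ 1,
        KM.map m (algebraMap (piece x a S w I) L) (η I) := by
  classical
  have : CharP L p := charP_of_injective_algebraMap (algebraMap k L).injective p
  have : CharP (AlgebraicClosure L) p :=
    charP_of_injective_algebraMap (algebraMap L (AlgebraicClosure L)).injective p
  set φ : L →+* AlgebraicClosure L := algebraMap L (AlgebraicClosure L) with hφ
  set k₀ := (φ.comp (algebraMap k L)).fieldRange with hk₀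
  have hkk : ∀ c : k, φ (algebraMap k L c) ∈ k₀ := fun c => ⟨c, rfl⟩
  have hx' : IndFam k₀ (fun j => φ (x j)) := by
    have h1 : AlgebraicIndependent k (fun j => φ (x j)) :=
      hx.map' (f := IsScalarTower.toAlgHom k L (AlgebraicClosure L)) φ.injective
    have h2 := indFam_of_algInd h1
    have h3 : (algebraMap k (AlgebraicClosure L)).fieldRange = k₀ := by
      rw [hk₀, hφ, ← IsScalarTower.algebraMap_eq]
    rwa [h3] at h2
  have hfx : ∀ j, fx (fun j => φ (x j)) (fun j => φ (algebraMap k L (a j))) j =
      φ (x j ^ 3 - algebraMap k L (a j) * x j) := by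
    intro j
    simp only [fx, map_sub, map_pow, map_mul]
  have ha' : ∀ j, φ (algebraMap k L (a j)) ∈ k₀ ∧ φ (algebraMap k L (a j)) ≠ 0 :=
    fun j => ⟨hkk _, by simpa using ha j⟩
  have hf0 : ∀ j, x j ^ 3 - algebraMap k L (a j) * x j ≠ 0 := by
    intro j h
    have h1 := fx_ne_zero (a := fun j => φ (algebraMap k L (a j))) hx' (fun j => (ha' j).1) j
    rw [hfx, h, map_zero] at h1
    exact h1 rfl
  have hw' : ∀ i, φ (w i) ^ 2 = φ (algebraMap k L (d i)) *
      ∏ j ∈ S i, fx (fun j => φ (x j)) (fun j => φ (algebraMap k L (a j))) j := by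
    intro i
    simp only [hfx]
    rw [← map_pow, hw i, map_mul, map_prod]
  have hL' : φ.fieldRange = adj k₀ (Set.range (fun j => φ (x j)) ∪ Set.range fun i => φ (w i)) := by
    rw [fieldRange_eq_adj φ hL, Set.image_union, ← Set.range_comp, ← Set.range_comp]
    rfl
  have key := gen_main (S := S) hm hp hpm hx'
    (a := fun j => φ (algebraMap k L (a j))) (d := fun i => φ (algebraMap k L (d i)))
    ha' (fun i => ⟨hkk _, by simpa using hd i⟩) hw' hL'
    (ξ := KM.map m (toRange φ) ξ) (hξ.map _)
  have hgoal : ∃ η : (I : Finset (Fin r)) → KM m (piece x a S w I), (∀ I, Unr (η I)) ∧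
      KM.map m (toRange φ) ξ = ∑ I with (oddVars S I).card ≤ 1,
        KM.map m ((toRange φ).comp (algebraMap (piece x a S w I) L)) (η I) := by
    generalize KM.map m (toRange φ) ξ = ζ' at key ⊢
    induction key using AddSubgroup.closure_induction with
    | mem ζ hζ =>
      obtain ⟨I, v, hcard, hv2, hvw, hfr⟩ := hζ
      have hv : v = φ (root x a S w I) := by
        have h1 : (∏ j, fx (fun j => φ (x j)) (fun j => φ (algebraMap k L (a j))) j ^
            ((I.filter fun i => j ∈ S i).card / 2)) =
            φ (∏ j, (x j ^ 3 - algebraMap k L (a j) * x j) ^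
              ((I.filter fun i => j ∈ S i).card / 2)) := by
          rw [map_prod]
          refine Finset.prod_congr rfl fun j _ => ?_
          rw [hfx, map_pow]
        have h2 : φ (∏ j, (x j ^ 3 - algebraMap k L (a j) * x j) ^
              ((I.filter fun i => j ∈ S i).card / 2)) ≠ 0 := by
          rw [Ne, map_eq_zero, Finset.prod_eq_zero_iff]
          rintro ⟨j, _, hj⟩
          exact pow_ne_zero _ (hf0 j) hj
        rw [h1, ← map_prod] at hvw
        rw [root, map_mul, map_inv₀]
        exact (eq_mul_inv_iff_mul_eq₀ h2).mpr hvw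
      have hA : adj k₀ (insert v ((fun j => φ (x j)) '' (oddSet S I : Set (Fin n)))) ≤
          (φ.comp (algebraMap (piece x a S w I) L)).fieldRange := by
        apply adj_le
        · rintro _ ⟨c, rfl⟩
          exact ⟨algebraMap k (piece x a S w I) c, rfl⟩
        · rintro z (rfl | ⟨j, hj, rfl⟩)
          · rw [hv]
            exact ⟨⟨root x a S w I, IntermediateField.subset_adjoin _ _
              (Set.mem_insert _ _)⟩, rfl⟩
          · exact ⟨⟨x j, IntermediateField.subset_adjoin _ _
              (Set.mem_insert_of_mem _ ⟨j, hj, rfl⟩)⟩, rfl⟩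
      obtain ⟨η, hη, hη'⟩ := transfer_from_mem φ (algebraMap (piece x a S w I) L) hA hfr
      refine ⟨Pi.single I η, ?_, ?_⟩
      · intro J
        by_cases hJ : J = I
        · subst hJ; simpa using hη
        · rw [Pi.single_eq_of_ne hJ]; exact Unr.zero
      · rw [Finset.sum_eq_single I]
        · rw [Pi.single_eq_same]; exact hη'.symm
        · intro J _ hJ
          rw [Pi.single_eq_of_ne hJ, map_zero]
        · intro h
          have h' : (oddVars S I).card ≤ 1 := hcard
          exact absurd (Finset.mem_filter.mpr ⟨Finset.mem_univ I, h'⟩) h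
    | zero => exact ⟨fun _ => 0, fun _ => Unr.zero, by simp⟩
    | add y z _ _ hy hz =>
      obtain ⟨η₁, h₁, e₁⟩ := hy
      obtain ⟨η₂, h₂, e₂⟩ := hz
      refine ⟨fun I => η₁ I + η₂ I, fun I => (h₁ I).add (h₂ I), ?_⟩
      simp only [map_add, Finset.sum_add_distrib, e₁, e₂]
    | neg y _ hy =>
      obtain ⟨η₁, h₁, e₁⟩ := hy
      refine ⟨fun I => -η₁ I, fun I => (h₁ I).neg, ?_⟩
      simp only [map_neg, Finset.sum_neg_distrib, e₁]
  obtain ⟨η, hη, he⟩ := hgoal
  refine ⟨η, hη, ?_⟩
  apply toRange_map_injective φ
  rw [he, map_sum]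
  refine Finset.sum_congr rfl fun I _ => ?_
  rw [KM.map_map]

end Pool.Agent.Results.MP_859dd5_ag.SupersingularCovers
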